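import Pool.Agent.Lib.MP_cb27ba_nt.TW.Spec3

/-!
# MP_cb27ba_nt, project TW: the energies `E3` and `NA` as sums of squares
-/

set_option autoImplicit false

namespace MPcb27.TW

open Finset
open scoped Pointwise

/-- separation of the two pairs of variables -/
lemma sum_sq_pairs {α β : Type} (S : Finset α) (T : Finset β) (P : α → β → Prop)
    [∀ a b, Decidable (P a b)] :
    ∑ a ∈ S, ∑ a' ∈ S, ∑ b ∈ T, ∑ b' ∈ T, (if P a b ∧ P a' b' then 1 else 0 : ℕ) =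
      (∑ a ∈ S, ∑ b ∈ T, if P a b then 1 else 0) ^ 2 := by
  have h : ∀ a a' : α, ∀ b b' : β, (if P a b ∧ P a' b' then 1 else 0 : ℕ) =
      (if P a b then 1 else 0) * (if P a' b' then 1 else 0) := by
    intro a a' b b'
    by_cases h1 : P a b <;> by_cases h2 : P a' b' <;> simp [h1, h2]
  simp only [h]
  rw [pow_two, Finset.sum_mul_sum]
  refine Finset.sum_congr rfl fun a _ => ?_
  refine Finset.sum_congr rfl fun a' _ => ?_
  rw [Finset.sum_mul_sum]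

/-- exchange of sums -/
lemma sum_pull {α β : Type} (S : Finset α) (D : Finset β) (f : α → α → β → ℕ) :
    ∑ a ∈ S, ∑ a' ∈ S, ∑ y ∈ D, f a a' y = ∑ y ∈ D, ∑ a ∈ S, ∑ a' ∈ S, f a a' y := by
  rw [Finset.sum_congr rfl fun a (_ : a ∈ S) => Finset.sum_comm (s := S) (t := D)
    (f := fun a' y => f a a' y)]
  exact Finset.sum_comm

/-- the number of `b ∈ B` with `b + t ∈ B` -/
lemma sum_pairs_eq {p : ℕ} (B : Finset (ZMod p)) (x y : ZMod p) :
    (∑ b ∈ B, ∑ b' ∈ B, if x - b = y - b' then 1 else 0 : ℕ) =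
      #(B.filter fun b => b + (y - x) ∈ B) := by
  rw [Finset.card_filter]
  refine Finset.sum_congr rfl fun b _ => ?_
  have h : ∀ b' : ZMod p, (x - b = y - b') ↔ (b + (y - x) = b') := by
    intro b'
    constructor
    · intro h
      linear_combination -h
    · intro h
      linear_combination -h
  simp only [h]
  rw [Finset.sum_ite_eq]

lemma E3_eq {p : ℕ} (D B : Finset (ZMod p)) :
    E3 D B = ∑ x ∈ D, ∑ y ∈ D, #(B.filter fun b => b + (y - x) ∈ B) ^ 2 := by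
  unfold E3
  rw [Finset.card_filter]
  simp only [Finset.sum_product]
  refine Finset.sum_congr rfl fun x _ => ?_
  rw [sum_pull B D fun b b' y => ∑ b₁ ∈ B, ∑ b₁' ∈ B,
    (if x - b = y - b₁ ∧ x - b' = y - b₁' then 1 else 0 : ℕ)]
  refine Finset.sum_congr rfl fun y _ => ?_
  rw [sum_sq_pairs B B fun b b₁ => x - b = y - b₁, sum_pairs_eq]

/-- the number of `z` with `φ z ∈ B` and `ψ z ∈ B` -/
lemma sum_pairs_aff {p : ℕ} [Fact p.Prime] (B : Finset (ZMod p)) (φ ψ : ZMod p × ZMod p)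
    (h1 : φ.1 ≠ 0) :
    (∑ b ∈ B, ∑ b' ∈ B, if ψ.1 * (b - φ.2) = φ.1 * (b' - ψ.2) then 1 else 0 : ℕ) =
      #((univ : Finset (ZMod p)).filter fun z => φ.1 * z + φ.2 ∈ B ∧ ψ.1 * z + ψ.2 ∈ B) := by
  rw [← Finset.sum_product', ← Finset.card_filter]
  refine (Finset.card_bij (fun z _ => (φ.1 * z + φ.2, ψ.1 * z + ψ.2)) ?_ ?_ ?_).symm
  · intro z hz
    simp only [mem_filter, mem_univ, true_and] at hz
    simp only [mem_filter, mem_product]
    refine ⟨hz, ?_⟩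
    ring
  · intro z _ z' _ h
    have := (Prod.ext_iff.1 h).1
    simp only [add_left_inj] at this
    exact mul_left_cancel₀ h1 this
  · intro q hq
    simp only [mem_filter, mem_product] at hq
    refine ⟨φ.1⁻¹ * (q.1 - φ.2), ?_, ?_⟩
    · simp only [mem_filter, mem_univ, true_and]
      have e1 : φ.1 * (φ.1⁻¹ * (q.1 - φ.2)) + φ.2 = q.1 := by
        field_simp
        ring
      have e2 : ψ.1 * (φ.1⁻¹ * (q.1 - φ.2)) + ψ.2 = q.2 := by
        have : ψ.1 * (φ.1⁻¹ * (q.1 - φ.2)) = φ.1⁻¹ * (φ.1 * (q.2 - ψ.2)) := by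
          rw [← hq.2]
          ring
        rw [this, ← mul_assoc, inv_mul_cancel₀ h1]
        ring
      rw [e1, e2]
      exact hq.1
    · have e1 : φ.1 * (φ.1⁻¹ * (q.1 - φ.2)) + φ.2 = q.1 := by
        field_simp
        ring
      have e2 : ψ.1 * (φ.1⁻¹ * (q.1 - φ.2)) + ψ.2 = q.2 := by
        have : ψ.1 * (φ.1⁻¹ * (q.1 - φ.2)) = φ.1⁻¹ * (φ.1 * (q.2 - ψ.2)) := by
          rw [← hq.2]
          ring
        rw [this, ← mul_assoc, inv_mul_cancel₀ h1]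
        ring
      exact Prod.ext e1 e2

lemma NA_eq {p : ℕ} [Fact p.Prime] (Φ : Finset (ZMod p × ZMod p)) (B : Finset (ZMod p))
    (hΦ : ∀ φ ∈ Φ, φ.1 ≠ 0) :
    NA Φ B = ∑ φ ∈ Φ, ∑ ψ ∈ Φ,
      #((univ : Finset (ZMod p)).filter fun z => φ.1 * z + φ.2 ∈ B ∧ ψ.1 * z + ψ.2 ∈ B) ^ 2 := by
  unfold NA
  rw [Finset.card_filter, Finset.sum_product]
  simp only [Finset.sum_product Φ (B ×ˢ B), Finset.sum_product B B]
  refine Finset.sum_congr rfl fun φ hφ => ?_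
  rw [sum_pull B Φ fun b b' ψ => ∑ b₁ ∈ B, ∑ b₁' ∈ B,
    (if ψ.1 * (b - φ.2) = φ.1 * (b₁ - ψ.2) ∧ ψ.1 * (b' - φ.2) = φ.1 * (b₁' - ψ.2)
      then 1 else 0 : ℕ)]
  refine Finset.sum_congr rfl fun ψ _ => ?_
  rw [sum_sq_pairs B B fun b b₁ => ψ.1 * (b - φ.2) = φ.1 * (b₁ - ψ.2),
    sum_pairs_aff B φ ψ (hΦ φ hφ)]

end MPcb27.TW
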