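import Pool.Agent.Lib.MP_cb27ba_nt.TW.Spec2
import Pool.Agent.Lib.MP_cb27ba_nt.TG.Spec

/-!
# MP_cb27ba_nt, project TW: FIN0P, the parameters for a family of pairs
-/

set_option autoImplicit false

namespace MPcb27.TW

open Finset
open scoped Pointwise

/-- a constant is at most a small power of `p` -/
theorem FIN0P.large_p (C s : ℝ) (hs : 0 < s) : ∃ P : ℕ, ∀ p : ℕ, P ≤ p → C ≤ (p : ℝ) ^ s := by
  have h := (tendsto_rpow_atTop hs).comp (tendsto_natCast_atTop_atTop (R := ℝ))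
  have h2 := h.eventually (Filter.eventually_ge_atTop C)
  obtain ⟨P, hP⟩ := Filter.eventually_atTop.mp h2
  exact ⟨P, fun p hp => hP p hp⟩

set_option maxRecDepth 4000 in
theorem specFIN0P (hSM : SpecSMP) (hPR : TG.SpecPR) (hHO : SpecHOP) : SpecFIN0P := by
  intro δ hδ hδ4
  set η : ℝ := δ / 32 with hη
  have hη0 : 0 < η := by positivity
  obtain ⟨Y₁, hY₁⟩ := hPR η hη0
  obtain ⟨k, hk⟩ := exists_nat_ge (1 / η)
  have hk0 : (0 : ℝ) < k := lt_of_lt_of_le (by positivity) hk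
  have hk1 : 1 ≤ k := by
    have : 0 < k := by exact_mod_cast hk0
    exact this
  obtain ⟨C, hC0, hHOk⟩ := hHO k hk1
  obtain ⟨c, hc⟩ := exists_nat_ge (4 / δ)
  have hc0 : (0 : ℝ) < c := lt_of_lt_of_le (by positivity) hc
  have hc1 : 1 ≤ c := by
    have : 0 < c := by exact_mod_cast hc0
    exact this
  set σ : ℝ := min (δ / (4 * k)) η with hσ
  have hσ0 : 0 < σ := lt_min (by positivity) hη0
  obtain ⟨P1, hP1⟩ := FIN0P.large_p (C * (258 * c + 64)) (δ / 8) (by positivity)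
  obtain ⟨P2, hP2⟩ := FIN0P.large_p (2 * Y₁ + 4) (7 * δ / 8) (by positivity)
  obtain ⟨P3, hP3⟩ := FIN0P.large_p 8 (δ / 4) (by positivity)
  obtain ⟨P4, hP4⟩ := FIN0P.large_p 5 (σ / 2) (by positivity)
  obtain ⟨P5, hP5⟩ := FIN0P.large_p 2 (δ / 32) (by positivity)
  refine ⟨σ / 2, by positivity, max P1 (max P2 (max P3 (max P4 P5))), ?_⟩
  intro p _ hp H hHlo hHhi ι S z z' hE hD χ hχ
  have hpp : p.Prime := Fact.out
  have h1 := hP1 p ((le_max_left _ _).trans hp)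
  have h2 := hP2 p (((le_max_left _ _).trans (le_max_right _ _)).trans hp)
  have h3 := hP3 p ((((le_max_left _ _).trans (le_max_right _ _)).trans (le_max_right _ _)).trans hp)
  have h4 := hP4 p (((((le_max_left _ _).trans (le_max_right _ _)).trans
    (le_max_right _ _)).trans (le_max_right _ _)).trans hp)
  have h5 := hP5 p (((((le_max_right _ _).trans (le_max_right _ _)).trans
    (le_max_right _ _)).trans (le_max_right _ _)).trans hp)
  have hpR1 : (1 : ℝ) < p := by exact_mod_cast hpp.one_lt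
  have hpR0 : (0 : ℝ) < p := by linarith
  set Q : ℝ := (p : ℝ) with hQ
  set a : ℝ := Q ^ η with ha
  have ha2 : 2 ≤ a := h5
  have ha0 : 0 < a := by linarith
  have hpow : ∀ (k : ℕ), a ^ k = Q ^ (k * η) := by
    intro k
    rw [ha, ← Real.rpow_natCast, ← Real.rpow_mul hpR0.le, mul_comm]
  -- the number of `x`
  set X : ℕ := ⌈a⌉₊ with hX
  have hX1 : a ≤ X := Nat.le_ceil _
  have hX2 : (X : ℝ) ≤ 2 * a := by
    have := Nat.ceil_lt_add_one ha0.le
    linarith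
  have hX0 : (0 : ℝ) < X := by linarith
  have hXone : 1 ≤ X := by
    have : 0 < X := by exact_mod_cast hX0
    exact this
  -- the numbers `y`
  have hH0 : (0 : ℝ) < H := lt_of_lt_of_le (by positivity) hHlo
  have hHone : 1 ≤ H := by
    have : 0 < H := by exact_mod_cast hH0
    exact this
  set Y1 : ℕ := ⌊(H : ℝ) / a ^ 2⌋₊ with hY1
  have hY1hi : (Y1 : ℝ) * a ^ 2 ≤ H := by
    rw [← le_div_iff₀ (by positivity)]
    exact Nat.floor_le (by positivity)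
  have hbig : 2 * (Y₁ : ℝ) + 4 ≤ H / a ^ 2 := by
    rw [le_div_iff₀ (by positivity)]
    calc (2 * (Y₁ : ℝ) + 4) * a ^ 2 ≤ Q ^ (7 * δ / 8) * a ^ 2 := by gcongr
      _ = Q ^ (7 * δ / 8 + δ / 16) := by
          rw [hpow 2, ← Real.rpow_add hpR0]
          congr 1
          rw [hη]
          push_cast
          ring
      _ ≤ Q ^ δ := Real.rpow_le_rpow_of_exponent_le hpR1.le (by linarith)
      _ ≤ H := hHlo
  have hY1lo : (H : ℝ) ≤ 2 * a ^ 2 * Y1 := by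
    have h6 : (H : ℝ) / a ^ 2 < Y1 + 1 := Nat.lt_floor_add_one _
    have h7 : (H : ℝ) / a ^ 2 ≤ 2 * Y1 := by
      have : (0 : ℝ) ≤ Y₁ := Nat.cast_nonneg _
      linarith
    rw [div_le_iff₀ (by positivity)] at h7
    linarith
  have hY1big : (Y₁ : ℝ) ≤ Y1 := by
    have h6 : (H : ℝ) / a ^ 2 < Y1 + 1 := Nat.lt_floor_add_one _
    have : (0 : ℝ) ≤ Y₁ := Nat.cast_nonneg _
    linarith
  have hY1pos : (0 : ℝ) < Y1 := by
    have h6 : (H : ℝ) / a ^ 2 < Y1 + 1 := Nat.lt_floor_add_one _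
    have : (0 : ℝ) ≤ Y₁ := Nat.cast_nonneg _
    linarith
  have hY1H : (Y1 : ℝ) ≤ H := by
    have : (1 : ℝ) ≤ a ^ 2 := one_le_pow₀ (by linarith)
    nlinarith
  obtain ⟨Y0, Y, hY0one, hY0Y1, hY0lo, hYprop, hYcard⟩ := hY₁ Y1 (by exact_mod_cast hY1big)
  -- sizes
  have h8 : 8 * ((H : ℝ) * H) ≤ Q := by
    calc 8 * ((H : ℝ) * H) ≤ Q ^ (δ / 4) * (Q ^ (1 / 2 - δ / 8) * Q ^ (1 / 2 - δ / 8)) := by
          gcongr
      _ = Q := by
          rw [← Real.rpow_add hpR0, ← Real.rpow_add hpR0]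
          have : δ / 4 + (1 / 2 - δ / 8 + (1 / 2 - δ / 8)) = 1 := by ring
          rw [this, Real.rpow_one]
  have hH1 : (1 : ℝ) ≤ H := by exact_mod_cast hHone
  have hHp : 8 * (H : ℝ) ≤ Q := by nlinarith
  have hY1p : (Y1 : ℝ) ≤ Q := by linarith
  have hY1a : (Y1 : ℝ) ^ η ≤ a := Real.rpow_le_rpow hY1pos.le hY1p hη0.le
  have hsplit : (Y1 : ℝ) ^ (1 - η) * (Y1 : ℝ) ^ η = (Y1 : ℝ) := by
    have e : (1 - η) + η = 1 := by ring
    rw [← Real.rpow_add hY1pos, e, Real.rpow_one]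
  have hY0pos : (0 : ℝ) < Y0 := by exact_mod_cast hY0one
  have hratio : (Y1 : ℝ) / Y0 ≤ a := by
    rw [div_le_iff₀ hY0pos]
    calc (Y1 : ℝ) = (Y1 : ℝ) ^ (1 - η) * (Y1 : ℝ) ^ η := hsplit.symm
      _ ≤ Y0 * a := by gcongr
      _ = a * Y0 := mul_comm _ _
  have hYY : (Y1 : ℝ) ≤ a * #Y := by
    calc (Y1 : ℝ) = (Y1 : ℝ) ^ (1 - η) * (Y1 : ℝ) ^ η := hsplit.symm
      _ ≤ #Y * a := by gcongr
      _ = a * #Y := mul_comm _ _
  have hYpos : (0 : ℝ) < #Y := by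
    by_contra hcon
    push Not at hcon
    have : a * (#Y : ℝ) ≤ 0 := mul_nonpos_of_nonneg_of_nonpos ha0.le hcon
    linarith
  have hYne : Y.Nonempty := by
    rw [← card_pos]
    exact_mod_cast hYpos
  -- the hypotheses
  have hE0 : (E0P S z z' : ℝ) ≤ Q ^ (-1 - δ) * (#S : ℝ) ^ 2 * (2 * a ^ 3 * #Y) := by
    have e2 : (H : ℝ) ≤ 2 * a ^ 3 * #Y := by
      calc (H : ℝ) ≤ 2 * a ^ 2 * Y1 := hY1lo
        _ ≤ 2 * a ^ 2 * (a * #Y) := by gcongr
        _ = 2 * a ^ 3 * #Y := by ring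
    have e3 : Q ^ (-1 - δ) * Q ^ (1 + δ) = 1 := by
      rw [← Real.rpow_add hpR0]
      have : -1 - δ + (1 + δ) = 0 := by ring
      rw [this, Real.rpow_zero]
    calc (E0P S z z' : ℝ) = (Q ^ (-1 - δ) * Q ^ (1 + δ)) * E0P S z z' := by rw [e3, one_mul]
      _ = Q ^ (-1 - δ) * (Q ^ (1 + δ) * E0P S z z') := by ring
      _ ≤ Q ^ (-1 - δ) * ((#S : ℝ) ^ 2 * H) := by gcongr
      _ ≤ Q ^ (-1 - δ) * ((#S : ℝ) ^ 2 * (2 * a ^ 3 * #Y)) := by gcongr
      _ = _ := by ring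
  have hD0 : (DP S z z' : ℝ) ≤ Q ^ (-δ) * (#S : ℝ) ^ 2 := by
    have e3 : Q ^ (-δ) * Q ^ δ = 1 := by
      rw [← Real.rpow_add hpR0]
      have : -δ + δ = 0 := by ring
      rw [this, Real.rpow_zero]
    calc (DP S z z' : ℝ) = (Q ^ (-δ) * Q ^ δ) * DP S z z' := by rw [e3, one_mul]
      _ = Q ^ (-δ) * (Q ^ δ * DP S z z') := by ring
      _ ≤ Q ^ (-δ) * (#S : ℝ) ^ 2 := by gcongr
  -- the second moment
  have hY1Hn : Y1 ≤ H := by exact_mod_cast hY1H
  have hN2 : (N2P S z z' H Y : ℝ) ≤ 129 * ((Y1 : ℝ) / Y0) * c * (H : ℝ) ^ 2 * #Y * E0P S z z' +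
      64 * ((H : ℝ) ^ 2 * Y1 / (Y0 * p)) * ((#Y : ℝ) ^ 2 * DP S z z') := by
    refine hSM p _ S z z' H Y0 Y1 c Y hYprop hY0one (by omega) hY0Y1 hc1 ?_ ?_
    · have : 8 * (H : ℝ) * Y1 ≤ p := by
        calc 8 * (H : ℝ) * Y1 ≤ 8 * (H : ℝ) * H := by gcongr
          _ = 8 * ((H : ℝ) * H) := by ring
          _ ≤ p := h8
      exact_mod_cast this
    · have e3 : Q ^ (δ / 4) ≤ Y0 := by
        have e4 : Q ^ (δ / 2) ≤ Y1 := by
          have e5 : Q ^ (15 * δ / 16) ≤ 2 * Y1 := by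
            have e6 : Q ^ (15 * δ / 16) * a ^ 2 ≤ 2 * Y1 * a ^ 2 := by
              calc Q ^ (15 * δ / 16) * a ^ 2 = Q ^ δ := by
                    rw [hpow 2, ← Real.rpow_add hpR0]
                    congr 1
                    rw [hη]
                    push_cast
                    ring
                _ ≤ H := hHlo
                _ ≤ 2 * a ^ 2 * Y1 := hY1lo
                _ = 2 * Y1 * a ^ 2 := by ring
            exact le_of_mul_le_mul_right e6 (by positivity)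
          have e7 : Q ^ (δ / 2) * 2 ≤ Q ^ (15 * δ / 16) := by
            calc Q ^ (δ / 2) * 2 ≤ Q ^ (δ / 2) * a := by gcongr
              _ = Q ^ (δ / 2 + η) := by rw [Real.rpow_add hpR0]
              _ ≤ Q ^ (15 * δ / 16) := by
                  refine Real.rpow_le_rpow_of_exponent_le hpR1.le ?_
                  rw [hη]
                  linarith
          linarith
        calc Q ^ (δ / 4) ≤ Q ^ (δ / 2 * (1 - η)) := by
              refine Real.rpow_le_rpow_of_exponent_le hpR1.le ?_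
              rw [hη]
              nlinarith
          _ = (Q ^ (δ / 2)) ^ (1 - η) := by rw [← Real.rpow_mul hpR0.le]
          _ ≤ (Y1 : ℝ) ^ (1 - η) := by
              refine Real.rpow_le_rpow (by positivity) e4 ?_
              rw [hη]
              linarith
          _ ≤ Y0 := hY0lo
      have e8 : Q ≤ (Y0 : ℝ) ^ (c + 1) := by
        calc Q = Q ^ (1 : ℝ) := (Real.rpow_one _).symm
          _ ≤ Q ^ (δ / 4 * ((c + 1 : ℕ) : ℝ)) := by
              refine Real.rpow_le_rpow_of_exponent_le hpR1.le ?_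
              push_cast
              rw [div_le_iff₀ hδ] at hc
              nlinarith
          _ = (Q ^ (δ / 4)) ^ (c + 1) := by
              rw [Real.rpow_mul hpR0.le, Real.rpow_natCast]
          _ ≤ (Y0 : ℝ) ^ (c + 1) := by gcongr
      have e9 : (p : ℝ) ≤ ((Y0 ^ (c + 1) : ℕ) : ℝ) := by
        push_cast
        exact e8
      exact Nat.cast_le.mp e9
  set W : ℝ := ((#S : ℝ) * H * #Y) ^ 2 with hW
  have hW0 : 0 ≤ W := by positivity
  have hN2' : (N2P S z z' H Y : ℝ) ≤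
      W * (258 * c * (a ^ 4 * Q ^ (-1 - δ)) + 64 * (a * (Q⁻¹ * Q ^ (-δ)))) := by
    refine hN2.trans ?_
    have e1 : 129 * ((Y1 : ℝ) / Y0) * c * (H : ℝ) ^ 2 * #Y * E0P S z z' ≤
        129 * a * c * (H : ℝ) ^ 2 * #Y * (Q ^ (-1 - δ) * (#S : ℝ) ^ 2 * (2 * a ^ 3 * #Y)) := by
      gcongr
    have e2 : 64 * ((H : ℝ) ^ 2 * Y1 / (Y0 * p)) * ((#Y : ℝ) ^ 2 * DP S z z') ≤
        64 * ((H : ℝ) ^ 2 * (a * Q⁻¹)) * ((#Y : ℝ) ^ 2 * (Q ^ (-δ) * (#S : ℝ) ^ 2)) := by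
      have e3 : (H : ℝ) ^ 2 * Y1 / (Y0 * p) = (H : ℝ) ^ 2 * (((Y1 : ℝ) / Y0) * Q⁻¹) := by
        rw [hQ]
        field_simp
      rw [e3]
      gcongr
    refine (add_le_add e1 e2).trans (le_of_eq ?_)
    rw [hW]
    ring
  -- Hoelder
  set ρ : ℝ := Q ^ (-(δ / (4 * k))) with hρ
  have hρ0 : 0 ≤ ρ := by positivity
  have hρr : ρ ^ (2 * k) = Q ^ (-(δ / 2)) := by
    rw [hρ, ← Real.rpow_natCast, ← Real.rpow_mul hpR0.le]
    congr 1
    push_cast
    field_simp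
    ring
  have hcond : C * N2P S z z' H Y * p ≤ ρ ^ (2 * k) * ((#S : ℝ) * H * #Y) ^ 2 := by
    rw [hρr, ← hW]
    have e1 : C * N2P S z z' H Y * Q ≤
        C * (W * (258 * c * (a ^ 4 * Q ^ (-1 - δ)) + 64 * (a * (Q⁻¹ * Q ^ (-δ))))) * Q := by gcongr
    refine e1.trans ?_
    have e2 : a ^ 4 * (Q ^ (-1 - δ) * Q) ≤ Q ^ (-(δ / 2)) * Q ^ (-(δ / 8)) := by
      have e20 : Q ^ (-1 - δ) * Q = Q ^ (-δ) := by
        have e21 : Q ^ (-1 - δ) * Q = Q ^ (-1 - δ) * Q ^ (1 : ℝ) := by rw [Real.rpow_one]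
        rw [e21, ← Real.rpow_add hpR0]
        congr 1
        ring
      rw [e20, hpow 4, ← Real.rpow_add hpR0, ← Real.rpow_add hpR0]
      refine Real.rpow_le_rpow_of_exponent_le hpR1.le ?_
      rw [hη]
      push_cast
      linarith
    have e3 : a * (Q⁻¹ * Q ^ (-δ) * Q) ≤ Q ^ (-(δ / 2)) * Q ^ (-(δ / 8)) := by
      have e30 : Q⁻¹ * Q ^ (-δ) * Q = Q ^ (-δ) := by field_simp
      rw [e30, ha, ← Real.rpow_add hpR0, ← Real.rpow_add hpR0]
      refine Real.rpow_le_rpow_of_exponent_le hpR1.le ?_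
      rw [hη]
      linarith
    have e4 : C * (258 * c + 64) * Q ^ (-(δ / 8)) ≤ 1 := by
      rw [Real.rpow_neg hpR0.le, ← div_eq_mul_inv, div_le_one (by positivity)]
      exact h1
    calc C * (W * (258 * c * (a ^ 4 * Q ^ (-1 - δ)) + 64 * (a * (Q⁻¹ * Q ^ (-δ))))) * Q
        = W * (C * (258 * c * (a ^ 4 * (Q ^ (-1 - δ) * Q)) +
            64 * (a * (Q⁻¹ * Q ^ (-δ) * Q)))) := by ring
      _ ≤ W * (C * (258 * c * (Q ^ (-(δ / 2)) * Q ^ (-(δ / 8))) +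
            64 * (Q ^ (-(δ / 2)) * Q ^ (-(δ / 8))))) := by gcongr
      _ = (C * (258 * c + 64) * Q ^ (-(δ / 8))) * (Q ^ (-(δ / 2)) * W) := by ring
      _ ≤ 1 * (Q ^ (-(δ / 2)) * W) := by gcongr
      _ = _ := one_mul _
  have hXp : X ≤ p := by
    have hXQ : (X : ℝ) ≤ (p : ℝ) := by
      calc (X : ℝ) ≤ 2 * a := hX2
        _ ≤ a * a := by nlinarith
        _ = a ^ 2 := by ring
        _ = Q ^ (((2 : ℕ) : ℝ) * η) := hpow 2
        _ ≤ Q ^ (1 : ℝ) := by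
            refine Real.rpow_le_rpow_of_exponent_le hpR1.le ?_
            rw [hη]
            push_cast
            linarith
        _ = Q := Real.rpow_one _
    exact Nat.cast_le.mp hXQ
  have hXr : p ≤ X ^ k := by
    have hXQ : (p : ℝ) ≤ ((X ^ k : ℕ) : ℝ) := by
      push_cast
      calc (p : ℝ) = Q ^ (1 : ℝ) := (Real.rpow_one _).symm
        _ ≤ Q ^ ((k : ℝ) * η) := by
            refine Real.rpow_le_rpow_of_exponent_le hpR1.le ?_
            rw [div_le_iff₀ (by positivity)] at hk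
            linarith
        _ = a ^ k := (hpow k).symm
        _ ≤ (X : ℝ) ^ k := by gcongr
    exact Nat.cast_le.mp hXQ
  have hY1lt : Y1 < p := by
    have : (Y1 : ℝ) < (p : ℝ) := by
      have : (0 : ℝ) < Q := hpR0
      change (Y1 : ℝ) < Q
      linarith
    exact Nat.cast_lt.mp this
  have hsum := hHOk p χ hχ _ S z z' H X Y1 Y ρ hXone hXp hXr hYne
    (fun y hy => ⟨hY0one.trans (hYprop y hy).2.1, (hYprop y hy).2.2⟩) hY1lt hρ0 hcond
  refine hsum.trans ?_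
  have hXY : (X : ℝ) * Y1 ≤ 2 * (H * a⁻¹) := by
    calc (X : ℝ) * Y1 ≤ 2 * a * Y1 := by gcongr
      _ = 2 * (Y1 * a ^ 2 * a⁻¹) := by
          field_simp
      _ ≤ 2 * (H * a⁻¹) := by gcongr
  have hρσ : ρ ≤ Q ^ (-σ) := by
    rw [hρ]
    refine Real.rpow_le_rpow_of_exponent_le hpR1.le ?_
    have : σ ≤ δ / (4 * k) := min_le_left _ _
    linarith
  have haσ : a⁻¹ ≤ Q ^ (-σ) := by
    rw [ha, ← Real.rpow_neg hpR0.le]
    refine Real.rpow_le_rpow_of_exponent_le hpR1.le ?_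
    have : σ ≤ η := min_le_right _ _
    linarith
  have e1 : (H : ℝ) * ρ + 2 * X * Y1 ≤ H * (5 * Q ^ (-σ)) := by
    have e2 : (H : ℝ) * ρ ≤ H * Q ^ (-σ) := by gcongr
    have e3 : 2 * (X : ℝ) * Y1 ≤ 4 * (H * Q ^ (-σ)) := by
      calc 2 * (X : ℝ) * Y1 = 2 * (X * Y1) := by ring
        _ ≤ 2 * (2 * (H * a⁻¹)) := by gcongr
        _ ≤ 2 * (2 * (H * Q ^ (-σ))) := by gcongr
        _ = _ := by ring
    linarith
  have e5 : 5 * Q ^ (-σ) ≤ Q ^ (-(σ / 2)) := by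
    calc 5 * Q ^ (-σ) ≤ Q ^ (σ / 2) * Q ^ (-σ) := by gcongr
      _ = Q ^ (-(σ / 2)) := by
          rw [← Real.rpow_add hpR0]
          congr 1
          ring
  calc (#S : ℝ) * ((H : ℝ) * ρ + 2 * X * Y1) ≤ #S * (H * (5 * Q ^ (-σ))) := by gcongr
    _ ≤ #S * (H * Q ^ (-(σ / 2))) := by gcongr
    _ = Q ^ (-(σ / 2)) * #S * H := by ring

end MPcb27.TW
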