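import Pool.Agent.Lib.MP_cb27ba_nt.TU.Spec

/-!
# MP_cb27ba_nt, project TW (theorem W, one-sided: `B` arbitrary): exact statements of the modules

Paper proof: idea row 2376 of helper29. `A` is covered by progressions (arbitrary steps), `B` is an
ARBITRARY set with `|B|² |P| ≥ p^(1+δ)`; or `A` is covered by sumsets `D + C`, `C` arbitrary, and
`p^(1+δ) ∑_n r_{D-D}(n) r_{B-B}(n)² ≤ |D|² |B|⁴`.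

Gram sums `∑_{a ∈ X} χ(a-b) conj χ(a-b')`, two-parameter moment (error `p`, not `p^(3/2)`).
-/

set_option autoImplicit false

namespace MPcb27.TW

open Finset
open scoped Pointwise
open MPcb27.TU

/-- the Gram sum -/
noncomputable def GR {p : ℕ} (χ : MulChar (ZMod p) ℂ) (X : Finset (ZMod p)) (b b' : ZMod p) : ℂ :=
  ∑ a ∈ X, χ (a - b) * (starRingEnd ℂ) (χ (a - b'))

/-- the inner sum -/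
noncomputable def KK {p : ℕ} (χ : MulChar (ZMod p) ℂ) (C : Finset (ZMod p)) (q : ZMod p × ZMod p) :
    ℝ := ‖∑ c ∈ C, χ (q.1 + c) * (starRingEnd ℂ) (χ (q.2 + c))‖

/-- GRAM: for `a ∈ A` choose `i a` with `a ∈ X (i a)`; Cauchy-Schwarz;
`∑_{a ∈ X} |∑_b β_b χ(a-b)|² = ∑_{b,b'} β_b conj β_b' GR χ X b b' ≤ |β|² (∑ |GR|²)^(1/2)`
and `|GR|² ≤ #X |GR|`. -/
def SpecGRAM : Prop :=
  ∀ (p : ℕ) [Fact p.Prime] (χ : MulChar (ZMod p) ℂ) (ι : Type) (I : Finset ι)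
    (X : ι → Finset (ZMod p)) (w : ι → ℝ) (B : Finset (ZMod p)) (ρ : ℝ), 0 ≤ ρ →
    (∀ i ∈ I, (#(X i) : ℝ) ≤ w i) →
    (∀ i ∈ I, ∑ b ∈ B, ∑ b' ∈ B, ‖GR χ (X i) b b'‖ ≤ ρ ^ 4 * w i * (#B : ℝ) ^ 2) →
    ∀ A : Finset (ZMod p), (∀ a ∈ A, ∃ i ∈ I, a ∈ X i) →
      NB χ A B (ρ * Real.sqrt ((∑ i ∈ I, w i) * #B))

/-- MOM2: the two-parameter moment, `C` arbitrary. `∑_{u,w} |…|^(2k) = ∑_t |W(t)|²`,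
`W(t) = ∑_u ∏ θ_i (u + t_i)` (BD/Mom: `card_bad`, `W_triv`, `W_weil`, TS/MM `weil_total`). -/
def SpecMOM2 : Prop :=
  ∀ k : ℕ, 1 ≤ k → ∃ C₀ : ℝ, 0 ≤ C₀ ∧ ∀ (p : ℕ) [Fact p.Prime] (χ : MulChar (ZMod p) ℂ), χ ≠ 1 →
    ∀ C : Finset (ZMod p),
      ∑ q : ZMod p × ZMod p, KK χ C q ^ (2 * k) ≤
        C₀ * ((#C : ℝ) ^ k * (p : ℝ) ^ 2 + (#C : ℝ) ^ (2 * k) * p)

/-- SM2: the second moment (as `TG.second_moment`, with a second variable: `r v s`). -/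
def SpecSM2 : Prop :=
  ∀ (p : ℕ) [Fact p.Prime] (r : ZMod p → ZMod p → ℝ), (∀ v s, 0 ≤ r v s) →
    ∀ (N Y0 Y1 m : ℕ), 1 ≤ Y0 → Y0 ≤ N → Y0 ≤ Y1 → 8 * (N * Y1) ≤ p →
    ∀ PY : Finset ℕ, (∀ y ∈ PY, y.Prime ∧ Y0 ≤ y ∧ y ≤ Y1) → 1 ≤ m →
      (∀ n : ℕ, 0 < n → n < p → #(PY.filter (· ∣ n)) ≤ m) →
      ∑ w : ZMod p, ∑ u : ZMod p,
          (∑ y ∈ PY, ∑ n ∈ range N, r (w * (y : ZMod p)) (u * (y : ZMod p) - (n : ZMod p))) ^ 2 ≤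
        65 * ((Y1 : ℝ) / Y0) * m * (N : ℝ) ^ 2 * #PY * ∑ v, ∑ s, r v s ^ 2 +
          64 * ((N : ℝ) ^ 2 * Y1 / (Y0 * p)) * ((#PY : ℝ) ^ 2 * ∑ v, (∑ s, r v s) ^ 2)

/-- the number of pairs `(b,b',n,y)`, `(d,d',n',y')` with `(n-b)/y = (n'-d)/y'` and
`(n-b')/y = (n'-d')/y'` -/
def N2W {p : ℕ} (B : Finset (ZMod p)) (H : ℕ) (Y : Finset ℕ) : ℕ :=
  #((((B ×ˢ B) ×ˢ range H ×ˢ Y) ×ˢ ((B ×ˢ B) ×ˢ range H ×ˢ Y)).filter fun q =>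
    (q.2.2.2 : ZMod p) * ((q.1.2.1 : ZMod p) - q.1.1.1) =
      (q.1.2.2 : ZMod p) * ((q.2.2.1 : ZMod p) - q.2.1.1) ∧
    (q.2.2.2 : ZMod p) * ((q.1.2.1 : ZMod p) - q.1.1.2) =
      (q.1.2.2 : ZMod p) * ((q.2.2.1 : ZMod p) - q.2.1.2))

/-- CW: the count. From SM2 with `r v s = 1` if `-s ∈ B` and `-s - v ∈ B`, else `0`
(`u = (n - b) / y`, `w = (b - b') / y`), `TG.few_primes`; `∑ r² = |B|²`,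
`∑_v (∑_s r v s)² ≤ |B|³`. -/
def SpecCW : Prop :=
  ∀ (p : ℕ) [Fact p.Prime] (B : Finset (ZMod p)) (H Y0 Y1 c : ℕ) (Y : Finset ℕ),
    (∀ y ∈ Y, y.Prime ∧ Y0 ≤ y ∧ y ≤ Y1) → 1 ≤ Y0 → Y0 ≤ H → Y0 ≤ Y1 → 1 ≤ c →
    8 * (H * Y1) ≤ p → p ≤ Y0 ^ (c + 1) →
    (N2W B H Y : ℝ) ≤ 129 * ((Y1 : ℝ) / Y0) * c * (H : ℝ) ^ 2 * #Y * (#B : ℝ) ^ 2 +
      64 * ((H : ℝ) ^ 2 * Y1 / (Y0 * p)) * ((#Y : ℝ) ^ 2 * (#B : ℝ) ^ 3)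

/-- HOW: Burgess shift and Hoelder (`TG.shift_one`, `Burg.holder`, MOM2). -/
def SpecHOW : Prop :=
  ∀ k : ℕ, 1 ≤ k → ∃ C₀ : ℝ, 0 ≤ C₀ ∧ ∀ (p : ℕ) [Fact p.Prime] (χ : MulChar (ZMod p) ℂ), χ ≠ 1 →
    ∀ (B : Finset (ZMod p)) (H X Y1 : ℕ) (Y : Finset ℕ) (ρ : ℝ), 1 ≤ X → X ≤ p → p ≤ X ^ k →
      Y.Nonempty → (∀ y ∈ Y, 1 ≤ y ∧ y ≤ Y1) → Y1 < p → 0 ≤ ρ →
      C₀ * N2W B H Y * p ≤ ρ ^ (2 * k) * ((#B : ℝ) ^ 2 * H * #Y) ^ 2 →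
      ∑ b ∈ B, ∑ b' ∈ B,
          ‖∑ n ∈ range H, χ ((n : ZMod p) - b) * (starRingEnd ℂ) (χ ((n : ZMod p) - b'))‖ ≤
        (#B : ℝ) ^ 2 * (H * ρ + 2 * X * Y1)

/-- third energy: `∑_n r_{D-D}(n) r_{B-B}(n)²` -/
def E3 {p : ℕ} (D B : Finset (ZMod p)) : ℕ :=
  #(((D ×ˢ B ×ˢ B) ×ˢ (D ×ˢ B ×ˢ B)).filter fun q =>
    q.1.1 - q.1.2.1 = q.2.1 - q.2.2.1 ∧ q.1.1 - q.1.2.2 = q.2.1 - q.2.2.2)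

/-- HOS: Hoelder for a sumset (`Burg.holder`, MOM2), `C` arbitrary. The sum over `D + C` is
majorized in GRAM by the pairs `(d, c)`: use `X i = {a}`-free form below. -/
def SpecHOS : Prop :=
  ∀ k : ℕ, 1 ≤ k → ∃ C₀ : ℝ, 0 ≤ C₀ ∧ ∀ (p : ℕ) [Fact p.Prime] (χ : MulChar (ZMod p) ℂ), χ ≠ 1 →
    ∀ (D C B : Finset (ZMod p)) (ρ : ℝ), (p : ℝ) ≤ (#C : ℝ) ^ k → 0 ≤ ρ →
      C₀ * E3 D B * p ≤ ρ ^ (2 * k) * ((#D : ℝ) * (#B : ℝ) ^ 2) ^ 2 →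
      ∑ b ∈ B, ∑ b' ∈ B, ‖∑ d ∈ D, ∑ c ∈ C,
          χ (d + c - b) * (starRingEnd ℂ) (χ (d + c - b'))‖ ≤
        (#B : ℝ) ^ 2 * (#D * #C * ρ)

/-- GRAMS: the variant of GRAM for sumsets. -/
def SpecGRAMS : Prop :=
  ∀ (p : ℕ) [Fact p.Prime] (χ : MulChar (ZMod p) ℂ) (D C B : Finset (ZMod p)) (ρ : ℝ), 0 ≤ ρ →
    (∑ b ∈ B, ∑ b' ∈ B, ‖∑ d ∈ D, ∑ c ∈ C,
        χ (d + c - b) * (starRingEnd ℂ) (χ (d + c - b'))‖ ≤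
      ρ ^ 4 * (#D * #C) * (#B : ℝ) ^ 2) →
    ∀ A : Finset (ZMod p), A ⊆ D + C → NB χ A B (ρ * Real.sqrt (((#D : ℝ) * #C) * #B))

/-- FIN0: one progression `0, 1, …, H-1` of at most `p^(1/2-δ/8)` terms, from CW, HOW, `TG.SpecPR`. -/
def SpecFIN0 : Prop :=
  ∀ δ : ℝ, 0 < δ → δ ≤ 1 / 4 → ∃ τ : ℝ, 0 < τ ∧ ∃ P : ℕ, ∀ (p : ℕ) [Fact p.Prime], P ≤ p →
    ∀ H : ℕ, (p : ℝ) ^ δ ≤ H → (H : ℝ) ≤ (p : ℝ) ^ (1 / 2 - δ / 8) →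
    ∀ B : Finset (ZMod p), (p : ℝ) ^ (1 + δ) ≤ (#B : ℝ) ^ 2 * H →
      ∀ χ : MulChar (ZMod p) ℂ, χ ≠ 1 →
        ∑ b ∈ B, ∑ b' ∈ B,
          ‖∑ n ∈ range H, χ ((n : ZMod p) - b) * (starRingEnd ℂ) (χ ((n : ZMod p) - b'))‖ ≤
        (p : ℝ) ^ (-τ) * H * (#B : ℝ) ^ 2

/-- FINW: unions of progressions against an arbitrary set, from FIN0, GRAM (scaling by the step;
progressions longer than `p^(1/2-δ/4)` are cut, `TU.ap_cover`). -/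
def FinalW : Prop :=
  ∀ δ : ℝ, 0 < δ → ∃ τ : ℝ, 0 < τ ∧ ∃ P : ℕ, ∀ (p : ℕ) [Fact p.Prime], P ≤ p →
    ∀ (F : Finset (Finset (ZMod p))) (B : Finset (ZMod p)), (p : ℝ) ^ (1 / 4 + δ) ≤ #B →
      (∀ X ∈ F, (p : ℝ) ^ δ ≤ #X ∧ (p : ℝ) ^ (1 + δ) ≤ (#B : ℝ) ^ 2 * #X ∧
        ∃ (x g : ZMod p) (n : ℕ), X = (range n).image fun k : ℕ => x + (k : ZMod p) * g) →
      ∀ A : Finset (ZMod p), A ⊆ F.biUnion id → ∀ χ : MulChar (ZMod p) ℂ, χ ≠ 1 →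
          NB χ A B ((p : ℝ) ^ (-τ) * Real.sqrt ((∑ X ∈ F, (#X : ℝ)) * #B))

/-- FINS: one sumset against an arbitrary set, from HOS, GRAMS. -/
def FinalS1 : Prop :=
  ∀ δ : ℝ, 0 < δ → ∃ τ : ℝ, 0 < τ ∧ ∃ P : ℕ, ∀ (p : ℕ) [Fact p.Prime], P ≤ p →
    ∀ D C B : Finset (ZMod p), (p : ℝ) ^ δ ≤ #C →
      (p : ℝ) ^ (1 + δ) * E3 D B ≤ (#D : ℝ) ^ 2 * (#B : ℝ) ^ 4 →
      ∀ A : Finset (ZMod p), A ⊆ D + C → ∀ χ : MulChar (ZMod p) ℂ, χ ≠ 1 →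
          NB χ A B ((p : ℝ) ^ (-τ) * Real.sqrt (((#D : ℝ) * #C) * #B))

end MPcb27.TW
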