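import Pool.Agent.Lib.MP_cb27ba_nt.TU.FINUK
import Pool.Agent.Lib.MP_cb27ba_nt.TW.Spec

/-!
# MP_cb27ba_nt, TW: FINW (unions of progressions against an arbitrary set, from FIN0 and GRAM)
-/

set_option autoImplicit false

namespace MPcb27.TW

open Finset
open scoped Pointwise
open MPcb27.TU

namespace FINW

/-- the Gram sum of a progression is the Gram sum of an interval -/
theorem gr_ap {p : ℕ} [Fact p.Prime] (χ : MulChar (ZMod p) ℂ) (x g : ZMod p) (N : ℕ) (hg : g ≠ 0)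
    (hN : N ≤ p) (b b' : ZMod p) :
    ‖GR χ (ap x g N) b b'‖ ≤ ‖∑ n ∈ range N, χ ((n : ZMod p) - (b - x) * g⁻¹) *
      (starRingEnd ℂ) (χ ((n : ZMod p) - (b' - x) * g⁻¹))‖ := by
  have hinj : Set.InjOn (fun k : ℕ => x + (k : ZMod p) * g) (range N) := by
    intro a ha c hc hac
    simp only [coe_range, Set.mem_Iio] at ha hc
    have h2 : (a : ZMod p) = c := mul_right_cancel₀ hg (add_left_cancel hac)
    rw [ZMod.natCast_eq_natCast_iff'] at h2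
    rwa [Nat.mod_eq_of_lt (lt_of_lt_of_le ha hN), Nat.mod_eq_of_lt (lt_of_lt_of_le hc hN)] at h2
  have h1 : GR χ (ap x g N) b b' = (χ g * (starRingEnd ℂ) (χ g)) *
      ∑ n ∈ range N, χ ((n : ZMod p) - (b - x) * g⁻¹) *
        (starRingEnd ℂ) (χ ((n : ZMod p) - (b' - x) * g⁻¹)) := by
    unfold GR ap
    rw [sum_image hinj, mul_sum]
    refine sum_congr rfl fun n _ => ?_
    have h2 : ∀ c : ZMod p, x + (n : ZMod p) * g - c = g * ((n : ZMod p) - (c - x) * g⁻¹) := by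
      intro c
      field_simp
      ring
    rw [h2, h2, map_mul, map_mul, map_mul]
    ring
  rw [h1, norm_mul]
  have h3 : ‖χ g * (starRingEnd ℂ) (χ g)‖ ≤ 1 := by
    rw [norm_mul, RCLike.norm_conj]
    have h4 : ‖χ g‖ ≤ 1 := DirichletCharacter.norm_le_one χ g
    calc ‖χ g‖ * ‖χ g‖ ≤ 1 * 1 := mul_le_mul h4 h4 (norm_nonneg _) zero_le_one
      _ = 1 := one_mul 1
  calc _ ≤ 1 * _ := mul_le_mul_of_nonneg_right h3 (norm_nonneg _)
    _ = _ := one_mul _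

/-- the sum over the pairs of an arbitrary set -/
theorem sum_gr_ap {p : ℕ} [Fact p.Prime] (χ : MulChar (ZMod p) ℂ) (x g : ZMod p) (N : ℕ)
    (hg : g ≠ 0) (hN : N ≤ p) (B : Finset (ZMod p)) (M : ℝ)
    (h : ∀ B' : Finset (ZMod p), #B' = #B → ∑ b ∈ B', ∑ b' ∈ B',
      ‖∑ n ∈ range N, χ ((n : ZMod p) - b) * (starRingEnd ℂ) (χ ((n : ZMod p) - b'))‖ ≤ M) :
    ∑ b ∈ B, ∑ b' ∈ B, ‖GR χ (ap x g N) b b'‖ ≤ M := by
  have hinj : Function.Injective fun b : ZMod p => (b - x) * g⁻¹ := by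
    intro a c hac
    have h2 : a - x = c - x := mul_right_cancel₀ (inv_ne_zero hg) hac
    exact sub_left_injective h2
  have h1 := h (B.image fun b => (b - x) * g⁻¹) (card_image_of_injective _ hinj)
  rw [sum_image (fun a _ c _ hac => hinj hac)] at h1
  refine le_trans (sum_le_sum fun b _ => ?_) h1
  rw [sum_image (fun a _ c _ hac => hinj hac)]
  exact sum_le_sum fun b' _ => gr_ap χ x g N hg hN b b'

end FINW

open FINW

theorem finalW (hF : SpecFIN0) (hG : SpecGRAM) : FinalW := by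
  intro δ hδ
  obtain ⟨ε, hε⟩ : ∃ ε : ℝ, ε = min δ (1 / 4) := ⟨_, rfl⟩
  have hε0 : 0 < ε := by rw [hε]; exact lt_min hδ (by norm_num)
  have hεδ : ε ≤ δ := by rw [hε]; exact min_le_left _ _
  have hε4 : ε ≤ 1 / 4 := by rw [hε]; exact min_le_right _ _
  obtain ⟨τ, hτ, P, hPP⟩ := hF ε hε0 hε4
  refine ⟨τ / 8, by positivity, max P (max (⌈(2 : ℝ) ^ (8 / τ)⌉₊ + 2) (⌈(2 : ℝ) ^ (8 / ε)⌉₊ + 2)), ?_⟩
  intro p _ hp F B hB hFX A hA χ hχ
  have hpr : p.Prime := Fact.out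
  have hpP : P ≤ p := (le_max_left _ _).trans hp
  have hp2 : ⌈(2 : ℝ) ^ (8 / τ)⌉₊ + 2 ≤ p := ((le_max_left _ _).trans (le_max_right _ _)).trans hp
  have hp3 : ⌈(2 : ℝ) ^ (8 / ε)⌉₊ + 2 ≤ p := ((le_max_right _ _).trans (le_max_right _ _)).trans hp
  have hp1 : (1 : ℝ) < p := by exact_mod_cast hpr.one_lt
  have hp0 : (0 : ℝ) < p := by linarith
  have pow2 : ∀ s : ℝ, 0 < s → ⌈(2 : ℝ) ^ (8 / s)⌉₊ + 2 ≤ p → (2 : ℝ) ≤ (p : ℝ) ^ (s / 8) := by
    intro s hs hps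
    have h6 : (2 : ℝ) ^ (8 / s) ≤ p := by
      refine (Nat.le_ceil _).trans ?_
      have : ⌈(2 : ℝ) ^ (8 / s)⌉₊ ≤ p := by omega
      exact_mod_cast this
    have h7 : ((2 : ℝ) ^ (8 / s)) ^ (s / 8) ≤ (p : ℝ) ^ (s / 8) :=
      Real.rpow_le_rpow (by positivity) h6 (by positivity)
    have h8 : ((2 : ℝ) ^ (8 / s)) ^ (s / 8) = 2 := by
      rw [← Real.rpow_mul (by norm_num)]
      have : 8 / s * (s / 8) = 1 := by field_simp
      rw [this, Real.rpow_one]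
    linarith
  have h2τ := pow2 τ hτ hp2
  have h2ε := pow2 ε hε0 hp3
  -- the length of the long pieces
  obtain ⟨q, hq⟩ : ∃ q : ℝ, q = (p : ℝ) ^ (1 / 2 - ε / 8) := ⟨_, rfl⟩
  have hq1 : 1 < q := by
    rw [hq]
    exact Real.one_lt_rpow hp1 (by linarith)
  obtain ⟨N0, hN0⟩ : ∃ N : ℕ, N = ⌊q⌋₊ := ⟨_, rfl⟩
  have hN01 : 1 ≤ N0 := by
    rw [hN0]
    exact (Nat.one_le_floor_iff _).2 hq1.le
  have hN0q : (N0 : ℝ) ≤ q := by
    rw [hN0]
    exact Nat.floor_le (by linarith)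
  have hqN0 : (p : ℝ) ^ (1 / 2 - ε / 4) ≤ N0 := by
    have h1 : q / 2 ≤ N0 := by
      have h2 := Nat.lt_floor_add_one q
      rw [← hN0] at h2
      have h3 : (1 : ℝ) ≤ N0 := by exact_mod_cast hN01
      linarith
    refine le_trans ?_ h1
    rw [le_div_iff₀ (by norm_num : (0 : ℝ) < 2)]
    calc (p : ℝ) ^ (1 / 2 - ε / 4) * 2 ≤ (p : ℝ) ^ (1 / 2 - ε / 4) * (p : ℝ) ^ (ε / 8) :=
          mul_le_mul_of_nonneg_left h2ε (by positivity)
      _ = q := by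
          rw [← Real.rpow_add hp0, hq]
          congr 1
          ring
  have hqp : q ≤ p := by
    rw [hq]
    calc (p : ℝ) ^ (1 / 2 - ε / 8) ≤ (p : ℝ) ^ (1 : ℝ) :=
          Real.rpow_le_rpow_of_exponent_le hp1.le (by linarith)
      _ = p := Real.rpow_one _
  have hN0p : N0 ≤ p := by exact_mod_cast hN0q.trans hqp
  -- the pieces
  have key : ∀ X ∈ F, ∃ (x g : ZMod p) (N m : ℕ), g ≠ 0 ∧ N ≤ p ∧ (p : ℝ) ^ ε ≤ N ∧
      (N : ℝ) ≤ (p : ℝ) ^ (1 / 2 - ε / 8) ∧ (p : ℝ) ^ (1 + ε) ≤ (#B : ℝ) ^ 2 * N ∧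
      (m : ℝ) * N ≤ 2 * (#X : ℝ) ∧
      ∀ a ∈ X, ∃ j ∈ range m, a ∈ ap (x + ((j * N : ℕ) : ZMod p) * g) g N := by
    intro X hX
    obtain ⟨h9, h10, x, g, n, hXe⟩ := hFX X hX
    have hXa : X = ap x g n := hXe
    have h11 : (1 : ℝ) < #X := lt_of_lt_of_le (Real.one_lt_rpow hp1 hδ) h9
    have h12 : 1 < #X := by exact_mod_cast h11
    obtain ⟨N, hN⟩ : ∃ N : ℕ, N = min #X N0 := ⟨_, rfl⟩
    have hNX : N ≤ #X := by rw [hN]; exact min_le_left _ _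
    have hN1 : 1 ≤ N := by rw [hN]; exact le_min h12.le hN01
    have hNN : N ≤ N0 := by rw [hN]; exact min_le_right _ _
    have hNX' : N ≤ #(ap x g n) := by rw [← hXa]; exact hNX
    have h12' : 1 < #(ap x g n) := by rw [← hXa]; exact h12
    obtain ⟨hg, m, hm, hcov⟩ := ap_cover x g n N hN1 hNX' h12'
    refine ⟨x, g, N, m, hg, hNN.trans hN0p, ?_, ?_, ?_, ?_, ?_⟩
    · rcases min_choice #X N0 with hc | hc
      · rw [hN, hc]
        exact (Real.rpow_le_rpow_of_exponent_le hp1.le hεδ).trans h9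
      · rw [hN, hc]
        exact (Real.rpow_le_rpow_of_exponent_le hp1.le (by linarith)).trans hqN0
    · rw [← hq]
      have : (N : ℝ) ≤ N0 := by exact_mod_cast hNN
      exact this.trans hN0q
    · rcases min_choice #X N0 with hc | hc
      · rw [hN, hc]
        exact (Real.rpow_le_rpow_of_exponent_le hp1.le (by linarith)).trans h10
      · rw [hN, hc]
        have h13 : ((p : ℝ) ^ (1 / 4 + δ)) ^ 2 ≤ (#B : ℝ) ^ 2 :=
          pow_le_pow_left₀ (by positivity) hB 2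
        calc (p : ℝ) ^ (1 + ε) ≤ (p : ℝ) ^ ((1 / 4 + δ) * 2 + (1 / 2 - ε / 4)) :=
              Real.rpow_le_rpow_of_exponent_le hp1.le (by linarith)
          _ = ((p : ℝ) ^ (1 / 4 + δ)) ^ 2 * (p : ℝ) ^ (1 / 2 - ε / 4) := by
              rw [Real.rpow_add hp0, Real.rpow_mul hp0.le]
              norm_num
          _ ≤ (#B : ℝ) ^ 2 * N0 := mul_le_mul h13 hqN0 (by positivity) (by positivity)
    · rw [hXa]
      exact hm
    · intro a ha
      rw [hXa] at ha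
      exact hcov a ha
  choose! fx fg fN fm hg hNp hNε hNq hNB hm hcov using key
  have hρ4 : ((p : ℝ) ^ (-(τ / 4))) ^ 4 = (p : ℝ) ^ (-τ) := by
    rw [← Real.rpow_natCast, ← Real.rpow_mul hp0.le]
    congr 1
    push_cast
    ring
  have h := hG p χ (Σ _ : Finset (ZMod p), ℕ) (F.sigma fun X => range (fm X))
    (fun i => ap (fx i.1 + ((i.2 * fN i.1 : ℕ) : ZMod p) * fg i.1) (fg i.1) (fN i.1))
    (fun i => (fN i.1 : ℝ)) B ((p : ℝ) ^ (-(τ / 4))) (by positivity)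
    (fun i _ => by
      have h1 : #(ap (fx i.1 + ((i.2 * fN i.1 : ℕ) : ZMod p) * fg i.1) (fg i.1) (fN i.1)) ≤
          fN i.1 := by
        unfold ap
        exact card_image_le.trans (by rw [card_range])
      exact_mod_cast h1)
    (fun i hi => by
      rw [mem_sigma] at hi
      refine sum_gr_ap χ _ _ _ (hg _ hi.1) (hNp _ hi.1) B _ fun B' hB' => ?_
      rw [hρ4, ← hB']
      refine hPP p hpP (fN i.1) (hNε _ hi.1) (hNq _ hi.1) B' ?_ χ hχ
      rw [hB']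
      exact hNB _ hi.1)
    A
    (fun a ha => by
      obtain ⟨X, hX, haX⟩ := mem_biUnion.1 (hA ha)
      obtain ⟨j, hj, haj⟩ := hcov X hX a haX
      exact ⟨⟨X, j⟩, mem_sigma.2 ⟨hX, hj⟩, haj⟩)
  refine nb_mono h ?_
  have hs : (∑ i ∈ F.sigma fun X => range (fm X), (fN i.1 : ℝ)) ≤ 2 * ∑ X ∈ F, (#X : ℝ) := by
    rw [sum_sigma, mul_sum]
    refine sum_le_sum fun X hX => ?_
    show ∑ _s ∈ range (fm X), (fN X : ℝ) ≤ 2 * (#X : ℝ)
    rw [sum_const, card_range, nsmul_eq_mul]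
    exact hm X hX
  obtain ⟨S, hS⟩ : ∃ S : ℝ, S = ∑ X ∈ F, (#X : ℝ) := ⟨_, rfl⟩
  have hS0 : 0 ≤ S := by rw [hS]; positivity
  rw [← hS] at hs ⊢
  have h16 : Real.sqrt ((∑ i ∈ F.sigma fun X => range (fm X), (fN i.1 : ℝ)) * #B) ≤
      2 * Real.sqrt (S * #B) := by
    have h17 : Real.sqrt (2 ^ 2 * (S * #B)) = 2 * Real.sqrt (S * #B) := by
      rw [Real.sqrt_mul (by norm_num), Real.sqrt_sq (by norm_num)]
    rw [← h17]
    refine Real.sqrt_le_sqrt ?_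
    have h18 : 0 ≤ S * (#B : ℝ) := by positivity
    have h19 := mul_le_mul_of_nonneg_right hs (Nat.cast_nonneg (α := ℝ) #B)
    nlinarith
  calc (p : ℝ) ^ (-(τ / 4)) * Real.sqrt ((∑ i ∈ F.sigma fun X => range (fm X), (fN i.1 : ℝ)) * #B)
      ≤ (p : ℝ) ^ (-(τ / 4)) * (2 * Real.sqrt (S * #B)) :=
        mul_le_mul_of_nonneg_left h16 (by positivity)
    _ ≤ (p : ℝ) ^ (-(τ / 4)) * ((p : ℝ) ^ (τ / 8) * Real.sqrt (S * #B)) := by
        refine mul_le_mul_of_nonneg_left ?_ (by positivity)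
        exact mul_le_mul_of_nonneg_right h2τ (Real.sqrt_nonneg _)
    _ = (p : ℝ) ^ (-(τ / 8)) * Real.sqrt (S * #B) := by
        rw [← mul_assoc, ← Real.rpow_add hp0]
        congr 2
        ring

end MPcb27.TW
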