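import Pool.Agent.Lib.MP_cb27ba_nt.TW.Spec

/-!
# MP_cb27ba_nt, project TW (one-sided theorems): exact statements, part 2: families of pairs

`TG.SpecSM` and `TG.SpecHO` for families of PAIRS `(z i, z' i)`; the one-sided theorem G (`WG`), and
the one-sided sumset theorem with multiplicity. `E3` is the third energy of `TW/Spec.lean`.
-/

set_option autoImplicit false

namespace MPcb27.TW

open Finset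
open scoped Pointwise
open MPcb27.TU

/-- number of pairs of `(i, n, y)`, `(i₁, n₁, y₁)` with `(z_i + n) / y = (z_i₁ + n₁) / y₁` and
`(z'_i + n) / y = (z'_i₁ + n₁) / y₁` -/
def N2P {p : ℕ} {ι : Type} (S : Finset ι) (z z' : ι → ZMod p) (M : ℕ) (Y : Finset ℕ) : ℕ :=
  #(((S ×ˢ range M ×ˢ Y) ×ˢ (S ×ˢ range M ×ˢ Y)).filter fun q =>
    (q.2.2.2 : ZMod p) * (z q.1.1 + (q.1.2.1 : ZMod p)) =
      (q.1.2.2 : ZMod p) * (z q.2.1 + (q.2.2.1 : ZMod p)) ∧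
    (q.2.2.2 : ZMod p) * (z' q.1.1 + (q.1.2.1 : ZMod p)) =
      (q.1.2.2 : ZMod p) * (z' q.2.1 + (q.2.2.1 : ZMod p)))

/-- number of coincidences -/
def E0P {p : ℕ} {ι : Type} (S : Finset ι) (z z' : ι → ZMod p) : ℕ :=
  #((S ×ˢ S).filter fun q => z q.1 = z q.2 ∧ z' q.1 = z' q.2)

/-- number of coincidences of the differences -/
def DP {p : ℕ} {ι : Type} (S : Finset ι) (z z' : ι → ZMod p) : ℕ :=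
  #((S ×ˢ S).filter fun q => z q.1 - z' q.1 = z q.2 - z' q.2)

/-- SMP: for `v` in `ZMod p` put `S_y(v) = {i : z i - z' i = y v}`; `TG.SM` for index sets which
depend on `y`; sum over `v`. -/
def SpecSMP : Prop :=
  ∀ (p : ℕ) [Fact p.Prime] (ι : Type) (S : Finset ι) (z z' : ι → ZMod p) (M Y0 Y1 c : ℕ)
    (Y : Finset ℕ), (∀ y ∈ Y, y.Prime ∧ Y0 ≤ y ∧ y ≤ Y1) → 1 ≤ Y0 → Y0 ≤ M → Y0 ≤ Y1 → 1 ≤ c →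
    8 * M * Y1 ≤ p → p ≤ Y0 ^ (c + 1) →
    (N2P S z z' M Y : ℝ) ≤ 129 * ((Y1 : ℝ) / Y0) * c * (M : ℝ) ^ 2 * #Y * E0P S z z' +
      64 * ((M : ℝ) ^ 2 * Y1 / (Y0 * p)) * ((#Y : ℝ) ^ 2 * DP S z z')

/-- HOP: Burgess shift and Hoelder for a family of pairs (`TG.shift_one`, `Burg.holder`, MOM2). -/
def SpecHOP : Prop :=
  ∀ k : ℕ, 1 ≤ k → ∃ C₀ : ℝ, 0 ≤ C₀ ∧ ∀ (p : ℕ) [Fact p.Prime] (χ : MulChar (ZMod p) ℂ), χ ≠ 1 →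
    ∀ (ι : Type) (S : Finset ι) (z z' : ι → ZMod p) (M X Y1 : ℕ) (Y : Finset ℕ) (ρ : ℝ),
      1 ≤ X → X ≤ p → p ≤ X ^ k → Y.Nonempty → (∀ y ∈ Y, 1 ≤ y ∧ y ≤ Y1) → Y1 < p → 0 ≤ ρ →
      C₀ * N2P S z z' M Y * p ≤ ρ ^ (2 * k) * ((#S : ℝ) * M * #Y) ^ 2 →
      ∑ i ∈ S, ‖∑ n ∈ range M,
          χ (z i + (n : ZMod p)) * (starRingEnd ℂ) (χ (z' i + (n : ZMod p)))‖ ≤
        #S * ((M : ℝ) * ρ + 2 * X * Y1)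

/-- FIN0P: parameters, from SMP, HOP, `TG.SpecPR`. -/
def SpecFIN0P : Prop :=
  ∀ δ : ℝ, 0 < δ → δ ≤ 1 / 4 → ∃ τ : ℝ, 0 < τ ∧ ∃ P : ℕ, ∀ (p : ℕ) [Fact p.Prime], P ≤ p →
    ∀ H : ℕ, (p : ℝ) ^ δ ≤ H → (H : ℝ) ≤ (p : ℝ) ^ (1 / 2 - δ / 8) →
    ∀ (ι : Type) (S : Finset ι) (z z' : ι → ZMod p),
      (p : ℝ) ^ (1 + δ) * E0P S z z' ≤ (#S : ℝ) ^ 2 * H → (p : ℝ) ^ δ * DP S z z' ≤ (#S : ℝ) ^ 2 →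
      ∀ χ : MulChar (ZMod p) ℂ, χ ≠ 1 →
        ∑ i ∈ S, ‖∑ n ∈ range H,
            χ (z i + (n : ZMod p)) * (starRingEnd ℂ) (χ (z' i + (n : ZMod p)))‖ ≤
          (p : ℝ) ^ (-τ) * #S * H

/-- GRAMG: with `U = X + ap 0 g H` and `f ≥ 0`: `H ∑_{x ∈ X} f x ≤ ∑_{u ∈ U} ∑_{n < H} f (u - n g)`,
`f x = |∑_b β_b χ (x - b)|²`; open the square, Cauchy-Schwarz over `(b, b')`, `|G| ≤ #U H`. -/
def SpecGRAMG : Prop :=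
  ∀ (p : ℕ) [Fact p.Prime] (χ : MulChar (ZMod p) ℂ) (X B : Finset (ZMod p)) (g : ZMod p) (H : ℕ)
    (ρ : ℝ), 1 ≤ H → 0 ≤ ρ →
    (∑ u ∈ X + ap 0 g H, ∑ b ∈ B, ∑ b' ∈ B, ‖∑ n ∈ range H,
        χ (u - (n : ZMod p) * g - b) * (starRingEnd ℂ) (χ (u - (n : ZMod p) * g - b'))‖ ≤
      ρ ^ 4 * (H * #(X + ap 0 g H)) * (#B : ℝ) ^ 2) →
    NB χ X B (ρ * Real.sqrt ((#(X + ap 0 g H) : ℝ) * #B))

/-- WG1: one pair `(X, L)`, from FIN0P, GRAMG (`g ≠ 0`: scaling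
`χ (u - n g - b) = χ (-g) χ ((b - u) / g + n)`; `S = U × B × B`, `E0P = E3 U B`,
`DP ≤ #U² #B³`). -/
def SpecWG1 : Prop :=
  ∀ δ : ℝ, 0 < δ → ∃ τ : ℝ, 0 < τ ∧ ∃ P : ℕ, ∀ (p : ℕ) [Fact p.Prime], P ≤ p →
    ∀ (X B : Finset (ZMod p)) (g : ZMod p) (n : ℕ), (p : ℝ) ^ δ ≤ #B →
      (p : ℝ) ^ δ ≤ #(ap 0 g n) → (#(ap 0 g n) : ℝ) ≤ (p : ℝ) ^ (1 / 2 : ℝ) →
      (p : ℝ) ^ (1 + δ) * E3 (X + ap 0 g n) B ≤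
        (#(X + ap 0 g n) : ℝ) ^ 2 * (#B : ℝ) ^ 4 * #(ap 0 g n) →
      ∀ χ : MulChar (ZMod p) ℂ, χ ≠ 1 →
        NB χ X B ((p : ℝ) ^ (-τ) * Real.sqrt ((#(X + ap 0 g n) : ℝ) * #B))

/-- FINWG: the one-sided theorem G, unions of pairs `(X, L)`; from WG1, UNI. -/
def FinalWG : Prop :=
  ∀ δ : ℝ, 0 < δ → ∃ τ : ℝ, 0 < τ ∧ ∃ P : ℕ, ∀ (p : ℕ) [Fact p.Prime], P ≤ p →
    ∀ (B : Finset (ZMod p)) (F : Finset (Finset (ZMod p) × Finset (ZMod p))),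
      (p : ℝ) ^ δ ≤ #B →
      (∀ q ∈ F, (∃ (g : ZMod p) (n : ℕ), q.2 = (range n).image fun k : ℕ => (k : ZMod p) * g) ∧
        (p : ℝ) ^ δ ≤ #q.2 ∧ (#q.2 : ℝ) ≤ (p : ℝ) ^ (1 / 2 : ℝ) ∧
        (p : ℝ) ^ (1 + δ) * E3 (q.1 + q.2) B ≤ (#(q.1 + q.2) : ℝ) ^ 2 * (#B : ℝ) ^ 4 * #q.2) →
      ∀ A : Finset (ZMod p), A ⊆ F.biUnion (fun q => q.1) → ∀ χ : MulChar (ZMod p) ℂ, χ ≠ 1 →
          NB χ A B ((p : ℝ) ^ (-τ) * Real.sqrt ((∑ q ∈ F, (#(q.1 + q.2) : ℝ)) * #B))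

/-- GRAMM: GRAMS with multiplicity. -/
def SpecGRAMM : Prop :=
  ∀ (p : ℕ) [Fact p.Prime] (χ : MulChar (ZMod p) ℂ) (D C B : Finset (ZMod p)) (m : ℕ) (ρ : ℝ),
    1 ≤ m → 0 ≤ ρ →
    (∑ b ∈ B, ∑ b' ∈ B, ‖∑ d ∈ D, ∑ c ∈ C,
        χ (d + c - b) * (starRingEnd ℂ) (χ (d + c - b'))‖ ≤
      ρ ^ 4 * (#D * #C) * (#B : ℝ) ^ 2) →
    ∀ A : Finset (ZMod p), (∀ a ∈ A, m ≤ #((D ×ˢ C).filter fun q => q.1 + q.2 = a)) →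
      NB χ A B (ρ * Real.sqrt (((#D : ℝ) * #C / m) * #B))

/-- FINS2: unions of sumsets with multiplicity against an arbitrary set, from HOS, GRAMM, UNI.
`m = #C`: sets nearly invariant under an arbitrary set `C`. -/
def FinalS2 : Prop :=
  ∀ δ : ℝ, 0 < δ → ∃ τ : ℝ, 0 < τ ∧ ∃ P : ℕ, ∀ (p : ℕ) [Fact p.Prime], P ≤ p →
    ∀ (B : Finset (ZMod p)) (F : Finset (Finset (ZMod p) × Finset (ZMod p) × ℕ)),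
      (∀ q ∈ F, (p : ℝ) ^ δ ≤ #q.2.1 ∧ 1 ≤ q.2.2 ∧
        (p : ℝ) ^ (1 + δ) * E3 q.1 B ≤ (#q.1 : ℝ) ^ 2 * (#B : ℝ) ^ 4) →
      ∀ A : Finset (ZMod p),
        (∀ a ∈ A, ∃ q ∈ F, q.2.2 ≤ #((q.1 ×ˢ q.2.1).filter fun x => x.1 + x.2 = a)) →
        ∀ χ : MulChar (ZMod p) ℂ, χ ≠ 1 →
          NB χ A B ((p : ℝ) ^ (-τ) *
            Real.sqrt ((∑ q ∈ F, (#q.1 : ℝ) * #q.2.1 / q.2.2) * #B))

end MPcb27.TW
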