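import Pool.Agent.Lib.MP_cb27ba_nt.TW.Spec
import Pool.Agent.Lib.MP_cb27ba_nt.TG.HO2
import Pool.Agent.Lib.MP_cb27ba_nt.TW.Spec2

section
/-!
# MP_cb27ba_nt, project TW: module HOW (Burgess shift and Hoelder for Gram sums)
-/
set_option autoImplicit false

open Finset

namespace MPcb27.TW

open MPcb27.Burg MPcb27.TG

namespace HOW

/-- a nonzero multiplier drops out of the Gram sum -/
theorem char_ratio {p : ℕ} [Fact p.Prime] (χ : MulChar (ZMod p) ℂ) (y a b : ZMod p) (hy : y ≠ 0) :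
    χ (y * a) * (starRingEnd ℂ) (χ (y * b)) = χ a * (starRingEnd ℂ) (χ b) := by
  have h1 : χ y * (starRingEnd ℂ) (χ y) = 1 := by
    rw [Complex.mul_conj, Complex.normSq_eq_norm_sq]
    have h2 : ‖χ y‖ = 1 := by
      have hu : IsUnit y := IsUnit.mk0 y hy
      obtain ⟨u, hu'⟩ := hu
      rw [← hu']
      exact DirichletCharacter.unit_norm_eq_one (n := p) χ u
    rw [h2]
    norm_num
  rw [map_mul, map_mul, map_mul]
  calc χ y * χ a * ((starRingEnd ℂ) (χ y) * (starRingEnd ℂ) (χ b))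
      = (χ y * (starRingEnd ℂ) (χ y)) * (χ a * (starRingEnd ℂ) (χ b)) := by ring
    _ = _ := by rw [h1, one_mul]

theorem norm_gram {p : ℕ} [Fact p.Prime] (χ : MulChar (ZMod p) ℂ) (a b : ZMod p) :
    ‖χ a * (starRingEnd ℂ) (χ b)‖ ≤ 1 := by
  rw [norm_mul, Complex.norm_conj]
  exact mul_le_one₀ (DirichletCharacter.norm_le_one (n := p) χ a) (norm_nonneg _)
    (DirichletCharacter.norm_le_one (n := p) χ b)

/-- the interval as a finset of residues -/
theorem KK_iv {p : ℕ} [Fact p.Prime] (χ : MulChar (ZMod p) ℂ) (X : ℕ) (hX : X ≤ p)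
    (q : ZMod p × ZMod p) :
    KK χ ((range X).image fun n : ℕ => (n : ZMod p)) q =
      ‖∑ x ∈ range X, χ (q.1 + (x : ZMod p)) * (starRingEnd ℂ) (χ (q.2 + (x : ZMod p)))‖ := by
  unfold KK
  congr 1
  rw [sum_image]
  intro a ha b hb hab
  rw [coe_range, Set.mem_Iio] at ha hb
  have h1 := (ZMod.natCast_eq_natCast_iff' _ _ p).1 hab
  rwa [Nat.mod_eq_of_lt (ha.trans_le hX), Nat.mod_eq_of_lt (hb.trans_le hX)] at h1

theorem card_iv {p : ℕ} [Fact p.Prime] (X : ℕ) (hX : X ≤ p) :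
    #((range X).image fun n : ℕ => (n : ZMod p)) = X := by
  rw [card_image_of_injOn, card_range]
  intro a ha b hb hab
  rw [coe_range, Set.mem_Iio] at ha hb
  have h1 := (ZMod.natCast_eq_natCast_iff' _ _ p).1 hab
  rwa [Nat.mod_eq_of_lt (ha.trans_le hX), Nat.mod_eq_of_lt (hb.trans_le hX)] at h1

end HOW

open HOW

theorem specHOW (hM : SpecMOM2) : SpecHOW := by
  classical
  intro k hk
  obtain ⟨C₀, hC₀, hmom0⟩ := hM k hk
  refine ⟨2 * C₀, by positivity, ?_⟩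
  intro p _ χ hχ B H X Y1 Y ρ hX hXp hXk hYne hY hY1 hρ hb
  have hpp : p.Prime := Fact.out
  have hp0 : (0 : ℝ) < p := by exact_mod_cast hpp.pos
  have hX0 : (0 : ℝ) < X := by exact_mod_cast hX
  have hYc : (0 : ℝ) < #Y := by exact_mod_cast hYne.card_pos
  have hne : ∀ y ∈ Y, ((y : ℕ) : ZMod p) ≠ 0 := by
    intro y hy h
    rw [ZMod.natCast_eq_zero_iff] at h
    have h1 := Nat.le_of_dvd (hY y hy).1 h
    have h2 := (hY y hy).2
    omega
  set Wt : ZMod p × ZMod p → ℝ := KK χ ((range X).image fun n : ℕ => (n : ZMod p)) with hWt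
  set g : (ZMod p × ZMod p) × ℕ × ℕ → ZMod p × ZMod p := fun q =>
    (((q.2.1 : ZMod p) - q.1.1) / (q.2.2 : ZMod p),
      ((q.2.1 : ZMod p) - q.1.2) / (q.2.2 : ZMod p)) with hg
  set SS : Finset ((ZMod p × ZMod p) × ℕ × ℕ) := (B ×ˢ B) ×ˢ range H ×ˢ Y with hSS
  set Q : ℝ := ∑ q ∈ SS, Wt (g q) with hQ
  have hcardSS : (#SS : ℝ) = (#B : ℝ) ^ 2 * H * #Y := by
    rw [hSS, card_product, card_product, card_product, card_range]
    push_cast
    ring
  -- one pair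
  have hone : ∀ bb ∈ B ×ˢ B, (X * #Y : ℝ) * ‖∑ n ∈ range H, χ ((n : ZMod p) - bb.1) *
      (starRingEnd ℂ) (χ ((n : ZMod p) - bb.2))‖ ≤
      ∑ q ∈ range H ×ˢ Y, Wt (g (bb, q)) + X * #Y * (2 * (X * Y1)) := by
    intro bb _
    set F : ℕ → ℂ := fun n => χ ((n : ZMod p) - bb.1) *
      (starRingEnd ℂ) (χ ((n : ZMod p) - bb.2)) with hF
    have hF1 : ∀ n, ‖F n‖ ≤ 1 := fun n => norm_gram χ _ _
    set Sg := ∑ n ∈ range H, F n with hSg
    have h1 : ∀ y ∈ Y, ∀ x ∈ range X, ‖Sg - ∑ n ∈ range H, F (n + x * y)‖ ≤ 2 * (X * Y1) := by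
      intro y hy x hx
      refine (shift_one F hF1 H (x * y)).trans ?_
      rw [mem_range] at hx
      have h2 : x * y ≤ X * Y1 := Nat.mul_le_mul hx.le (hY y hy).2
      have h3 : ((x * y : ℕ) : ℝ) ≤ X * Y1 := by exact_mod_cast h2
      linarith
    have h2 : ‖∑ y ∈ Y, ∑ x ∈ range X, (Sg - ∑ n ∈ range H, F (n + x * y))‖ ≤
        X * #Y * (2 * (X * Y1)) := by
      refine (norm_sum_le _ _).trans ?_
      have h3 : ∀ y ∈ Y, ‖∑ x ∈ range X, (Sg - ∑ n ∈ range H, F (n + x * y))‖ ≤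
          X * (2 * (X * Y1)) := by
        intro y hy
        refine (norm_sum_le _ _).trans ((sum_le_sum (h1 y hy)).trans ?_)
        rw [sum_const, card_range, nsmul_eq_mul]
      refine (sum_le_sum h3).trans ?_
      rw [sum_const, nsmul_eq_mul]
      exact le_of_eq (by ring)
    have h4 : ∑ y ∈ Y, ∑ x ∈ range X, (Sg - ∑ n ∈ range H, F (n + x * y)) =
        (X * #Y : ℂ) * Sg - ∑ q ∈ range H ×ˢ Y, ∑ x ∈ range X, F (q.1 + x * q.2) := by
      rw [sum_product_right]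
      simp only [sum_sub_distrib, sum_const, card_range, nsmul_eq_mul]
      congr 1
      · ring
      · refine sum_congr rfl fun m _ => ?_
        rw [sum_comm]
    have h5 : ‖∑ q ∈ range H ×ˢ Y, ∑ x ∈ range X, F (q.1 + x * q.2)‖ ≤
        ∑ q ∈ range H ×ˢ Y, Wt (g (bb, q)) := by
      refine (norm_sum_le _ _).trans (sum_le_sum fun q hq => ?_)
      rw [mem_product] at hq
      have hy := hne _ hq.2
      rw [hWt, KK_iv χ X hXp]
      refine le_of_eq ?_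
      congr 1
      refine sum_congr rfl fun x _ => ?_
      simp only [hF, hg]
      have hcr := char_ratio χ (q.2 : ZMod p) (((q.1 : ZMod p) - bb.1) / (q.2 : ZMod p) + (x : ZMod p))
        (((q.1 : ZMod p) - bb.2) / (q.2 : ZMod p) + (x : ZMod p)) hy
      rw [← hcr]
      have e1 : (((q.1 + x * q.2 : ℕ) : ZMod p)) - bb.1 =
          (q.2 : ZMod p) * (((q.1 : ZMod p) - bb.1) / (q.2 : ZMod p) + (x : ZMod p)) := by
        rw [mul_add, mul_div_cancel₀ _ hy]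
        push_cast
        ring
      have e2 : (((q.1 + x * q.2 : ℕ) : ZMod p)) - bb.2 =
          (q.2 : ZMod p) * (((q.1 : ZMod p) - bb.2) / (q.2 : ZMod p) + (x : ZMod p)) := by
        rw [mul_add, mul_div_cancel₀ _ hy]
        push_cast
        ring
      rw [e1, e2]
    rw [h4] at h2
    have h8 : ‖(X * #Y : ℂ) * Sg‖ = (X * #Y : ℝ) * ‖Sg‖ := by
      rw [norm_mul, norm_mul, Complex.norm_natCast, Complex.norm_natCast]
    rw [← h8]
    set R := ∑ q ∈ range H ×ˢ Y, ∑ x ∈ range X, F (q.1 + x * q.2)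
    calc ‖(X * #Y : ℂ) * Sg‖ = ‖((X * #Y : ℂ) * Sg - R) + R‖ := by rw [sub_add_cancel]
      _ ≤ _ := norm_add_le _ _
      _ ≤ _ := by linarith
  have hall : (X * #Y : ℝ) * ∑ bb ∈ B ×ˢ B, ‖∑ n ∈ range H, χ ((n : ZMod p) - bb.1) *
      (starRingEnd ℂ) (χ ((n : ZMod p) - bb.2))‖ ≤
      Q + (#B : ℝ) ^ 2 * (X * #Y * (2 * (X * Y1))) := by
    rw [mul_sum]
    refine (sum_le_sum hone).trans ?_
    rw [sum_add_distrib, sum_const, nsmul_eq_mul, hQ, hSS, sum_product (s := B ×ˢ B), card_product]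
    refine le_of_eq ?_
    push_cast
    ring
  -- Hoelder
  have hW0 : ∀ t, 0 ≤ Wt t := fun t => norm_nonneg _
  have hH := holder SS univ g (fun q _ => mem_univ _) Wt hW0 k hk
  have hcoin : (#((SS ×ˢ SS).filter fun q => g q.1 = g q.2) : ℝ) ≤ N2W B H Y := by
    unfold N2W
    rw [← hSS]
    have : ((SS ×ˢ SS).filter fun q => g q.1 = g q.2) ⊆ ((SS ×ˢ SS).filter fun q =>
        (q.2.2.2 : ZMod p) * ((q.1.2.1 : ZMod p) - q.1.1.1) =
          (q.1.2.2 : ZMod p) * ((q.2.2.1 : ZMod p) - q.2.1.1) ∧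
        (q.2.2.2 : ZMod p) * ((q.1.2.1 : ZMod p) - q.1.1.2) =
          (q.1.2.2 : ZMod p) * ((q.2.2.1 : ZMod p) - q.2.1.2)) := by
      intro q hq
      rw [mem_filter] at hq ⊢
      refine ⟨hq.1, ?_⟩
      have h1 := hq.1
      rw [hSS] at h1
      simp only [mem_product] at h1
      have a1 := hne _ h1.1.2.2
      have a2 := hne _ h1.2.2.2
      have h2 := (Prod.mk.injEq _ _ _ _ ▸ hq.2 : _ ∧ _)
      obtain ⟨h3, h4⟩ := h2
      rw [div_eq_div_iff a1 a2] at h3 h4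
      exact ⟨by rw [mul_comm, h3, mul_comm], by rw [mul_comm, h4, mul_comm]⟩
    exact_mod_cast card_le_card this
  have hmom := hmom0 p χ hχ ((range X).image fun n : ℕ => (n : ZMod p))
  rw [card_iv X hXp, ← hWt] at hmom
  have hmom2 : ∑ t : ZMod p × ZMod p, Wt t ^ (2 * k) ≤ 2 * C₀ * (X : ℝ) ^ (2 * k) * p := by
    refine hmom.trans ?_
    have h1 : (p : ℝ) ≤ (X : ℝ) ^ k := by exact_mod_cast hXk
    have h2 : (X : ℝ) ^ k * (p : ℝ) ^ 2 ≤ (X : ℝ) ^ (2 * k) * p := by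
      calc (X : ℝ) ^ k * (p : ℝ) ^ 2 = ((X : ℝ) ^ k * p) * p := by ring
        _ ≤ ((X : ℝ) ^ k * (X : ℝ) ^ k) * p :=
            mul_le_mul_of_nonneg_right (mul_le_mul_of_nonneg_left h1 (by positivity)) hp0.le
        _ = (X : ℝ) ^ (2 * k) * p := by rw [two_mul, pow_add]
    calc C₀ * ((X : ℝ) ^ k * (p : ℝ) ^ 2 + (X : ℝ) ^ (2 * k) * p)
        ≤ C₀ * ((X : ℝ) ^ (2 * k) * p + (X : ℝ) ^ (2 * k) * p) :=
          mul_le_mul_of_nonneg_left (by linarith) hC₀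
      _ = _ := by ring
  have hQ2 : Q ^ (2 * k) ≤ (X * ρ * #SS) ^ (2 * k) := by
    refine hH.trans ?_
    calc (#SS : ℝ) ^ (2 * (k - 1)) * (#((SS ×ˢ SS).filter fun q => g q.1 = g q.2) : ℝ) *
          ∑ t : ZMod p × ZMod p, Wt t ^ (2 * k)
        ≤ (#SS : ℝ) ^ (2 * (k - 1)) * (N2W B H Y : ℝ) *
          (2 * C₀ * (X : ℝ) ^ (2 * k) * p) := by
          apply mul_le_mul _ hmom2 (sum_nonneg fun t _ => pow_nonneg (hW0 t) _) (by positivity)
          exact mul_le_mul_of_nonneg_left hcoin (by positivity)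
      _ = (#SS : ℝ) ^ (2 * (k - 1)) * (X : ℝ) ^ (2 * k) *
          (2 * C₀ * (N2W B H Y : ℝ) * p) := by ring
      _ ≤ (#SS : ℝ) ^ (2 * (k - 1)) * (X : ℝ) ^ (2 * k) * (ρ ^ (2 * k) * (#SS : ℝ) ^ 2) := by
          rw [hcardSS]
          apply mul_le_mul_of_nonneg_left _ (by positivity)
          exact hb
      _ = (X * ρ * #SS) ^ (2 * k) := by
          have e : 2 * k = 2 * (k - 1) + 2 := by omega
          rw [mul_pow, mul_pow]
          have e2 : (#SS : ℝ) ^ (2 * k) = (#SS : ℝ) ^ (2 * (k - 1)) * (#SS : ℝ) ^ 2 := by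
            rw [← pow_add]
            congr 1
          rw [e2]
          ring
  have hQ3 : Q ≤ X * ρ * #SS := le_of_pow_le_pow_left₀ (by omega) (by positivity) hQ2
  rw [hcardSS] at hQ3
  rw [← sum_product' (s := B) (t := B) (f := fun b b' => ‖∑ n ∈ range H, χ ((n : ZMod p) - b) *
    (starRingEnd ℂ) (χ ((n : ZMod p) - b'))‖)]
  have hfin : (X * #Y : ℝ) * ∑ bb ∈ B ×ˢ B, ‖∑ n ∈ range H, χ ((n : ZMod p) - bb.1) *
      (starRingEnd ℂ) (χ ((n : ZMod p) - bb.2))‖ ≤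
      (X * #Y : ℝ) * ((#B : ℝ) ^ 2 * (H * ρ + 2 * X * Y1)) := by
    refine hall.trans ?_
    have e : (X * #Y : ℝ) * ((#B : ℝ) ^ 2 * (H * ρ + 2 * X * Y1)) =
        X * ρ * ((#B : ℝ) ^ 2 * H * #Y) + (#B : ℝ) ^ 2 * (X * #Y * (2 * (X * Y1))) := by
      ring
    rw [e]
    linarith
  exact le_of_mul_le_mul_left hfin (by positivity)

end MPcb27.TW
end

section
/-!
# MP_cb27ba_nt, project TW: module HOP (Burgess shift and Hoelder for families of pairs)
-/
set_option autoImplicit false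

open Finset

namespace MPcb27.TW

open MPcb27.Burg MPcb27.TG

open HOW

theorem specHOP (hM : SpecMOM2) : SpecHOP := by
  classical
  intro k hk
  obtain ⟨C₀, hC₀, hmom0⟩ := hM k hk
  refine ⟨2 * C₀, by positivity, ?_⟩
  intro p _ χ hχ ι S z z' M X Y1 Y ρ hX hXp hXk hYne hY hY1 hρ hb
  have hpp : p.Prime := Fact.out
  have hp0 : (0 : ℝ) < p := by exact_mod_cast hpp.pos
  have hX0 : (0 : ℝ) < X := by exact_mod_cast hX
  have hYc : (0 : ℝ) < #Y := by exact_mod_cast hYne.card_pos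
  have hne : ∀ y ∈ Y, ((y : ℕ) : ZMod p) ≠ 0 := by
    intro y hy h
    rw [ZMod.natCast_eq_zero_iff] at h
    have h1 := Nat.le_of_dvd (hY y hy).1 h
    have h2 := (hY y hy).2
    omega
  set Wt : ZMod p × ZMod p → ℝ := KK χ ((range X).image fun n : ℕ => (n : ZMod p)) with hWt
  set g : ι × ℕ × ℕ → ZMod p × ZMod p := fun q =>
    ((z q.1 + (q.2.1 : ZMod p)) / (q.2.2 : ZMod p),
      (z' q.1 + (q.2.1 : ZMod p)) / (q.2.2 : ZMod p)) with hg
  set SS : Finset (ι × ℕ × ℕ) := S ×ˢ range M ×ˢ Y with hSS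
  set Q : ℝ := ∑ q ∈ SS, Wt (g q) with hQ
  have hcardSS : (#SS : ℝ) = (#S : ℝ) * M * #Y := by
    rw [hSS, card_product, card_product, card_range]
    push_cast
    ring
  -- one pair
  have hone : ∀ i ∈ S, (X * #Y : ℝ) * ‖∑ n ∈ range M, χ (z i + (n : ZMod p)) *
      (starRingEnd ℂ) (χ (z' i + (n : ZMod p)))‖ ≤
      ∑ q ∈ range M ×ˢ Y, Wt (g (i, q)) + X * #Y * (2 * (X * Y1)) := by
    intro i _
    set F : ℕ → ℂ := fun n => χ (z i + (n : ZMod p)) *
      (starRingEnd ℂ) (χ (z' i + (n : ZMod p))) with hF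
    have hF1 : ∀ n, ‖F n‖ ≤ 1 := fun n => norm_gram χ _ _
    set Sg := ∑ n ∈ range M, F n with hSg
    have h1 : ∀ y ∈ Y, ∀ x ∈ range X, ‖Sg - ∑ n ∈ range M, F (n + x * y)‖ ≤ 2 * (X * Y1) := by
      intro y hy x hx
      refine (shift_one F hF1 M (x * y)).trans ?_
      rw [mem_range] at hx
      have h2 : x * y ≤ X * Y1 := Nat.mul_le_mul hx.le (hY y hy).2
      have h3 : ((x * y : ℕ) : ℝ) ≤ X * Y1 := by exact_mod_cast h2
      linarith
    have h2 : ‖∑ y ∈ Y, ∑ x ∈ range X, (Sg - ∑ n ∈ range M, F (n + x * y))‖ ≤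
        X * #Y * (2 * (X * Y1)) := by
      refine (norm_sum_le _ _).trans ?_
      have h3 : ∀ y ∈ Y, ‖∑ x ∈ range X, (Sg - ∑ n ∈ range M, F (n + x * y))‖ ≤
          X * (2 * (X * Y1)) := by
        intro y hy
        refine (norm_sum_le _ _).trans ((sum_le_sum (h1 y hy)).trans ?_)
        rw [sum_const, card_range, nsmul_eq_mul]
      refine (sum_le_sum h3).trans ?_
      rw [sum_const, nsmul_eq_mul]
      exact le_of_eq (by ring)
    have h4 : ∑ y ∈ Y, ∑ x ∈ range X, (Sg - ∑ n ∈ range M, F (n + x * y)) =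
        (X * #Y : ℂ) * Sg - ∑ q ∈ range M ×ˢ Y, ∑ x ∈ range X, F (q.1 + x * q.2) := by
      rw [sum_product_right]
      simp only [sum_sub_distrib, sum_const, card_range, nsmul_eq_mul]
      congr 1
      · ring
      · refine sum_congr rfl fun m _ => ?_
        rw [sum_comm]
    have h5 : ‖∑ q ∈ range M ×ˢ Y, ∑ x ∈ range X, F (q.1 + x * q.2)‖ ≤
        ∑ q ∈ range M ×ˢ Y, Wt (g (i, q)) := by
      refine (norm_sum_le _ _).trans (sum_le_sum fun q hq => ?_)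
      rw [mem_product] at hq
      have hy := hne _ hq.2
      rw [hWt, KK_iv χ X hXp]
      refine le_of_eq ?_
      congr 1
      refine sum_congr rfl fun x _ => ?_
      simp only [hF, hg]
      have hcr := char_ratio χ (q.2 : ZMod p) ((z i + (q.1 : ZMod p)) / (q.2 : ZMod p) + (x : ZMod p))
        ((z' i + (q.1 : ZMod p)) / (q.2 : ZMod p) + (x : ZMod p)) hy
      rw [← hcr]
      have e1 : z i + (((q.1 + x * q.2 : ℕ) : ZMod p)) =
          (q.2 : ZMod p) * ((z i + (q.1 : ZMod p)) / (q.2 : ZMod p) + (x : ZMod p)) := by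
        rw [mul_add, mul_div_cancel₀ _ hy]
        push_cast
        ring
      have e2 : z' i + (((q.1 + x * q.2 : ℕ) : ZMod p)) =
          (q.2 : ZMod p) * ((z' i + (q.1 : ZMod p)) / (q.2 : ZMod p) + (x : ZMod p)) := by
        rw [mul_add, mul_div_cancel₀ _ hy]
        push_cast
        ring
      rw [e1, e2]
    rw [h4] at h2
    have h8 : ‖(X * #Y : ℂ) * Sg‖ = (X * #Y : ℝ) * ‖Sg‖ := by
      rw [norm_mul, norm_mul, Complex.norm_natCast, Complex.norm_natCast]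
    rw [← h8]
    set R := ∑ q ∈ range M ×ˢ Y, ∑ x ∈ range X, F (q.1 + x * q.2)
    calc ‖(X * #Y : ℂ) * Sg‖ = ‖((X * #Y : ℂ) * Sg - R) + R‖ := by rw [sub_add_cancel]
      _ ≤ _ := norm_add_le _ _
      _ ≤ _ := by linarith
  have hall : (X * #Y : ℝ) * ∑ i ∈ S, ‖∑ n ∈ range M, χ (z i + (n : ZMod p)) *
      (starRingEnd ℂ) (χ (z' i + (n : ZMod p)))‖ ≤
      Q + (#S : ℝ) * (X * #Y * (2 * (X * Y1))) := by
    rw [mul_sum]
    refine (sum_le_sum hone).trans ?_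
    rw [sum_add_distrib, sum_const, nsmul_eq_mul, hQ, hSS, sum_product (s := S)]
  -- Hoelder
  have hW0 : ∀ t, 0 ≤ Wt t := fun t => norm_nonneg _
  have hH := holder SS univ g (fun q _ => mem_univ _) Wt hW0 k hk
  have hcoin : (#((SS ×ˢ SS).filter fun q => g q.1 = g q.2) : ℝ) ≤ N2P S z z' M Y := by
    unfold N2P
    rw [← hSS]
    have : ((SS ×ˢ SS).filter fun q => g q.1 = g q.2) ⊆ ((SS ×ˢ SS).filter fun q =>
        (q.2.2.2 : ZMod p) * (z q.1.1 + (q.1.2.1 : ZMod p)) =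
          (q.1.2.2 : ZMod p) * (z q.2.1 + (q.2.2.1 : ZMod p)) ∧
        (q.2.2.2 : ZMod p) * (z' q.1.1 + (q.1.2.1 : ZMod p)) =
          (q.1.2.2 : ZMod p) * (z' q.2.1 + (q.2.2.1 : ZMod p))) := by
      intro q hq
      rw [mem_filter] at hq ⊢
      refine ⟨hq.1, ?_⟩
      have h1 := hq.1
      rw [hSS] at h1
      simp only [mem_product] at h1
      have a1 := hne _ h1.1.2.2
      have a2 := hne _ h1.2.2.2
      have h2 := (Prod.mk.injEq _ _ _ _ ▸ hq.2 : _ ∧ _)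
      obtain ⟨h3, h4⟩ := h2
      rw [div_eq_div_iff a1 a2] at h3 h4
      exact ⟨by rw [mul_comm, h3, mul_comm], by rw [mul_comm, h4, mul_comm]⟩
    exact_mod_cast card_le_card this
  have hmom := hmom0 p χ hχ ((range X).image fun n : ℕ => (n : ZMod p))
  rw [card_iv X hXp, ← hWt] at hmom
  have hmom2 : ∑ t : ZMod p × ZMod p, Wt t ^ (2 * k) ≤ 2 * C₀ * (X : ℝ) ^ (2 * k) * p := by
    refine hmom.trans ?_
    have h1 : (p : ℝ) ≤ (X : ℝ) ^ k := by exact_mod_cast hXk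
    have h2 : (X : ℝ) ^ k * (p : ℝ) ^ 2 ≤ (X : ℝ) ^ (2 * k) * p := by
      calc (X : ℝ) ^ k * (p : ℝ) ^ 2 = ((X : ℝ) ^ k * p) * p := by ring
        _ ≤ ((X : ℝ) ^ k * (X : ℝ) ^ k) * p :=
            mul_le_mul_of_nonneg_right (mul_le_mul_of_nonneg_left h1 (by positivity)) hp0.le
        _ = (X : ℝ) ^ (2 * k) * p := by rw [two_mul, pow_add]
    calc C₀ * ((X : ℝ) ^ k * (p : ℝ) ^ 2 + (X : ℝ) ^ (2 * k) * p)
        ≤ C₀ * ((X : ℝ) ^ (2 * k) * p + (X : ℝ) ^ (2 * k) * p) :=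
          mul_le_mul_of_nonneg_left (by linarith) hC₀
      _ = _ := by ring
  have hQ2 : Q ^ (2 * k) ≤ (X * ρ * #SS) ^ (2 * k) := by
    refine hH.trans ?_
    calc (#SS : ℝ) ^ (2 * (k - 1)) * (#((SS ×ˢ SS).filter fun q => g q.1 = g q.2) : ℝ) *
          ∑ t : ZMod p × ZMod p, Wt t ^ (2 * k)
        ≤ (#SS : ℝ) ^ (2 * (k - 1)) * (N2P S z z' M Y : ℝ) *
          (2 * C₀ * (X : ℝ) ^ (2 * k) * p) := by
          apply mul_le_mul _ hmom2 (sum_nonneg fun t _ => pow_nonneg (hW0 t) _) (by positivity)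
          exact mul_le_mul_of_nonneg_left hcoin (by positivity)
      _ = (#SS : ℝ) ^ (2 * (k - 1)) * (X : ℝ) ^ (2 * k) *
          (2 * C₀ * (N2P S z z' M Y : ℝ) * p) := by ring
      _ ≤ (#SS : ℝ) ^ (2 * (k - 1)) * (X : ℝ) ^ (2 * k) * (ρ ^ (2 * k) * (#SS : ℝ) ^ 2) := by
          rw [hcardSS]
          apply mul_le_mul_of_nonneg_left _ (by positivity)
          exact hb
      _ = (X * ρ * #SS) ^ (2 * k) := by
          have e : 2 * k = 2 * (k - 1) + 2 := by omega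
          rw [mul_pow, mul_pow]
          have e2 : (#SS : ℝ) ^ (2 * k) = (#SS : ℝ) ^ (2 * (k - 1)) * (#SS : ℝ) ^ 2 := by
            rw [← pow_add]
            congr 1
          rw [e2]
          ring
  have hQ3 : Q ≤ X * ρ * #SS := le_of_pow_le_pow_left₀ (by omega) (by positivity) hQ2
  rw [hcardSS] at hQ3
  have hfin : (X * #Y : ℝ) * ∑ i ∈ S, ‖∑ n ∈ range M, χ (z i + (n : ZMod p)) *
      (starRingEnd ℂ) (χ (z' i + (n : ZMod p)))‖ ≤
      (X * #Y : ℝ) * ((#S : ℝ) * (M * ρ + 2 * X * Y1)) := by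
    refine hall.trans ?_
    have e : (X * #Y : ℝ) * ((#S : ℝ) * (M * ρ + 2 * X * Y1)) =
        X * ρ * ((#S : ℝ) * M * #Y) + (#S : ℝ) * (X * #Y * (2 * (X * Y1))) := by
      ring
    rw [e]
    linarith
  exact le_of_mul_le_mul_left hfin (by positivity)

end MPcb27.TW
end
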