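import Pool.Agent.Lib.MP_cb27ba_nt.TW.Spec
import Pool.Agent.Lib.MP_cb27ba_nt.TS.MM

/-!
# MP_cb27ba_nt, project TW: module MOM2 (the two-parameter moment)
-/

set_option autoImplicit false
set_option linter.unusedSectionVars false

namespace MPcb27.TW.MOM2

open Finset MPcb27 MPcb27.Mom

/-- the complete sum -/
noncomputable def W2 {p : ℕ} [Fact p.Prime] {I : Type} [Fintype I] {m : ℕ}
    (θ : I → MulChar (ZMod p) ℂ) (e : Fin m → ZMod p) (t : I → Fin m) : ℂ :=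
  ∑ u : ZMod p, ∏ i, θ i (u + e (t i))

lemma W2_triv {p : ℕ} [Fact p.Prime] {I : Type} [Fintype I] {m : ℕ}
    (θ : I → MulChar (ZMod p) ℂ) (e : Fin m → ZMod p) (t : I → Fin m) : ‖W2 θ e t‖ ≤ p := by
  refine (norm_sum_le _ _).trans ?_
  refine (Finset.sum_le_card_nsmul _ _ 1 ?_).trans ?_
  · intro u _
    rw [norm_prod]
    exact Finset.prod_le_one (fun _ _ => norm_nonneg _) (fun i _ => norm_char _ _)
  · simp [ZMod.card]

lemma W2_weil (hW : SpecWeil) {p : ℕ} [Fact p.Prime] {I : Type} [Fintype I] [DecidableEq I] {m : ℕ}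
    (θ : I → MulChar (ZMod p) ℂ) (hθ : ∀ i, θ i ≠ 1) (e : Fin m → ZMod p)
    (he : Function.Injective e) (t : I → Fin m) (ht : ¬ Bad t) :
    ‖W2 θ e t‖ ≤ Fintype.card I * Real.sqrt p := by
  classical
  simp only [Bad] at ht
  push Not at ht
  obtain ⟨i, hi⟩ := ht
  refine MPcb27.TS.MM.weil_total hW (fun i => e (t i)) θ (e (t i)) ?_
  have h3 : univ.filter (fun j => e (t j) = e (t i)) = {i} := by
    ext j
    simp only [Finset.mem_filter, Finset.mem_univ, true_and, Finset.mem_singleton]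
    constructor
    · intro h
      by_contra hne
      exact hi j hne (he h)
    · rintro rfl; rfl
  rw [h3, Finset.prod_singleton]
  exact hθ i

theorem main (hW : SpecWeil) : SpecMOM2 := by
  classical
  intro r hr
  refine ⟨(r : ℝ) ^ (2 * r) + (2 * r) ^ 2, by positivity, ?_⟩
  intro p _ χ hχ C
  have hp := (Fact.out : p.Prime)
  have hp0 : (0 : ℝ) < p := by exact_mod_cast hp.pos
  obtain ⟨m, hm⟩ : ∃ m, m = #C := ⟨_, rfl⟩
  obtain ⟨e, he, hsum⟩ : ∃ e : Fin m → ZMod p, Function.Injective e ∧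
      ∀ f : ZMod p → ℂ, ∑ c ∈ C, f c = ∑ x : Fin m, f (e x) := by
    refine ⟨fun x => (C.equivFin.symm (Fin.cast hm x) : ZMod p), ?_, ?_⟩
    · intro x y hxy
      have h1 := Subtype.ext hxy
      have h2 := C.equivFin.symm.injective h1
      exact Fin.cast_injective _ h2
    · intro f
      rw [← Finset.sum_coe_sort C f]
      symm
      refine Fintype.sum_equiv ((finCongr hm).trans C.equivFin.symm) _ _ fun x => ?_
      rfl
  let I := Fin r ⊕ Fin r
  have hI : Fintype.card I = 2 * r := by simp [I, two_mul]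
  let θ : I → MulChar (ZMod p) ℂ := Sum.elim (fun _ => χ) (fun _ => χ⁻¹)
  have hθ : ∀ i, θ i ≠ 1 := by
    rintro (i | i)
    · exact hχ
    · exact inv_ne_one.2 hχ
  have hconj : ∀ (ψ : MulChar (ZMod p) ℂ) (a : ZMod p), (starRingEnd ℂ) (ψ a) = ψ⁻¹ a :=
    fun ψ a => MulChar.star_apply' ψ a
  let f : ZMod p → ZMod p → ℂ := fun u w => ∑ c ∈ C, χ (u + c) * (starRingEnd ℂ) (χ (w + c))
  have h1 : ∀ u w, ((‖f u w‖ ^ (2 * r) : ℝ) : ℂ) =
      ∑ t : I → Fin m, (∏ i, θ i (u + e (t i))) * ∏ i, (θ i)⁻¹ (w + e (t i)) := by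
    intro u w
    have h2 : ((‖f u w‖ ^ (2 * r) : ℝ) : ℂ) = f u w ^ r * (starRingEnd ℂ (f u w)) ^ r := by
      rw [← mul_pow, Complex.mul_conj, Complex.normSq_eq_norm_sq, pow_mul]
      push_cast
      rfl
    have h3 : ∀ i : I, (∑ x : Fin m, θ i (u + e x) * (θ i)⁻¹ (w + e x)) =
        Sum.elim (fun _ => f u w) (fun _ => starRingEnd ℂ (f u w)) i := by
      rintro (i | i)
      · simp only [Sum.elim_inl, θ, f]
        rw [hsum]
        refine Finset.sum_congr rfl fun x _ => ?_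
        rw [hconj]
      · simp only [Sum.elim_inr, θ, f]
        rw [hsum, map_sum]
        refine Finset.sum_congr rfl fun x _ => ?_
        rw [map_mul, hconj, hconj, hconj]
    have h4 : f u w ^ r * (starRingEnd ℂ (f u w)) ^ r =
        ∏ i : I, ∑ x : Fin m, θ i (u + e x) * (θ i)⁻¹ (w + e x) := by
      rw [Finset.prod_congr rfl (fun i _ => h3 i), Fintype.prod_sum_type]
      simp
    rw [h2, h4, Finset.prod_univ_sum, Fintype.piFinset_univ]
    refine Finset.sum_congr rfl fun t _ => ?_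
    rw [Finset.prod_mul_distrib]
  have hstar : ∀ t : I → Fin m, ∑ w : ZMod p, ∏ i, (θ i)⁻¹ (w + e (t i)) =
      (starRingEnd ℂ) (W2 θ e t) := by
    intro t
    rw [W2, map_sum]
    refine Finset.sum_congr rfl fun w _ => ?_
    rw [map_prod]
    refine Finset.prod_congr rfl fun i _ => ?_
    rw [hconj]
  have h5 : ((∑ q : ZMod p × ZMod p, ‖f q.1 q.2‖ ^ (2 * r) : ℝ) : ℂ) =
      ∑ t : I → Fin m, ((‖W2 θ e t‖ ^ 2 : ℝ) : ℂ) := by
    have h6 : ((∑ q : ZMod p × ZMod p, ‖f q.1 q.2‖ ^ (2 * r) : ℝ) : ℂ) =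
        ∑ u : ZMod p, ∑ w : ZMod p, ((‖f u w‖ ^ (2 * r) : ℝ) : ℂ) := by
      rw [Fintype.sum_prod_type]
      push_cast
      rfl
    rw [h6]
    have h7 : ∀ u : ZMod p, ∑ w : ZMod p, ((‖f u w‖ ^ (2 * r) : ℝ) : ℂ) =
        ∑ t : I → Fin m, (∏ i, θ i (u + e (t i))) * (starRingEnd ℂ) (W2 θ e t) := by
      intro u
      rw [Finset.sum_congr rfl (fun w _ => h1 u w), Finset.sum_comm]
      refine Finset.sum_congr rfl fun t _ => ?_
      rw [← Finset.mul_sum, hstar]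
    rw [Finset.sum_congr rfl (fun u _ => h7 u), Finset.sum_comm]
    refine Finset.sum_congr rfl fun t _ => ?_
    rw [← Finset.sum_mul]
    have h8 : ∑ u : ZMod p, ∏ i, θ i (u + e (t i)) = W2 θ e t := rfl
    rw [h8, Complex.mul_conj, Complex.normSq_eq_norm_sq]
  have h7 : ∑ q : ZMod p × ZMod p, ‖f q.1 q.2‖ ^ (2 * r) = ∑ t : I → Fin m, ‖W2 θ e t‖ ^ 2 := by
    exact_mod_cast h5
  have h8 : ∑ q : ZMod p × ZMod p, KK χ C q ^ (2 * r) = ∑ t : I → Fin m, ‖W2 θ e t‖ ^ 2 := by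
    rw [← h7]
    rfl
  rw [h8, ← Finset.sum_filter_add_sum_filter_not univ (fun t : I → Fin m => Bad t), ← hm]
  have h9 : ∑ t ∈ univ.filter (fun t : I → Fin m => Bad t), ‖W2 θ e t‖ ^ 2 ≤
      ((m : ℝ) ^ r * (r : ℝ) ^ (2 * r)) * (p : ℝ) ^ 2 := by
    refine (Finset.sum_le_card_nsmul _ _ ((p : ℝ) ^ 2) (fun t _ =>
      pow_le_pow_left₀ (norm_nonneg _) (W2_triv θ e t) 2)).trans ?_
    rw [nsmul_eq_mul]
    refine mul_le_mul_of_nonneg_right ?_ (by positivity)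
    exact_mod_cast card_bad hI hr
  have h10 : ∑ t ∈ univ.filter (fun t : I → Fin m => ¬ Bad t), ‖W2 θ e t‖ ^ 2 ≤
      ((m : ℝ) ^ (2 * r)) * ((2 * r) ^ 2 * p) := by
    refine (Finset.sum_le_card_nsmul _ _ ((2 * (r : ℝ)) ^ 2 * p) (fun t ht => ?_)).trans ?_
    · have h11 := W2_weil hW θ hθ e he t (Finset.mem_filter.1 ht).2
      rw [hI] at h11
      push_cast at h11
      calc ‖W2 θ e t‖ ^ 2 ≤ (2 * r * Real.sqrt p) ^ 2 := pow_le_pow_left₀ (norm_nonneg _) h11 2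
        _ = (2 * r) ^ 2 * p := by rw [mul_pow, Real.sq_sqrt hp0.le]
    · rw [nsmul_eq_mul]
      refine mul_le_mul_of_nonneg_right ?_ (by positivity)
      have h11 : #(univ.filter (fun t : I → Fin m => ¬ Bad t)) ≤ m ^ (2 * r) := by
        refine (Finset.card_filter_le _ _).trans ?_
        rw [Finset.card_univ, Fintype.card_fun, hI, Fintype.card_fin]
      exact_mod_cast h11
  have h12 : 0 ≤ (m : ℝ) ^ r * (p : ℝ) ^ 2 := by positivity
  have h13 : 0 ≤ (m : ℝ) ^ (2 * r) * p := by positivity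
  have h14 : 0 ≤ (r : ℝ) ^ (2 * r) := by positivity
  have h15 : 0 ≤ (2 * (r : ℝ)) ^ 2 := by positivity
  have h16 := mul_nonneg h14 h13
  have h17 := mul_nonneg h15 h12
  calc _ ≤ ((m : ℝ) ^ r * (r : ℝ) ^ (2 * r)) * (p : ℝ) ^ 2 +
        ((m : ℝ) ^ (2 * r)) * ((2 * r) ^ 2 * p) := add_le_add h9 h10
    _ ≤ ((m : ℝ) ^ r * (r : ℝ) ^ (2 * r)) * (p : ℝ) ^ 2 +
        ((m : ℝ) ^ (2 * r)) * ((2 * r) ^ 2 * p) + ((r : ℝ) ^ (2 * r) * ((m : ℝ) ^ (2 * r) * p) +
          (2 * (r : ℝ)) ^ 2 * ((m : ℝ) ^ r * (p : ℝ) ^ 2)) := by linarith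
    _ = _ := by ring

end MPcb27.TW.MOM2

namespace MPcb27.TW

/-- module MOM2 -/
theorem specMOM2 (hW : MPcb27.SpecWeil) : SpecMOM2 := MOM2.main hW

end MPcb27.TW
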