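import Pool.Agent.Lib.MP_cb27ba_nt.TG.SM
import Pool.Agent.Lib.MP_cb27ba_nt.TW.Spec
import Pool.Agent.Lib.MP_cb27ba_nt.TW.Spec2

section
/-!
# MP_cb27ba_nt, project TW: module CW, the count

`d'` is determined by the other variables, hence `N2W ≤ #B N2`; then `TG.specSM`.
-/
set_option autoImplicit false

open Finset

namespace MPcb27.TW

theorem N2W_le {p : ℕ} [Fact p.Prime] (B : Finset (ZMod p)) (H : ℕ) (Y : Finset ℕ)
    (hY : ∀ y ∈ Y, (y : ZMod p) ≠ 0) :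
    N2W B H Y ≤ TG.N2 B (fun b => -b) H Y * #B := by
  classical
  unfold N2W TG.N2
  rw [← card_product]
  apply card_le_card_of_injOn
    (fun q => (((q.1.1.1, q.1.2.1, q.1.2.2), (q.2.1.1, q.2.2.1, q.2.2.2)), q.1.1.2))
  · intro q hq
    rw [mem_coe, mem_filter] at hq
    simp only [mem_product] at hq
    obtain ⟨⟨⟨⟨h1, h2⟩, h3, h4⟩, ⟨h5, h6⟩, h7, h8⟩, h9, h10⟩ := hq
    rw [mem_coe, mem_product, mem_filter]
    simp only [mem_product]
    refine ⟨⟨⟨⟨h1, h3, h4⟩, h5, h7, h8⟩, ?_⟩, h2⟩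
    linear_combination h9
  · intro q hq q' hq' h
    rw [mem_coe, mem_filter] at hq hq'
    simp only [mem_product] at hq hq'
    obtain ⟨⟨⟨⟨h1, h2⟩, h3, h4⟩, ⟨h5, h6⟩, h7, h8⟩, h9, h10⟩ := hq
    obtain ⟨⟨⟨⟨g1, g2⟩, g3, g4⟩, ⟨g5, g6⟩, g7, g8⟩, g9, g10⟩ := hq'
    simp only [Prod.mk.injEq] at h
    obtain ⟨⟨⟨e1, e2, e3⟩, e4, e5, e6⟩, e7⟩ := h
    have e8 : q.2.1.2 = q'.2.1.2 := by
      have k1 : (q.1.2.2 : ZMod p) * q.2.1.2 = (q.1.2.2 : ZMod p) * q'.2.1.2 := by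
        rw [← e2, ← e3, ← e5, ← e6, ← e7] at g10
        linear_combination h10 - g10
      exact mul_left_cancel₀ (hY _ h4) k1
    ext
    · exact e1
    · exact e7
    · exact e2
    · exact e3
    · exact e4
    · exact e8
    · exact e5
    · exact e6

/-- **CW** -/
theorem specCW : SpecCW := by
  classical
  intro p _ B H Y0 Y1 c Y hY hY0 hY0H hY01 hc hHp hpc
  have hpp : p.Prime := Fact.out
  have hYp : Y1 < p := by
    have : Y1 * 1 ≤ Y1 * H := Nat.mul_le_mul_left _ (by omega)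
    nlinarith
  have hne : ∀ y ∈ Y, ((y : ℕ) : ZMod p) ≠ 0 := by
    intro y hy h
    rw [ZMod.natCast_eq_zero_iff] at h
    have h1 := Nat.le_of_dvd (hY y hy).1.pos h
    have h2 := (hY y hy).2.2
    omega
  have hE0 : TG.E0 B (fun b : ZMod p => -b) = #B := by
    unfold TG.E0
    have h1 : ((B ×ˢ B).filter fun q : ZMod p × ZMod p => -q.1 = -q.2) =
        B.image (fun b => (b, b)) := by
      ext q
      rw [mem_filter, mem_product, mem_image]
      constructor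
      · rintro ⟨⟨h1, h2⟩, h3⟩
        exact ⟨q.1, h1, Prod.ext rfl (neg_injective h3)⟩
      · rintro ⟨b, hb, rfl⟩
        exact ⟨⟨hb, hb⟩, rfl⟩
    rw [h1, card_image_of_injective]
    intro a b hab
    exact (Prod.mk.injEq _ _ _ _ ▸ hab : a = b ∧ a = b).1
  have h1 := TG.specSM p (ZMod p) B (fun b => -b) H Y0 Y1 c Y hY hY0 hY0H hY01 hc
    (by linarith) hpc
  rw [hE0] at h1
  have h2 : (N2W B H Y : ℝ) ≤ (TG.N2 B (fun b => -b) H Y : ℝ) * #B := by
    exact_mod_cast N2W_le B H Y hne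
  refine h2.trans ((mul_le_mul_of_nonneg_right h1 (Nat.cast_nonneg _)).trans (le_of_eq ?_))
  ring

end MPcb27.TW
end

section
/-!
# MP_cb27ba_nt, project TW: second moment with a second variable

For `r : ZMod p → ZMod p → ℝ≥0` and `ν(w, u) = ∑_{y, n < N} r(w y)(u y - n)`:
`∑ ν² ≤ 65 (Y1/Y0) m N² |PY| ∑ r² + 64 (N² Y1 / (Y0 p)) |PY|² ∑_v (∑_s r v s)²`.
-/
set_option autoImplicit false

open Finset ZMod

namespace MPcb27.TW

open MPcb27.TG (ft parseval sum_fib fejer_low mult norm_sq_sum conj_add cnt_le small_of_cnt diag)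

variable {p : ℕ} [Fact p.Prime]

/-- the correlation of two dilates -/
theorem corr2 (r r' : ZMod p → ℝ) (N : ℕ) (y y' : ZMod p) (hy : y ≠ 0) :
    ∑ u, (∑ n ∈ range N, r (u * y - (n : ZMod p))) * (∑ n' ∈ range N, r' (u * y' - (n' : ZMod p))) =
    ∑ s, ∑ s', r s * r' s' * (#((range N ×ˢ range N).filter fun q =>
      (s + (q.1 : ZMod p)) * y' = (s' + (q.2 : ZMod p)) * y) : ℝ) := by
  classical
  have h1 : ∀ s s' : ZMod p, r s * r' s' * (#((range N ×ˢ range N).filter fun q =>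
      (s + (q.1 : ZMod p)) * y' = (s' + (q.2 : ZMod p)) * y) : ℝ) =
      ∑ n ∈ range N, ∑ n' ∈ range N,
        if (s + (n : ZMod p)) * y' = (s' + (n' : ZMod p)) * y then r s * r' s' else 0 := by
    intro s s'
    rw [card_filter]
    push_cast
    rw [mul_sum, sum_product]
    refine sum_congr rfl fun n _ => sum_congr rfl fun n' _ => ?_
    split_ifs <;> ring
  have h2 : ∑ s, ∑ s', r s * r' s' * (#((range N ×ˢ range N).filter fun q =>
      (s + (q.1 : ZMod p)) * y' = (s' + (q.2 : ZMod p)) * y) : ℝ) =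
      ∑ n ∈ range N, ∑ n' ∈ range N, ∑ s, ∑ s',
        if (s + (n : ZMod p)) * y' = (s' + (n' : ZMod p)) * y then r s * r' s' else 0 := by
    simp only [h1]
    calc _ = ∑ s, ∑ n ∈ range N, ∑ s', ∑ n' ∈ range N,
        (if (s + (n : ZMod p)) * y' = (s' + (n' : ZMod p)) * y then r s * r' s' else 0) :=
          sum_congr rfl fun s _ => sum_comm
      _ = ∑ n ∈ range N, ∑ s, ∑ s', ∑ n' ∈ range N,
        (if (s + (n : ZMod p)) * y' = (s' + (n' : ZMod p)) * y then r s * r' s' else 0) := sum_comm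
      _ = ∑ n ∈ range N, ∑ s, ∑ n' ∈ range N, ∑ s',
        (if (s + (n : ZMod p)) * y' = (s' + (n' : ZMod p)) * y then r s * r' s' else 0) :=
          sum_congr rfl fun n _ => sum_congr rfl fun s _ => sum_comm
      _ = _ := sum_congr rfl fun n _ => sum_comm
  rw [h2]
  have h3 : ∑ u, (∑ n ∈ range N, r (u * y - (n : ZMod p))) *
      (∑ n' ∈ range N, r' (u * y' - (n' : ZMod p))) =
      ∑ n ∈ range N, ∑ n' ∈ range N, ∑ u, r (u * y - (n : ZMod p)) * r' (u * y' - (n' : ZMod p)) := by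
    simp only [sum_mul_sum]
    rw [sum_comm]
    exact sum_congr rfl fun n _ => sum_comm
  rw [h3]
  refine sum_congr rfl fun n _ => sum_congr rfl fun n' _ => ?_
  have h4 : ∀ s : ZMod p, ∑ s', (if (s + (n : ZMod p)) * y' = (s' + (n' : ZMod p)) * y
      then r s * r' s' else 0) = r s * r' ((s + (n : ZMod p)) * y' / y - (n' : ZMod p)) := by
    intro s
    have h5 : ∀ s' : ZMod p, (s + (n : ZMod p)) * y' = (s' + (n' : ZMod p)) * y ↔
        s' = (s + (n : ZMod p)) * y' / y - (n' : ZMod p) := by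
      intro s'
      rw [eq_sub_iff_add_eq, eq_div_iff hy]
      exact eq_comm
    simp only [h5]
    rw [sum_ite_eq' univ]
    simp
  simp only [h4]
  symm
  have hbij : Function.Bijective (fun u : ZMod p => u * y - (n : ZMod p)) := by
    refine ⟨fun a b hab => ?_, fun b => ⟨(b + n) / y, ?_⟩⟩
    · exact mul_right_cancel₀ hy (sub_left_injective hab)
    · show (b + n) / y * y - (n : ZMod p) = b
      rw [div_mul_cancel₀ _ hy, add_sub_cancel_right]
  rw [← hbij.sum_comp]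
  refine sum_congr rfl fun u _ => ?_
  have e : (u * y - (n : ZMod p) + n) * y' / y - (n' : ZMod p) = u * y' - (n' : ZMod p) := by
    rw [sub_add_cancel]
    congr 1
    field_simp
  rw [e]

/-- dilation -/
theorem sum_dil {M : Type*} [AddCommMonoid M] (f : ZMod p → M) {c : ZMod p} (hc : c ≠ 0) :
    ∑ w, f (w * c) = ∑ w, f w := by
  have hbij : Function.Bijective (fun w : ZMod p => w * c) := by
    refine ⟨fun a b hab => mul_right_cancel₀ hc hab, fun b => ⟨b / c, ?_⟩⟩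
    exact div_mul_cancel₀ _ hc
  exact hbij.sum_comp f

/-- dilation -/
theorem sum_div {M : Type*} [AddCommMonoid M] (f : ZMod p → M) {c : ZMod p} (hc : c ≠ 0) :
    ∑ w, f (w / c) = ∑ w, f w := by
  rw [← sum_dil (fun w => f (w / c)) hc]
  refine sum_congr rfl fun w _ => ?_
  rw [mul_div_cancel_right₀ _ hc]

/-- expansion of the Fejer sum, for a family -/
theorem expandF (R : ℕ → ZMod p → ℝ) (PY : Finset ℕ) (T : ℕ) :
    ∑ y ∈ PY, ∑ y' ∈ PY, ∑ s, ∑ s', R y' s * R y s' *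
      ‖∑ t ∈ range T, (stdAddChar ((t : ZMod p) * (s * (y' : ZMod p) - s' * (y : ZMod p))) : ℂ)‖ ^ 2
      = ∑ t ∈ range T, ∑ t' ∈ range T,
        ‖∑ y ∈ PY, ft (R y) (((t : ZMod p) - (t' : ZMod p)) * (y : ZMod p))‖ ^ 2 := by
  have move : ∀ (G : ℕ → ℕ → ZMod p → ZMod p → ℕ → ℂ),
      ∑ y ∈ PY, ∑ y' ∈ PY, ∑ s, ∑ s', ∑ t ∈ range T, G y y' s s' t =
      ∑ t ∈ range T, ∑ y ∈ PY, ∑ y' ∈ PY, ∑ s, ∑ s', G y y' s s' t := by
    intro G
    calc _ = ∑ y ∈ PY, ∑ y' ∈ PY, ∑ s, ∑ t ∈ range T, ∑ s', G y y' s s' t :=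
          sum_congr rfl fun y _ => sum_congr rfl fun y' _ => sum_congr rfl fun s _ => sum_comm
      _ = ∑ y ∈ PY, ∑ y' ∈ PY, ∑ t ∈ range T, ∑ s, ∑ s', G y y' s s' t :=
          sum_congr rfl fun y _ => sum_congr rfl fun y' _ => sum_comm
      _ = ∑ y ∈ PY, ∑ t ∈ range T, ∑ y' ∈ PY, ∑ s, ∑ s', G y y' s s' t :=
          sum_congr rfl fun y _ => sum_comm
      _ = _ := sum_comm
  have key : ((∑ y ∈ PY, ∑ y' ∈ PY, ∑ s, ∑ s', R y' s * R y s' *
      ‖∑ t ∈ range T, (stdAddChar ((t : ZMod p) * (s * (y' : ZMod p) - s' * (y : ZMod p))) : ℂ)‖ ^ 2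
      : ℝ) : ℂ) = ((∑ t ∈ range T, ∑ t' ∈ range T,
        ‖∑ y ∈ PY, ft (R y) (((t : ZMod p) - (t' : ZMod p)) * (y : ZMod p))‖ ^ 2 : ℝ) : ℂ) := by
    push_cast
    have h1 : ∀ y y' : ℕ, ∀ s s' : ZMod p, (R y' s : ℂ) * (R y s' : ℂ) *
        (‖∑ t ∈ range T, (stdAddChar ((t : ZMod p) * (s * (y' : ZMod p) - s' * (y : ZMod p))) : ℂ)‖
          : ℂ) ^ 2 = ∑ t ∈ range T, ∑ t' ∈ range T, (R y' s : ℂ) * (R y s' : ℂ) *
          (stdAddChar (((t : ZMod p) - (t' : ZMod p)) * (y' : ZMod p) * s) *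
            stdAddChar (-(((t : ZMod p) - (t' : ZMod p)) * (y : ZMod p) * s'))) := by
      intro y y' s s'
      rw [norm_sq_sum, mul_sum]
      refine sum_congr rfl fun t _ => ?_
      rw [mul_sum]
      refine sum_congr rfl fun t' _ => ?_
      rw [conj_add, ← AddChar.map_add_eq_mul, ← AddChar.map_add_eq_mul]
      congr 2
      ring
    simp only [h1]
    rw [move]
    refine sum_congr rfl fun t _ => ?_
    rw [move]
    refine sum_congr rfl fun t' _ => ?_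
    rw [norm_sq_sum]
    -- fixed `t, t'`
    rw [sum_comm]
    refine sum_congr rfl fun y' _ => ?_
    refine sum_congr rfl fun y _ => ?_
    unfold ft
    rw [map_sum, sum_mul_sum]
    refine sum_congr rfl fun s _ => ?_
    refine sum_congr rfl fun s' _ => ?_
    rw [map_mul (starRingEnd ℂ), Complex.conj_ofReal, conj_add]
    ring
  exact_mod_cast key

/-- expansion of the Fejer sum -/
theorem expand2 (r : ZMod p → ZMod p → ℝ) (PY : Finset ℕ) (hne : ∀ y ∈ PY, ((y : ℕ) : ZMod p) ≠ 0)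
    (T : ℕ) :
    ∑ y ∈ PY, ∑ y' ∈ PY, ∑ w, ∑ s, ∑ s', r (w * (y : ZMod p)) s * r (w * (y' : ZMod p)) s' *
      ‖∑ t ∈ range T, (stdAddChar ((t : ZMod p) * (s * (y' : ZMod p) - s' * (y : ZMod p))) : ℂ)‖ ^ 2
      = ∑ t ∈ range T, ∑ t' ∈ range T, ∑ w,
        ‖∑ y ∈ PY, ft (r (w / (y : ZMod p))) (((t : ZMod p) - (t' : ZMod p)) * (y : ZMod p))‖ ^ 2 := by
  have h1 : ∀ y ∈ PY, ∀ y' ∈ PY, ∑ w, ∑ s, ∑ s', r (w * (y : ZMod p)) s * r (w * (y' : ZMod p)) s' *
      ‖∑ t ∈ range T, (stdAddChar ((t : ZMod p) * (s * (y' : ZMod p) - s' * (y : ZMod p))) : ℂ)‖ ^ 2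
      = ∑ w, ∑ s, ∑ s', r (w / (y' : ZMod p)) s * r (w / (y : ZMod p)) s' *
      ‖∑ t ∈ range T, (stdAddChar ((t : ZMod p) * (s * (y' : ZMod p) - s' * (y : ZMod p))) : ℂ)‖ ^ 2
      := by
    intro y hy y' hy'
    have a1 := hne y hy
    have a2 := hne y' hy'
    rw [← sum_div (fun w => ∑ s, ∑ s', r (w * (y : ZMod p)) s * r (w * (y' : ZMod p)) s' *
      ‖∑ t ∈ range T, (stdAddChar ((t : ZMod p) * (s * (y' : ZMod p) - s' * (y : ZMod p))) : ℂ)‖ ^ 2)
      (mul_ne_zero a1 a2)]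
    refine sum_congr rfl fun w _ => ?_
    have e1 : w / ((y : ZMod p) * (y' : ZMod p)) * (y : ZMod p) = w / (y' : ZMod p) := by
      field_simp
    have e2 : w / ((y : ZMod p) * (y' : ZMod p)) * (y' : ZMod p) = w / (y : ZMod p) := by
      field_simp
    simp only [e1, e2]
  rw [sum_congr rfl fun y hy => sum_congr rfl fun y' hy' => h1 y hy y' hy']
  have h2 : ∑ y ∈ PY, ∑ y' ∈ PY, ∑ w, ∑ s, ∑ s', r (w / (y' : ZMod p)) s * r (w / (y : ZMod p)) s' *
      ‖∑ t ∈ range T, (stdAddChar ((t : ZMod p) * (s * (y' : ZMod p) - s' * (y : ZMod p))) : ℂ)‖ ^ 2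
      = ∑ w, ∑ y ∈ PY, ∑ y' ∈ PY, ∑ s, ∑ s', r (w / (y' : ZMod p)) s * r (w / (y : ZMod p)) s' *
      ‖∑ t ∈ range T, (stdAddChar ((t : ZMod p) * (s * (y' : ZMod p) - s' * (y : ZMod p))) : ℂ)‖ ^ 2
      := by
    rw [sum_congr rfl fun y _ => sum_comm]
    exact sum_comm
  rw [h2]
  have h3 : ∀ w : ZMod p, ∑ y ∈ PY, ∑ y' ∈ PY, ∑ s, ∑ s', r (w / (y' : ZMod p)) s *
      r (w / (y : ZMod p)) s' *
      ‖∑ t ∈ range T, (stdAddChar ((t : ZMod p) * (s * (y' : ZMod p) - s' * (y : ZMod p))) : ℂ)‖ ^ 2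
      = ∑ t ∈ range T, ∑ t' ∈ range T,
        ‖∑ y ∈ PY, ft (r (w / (y : ZMod p))) (((t : ZMod p) - (t' : ZMod p)) * (y : ZMod p))‖ ^ 2 :=
    fun w => expandF (fun y : ℕ => r (w / (y : ZMod p))) PY T
  rw [sum_congr rfl fun w _ => h3 w, sum_comm]
  exact sum_congr rfl fun t _ => sum_comm

theorem fourier_bound2 (r : ZMod p → ZMod p → ℝ) (T Y m : ℕ) (hTY : 2 * (T * Y) < p)
    (PY : Finset ℕ) (hne : ∀ y ∈ PY, ((y : ℕ) : ZMod p) ≠ 0)
    (hPY : ∀ y ∈ PY, y.Prime ∧ y ≤ Y)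
    (hdiv : ∀ n : ℕ, 0 < n → n < p → #(PY.filter (· ∣ n)) ≤ m) :
    ∑ t ∈ range T, ∑ t' ∈ range T, ∑ w,
        ‖∑ y ∈ PY, ft (r (w / (y : ZMod p))) (((t : ZMod p) - (t' : ZMod p)) * (y : ZMod p))‖ ^ 2 ≤
      T * ((#PY : ℝ) ^ 2 * ∑ v, (∑ s, r v s) ^ 2 + #PY * (m * (p * ∑ v, ∑ s, r v s ^ 2))) := by
  rw [sum_comm]
  have h1 : ∀ t' ∈ range T, ∑ t ∈ range T, ∑ w,
        ‖∑ y ∈ PY, ft (r (w / (y : ZMod p))) (((t : ZMod p) - (t' : ZMod p)) * (y : ZMod p))‖ ^ 2 ≤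
      (#PY : ℝ) ^ 2 * ∑ v, (∑ s, r v s) ^ 2 + #PY * (m * (p * ∑ v, ∑ s, r v s ^ 2)) := by
    intro t' ht'
    have cs : ∀ (t : ℕ) (w : ZMod p),
          ‖∑ y ∈ PY, ft (r (w / (y : ZMod p))) (((t : ZMod p) - (t' : ZMod p)) * (y : ZMod p))‖ ^ 2 ≤
          #PY * ∑ y ∈ PY, ‖ft (r (w / (y : ZMod p)))
            (((t : ZMod p) - (t' : ZMod p)) * (y : ZMod p))‖ ^ 2 := by
      intro t w
      refine (pow_le_pow_left₀ (norm_nonneg _) (norm_sum_le _ _) 2).trans ?_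
      exact sq_sum_le_card_mul_sum_sq
    have cs2 : ∀ t : ℕ, ∑ w,
          ‖∑ y ∈ PY, ft (r (w / (y : ZMod p))) (((t : ZMod p) - (t' : ZMod p)) * (y : ZMod p))‖ ^ 2 ≤
          #PY * ∑ y ∈ PY, ∑ v, ‖ft (r v) (((t : ZMod p) - (t' : ZMod p)) * (y : ZMod p))‖ ^ 2 := by
      intro t
      refine (sum_le_sum fun w _ => cs t w).trans ?_
      rw [← mul_sum, sum_comm]
      apply le_of_eq
      congr 1
      refine sum_congr rfl fun y hy => ?_
      exact sum_div (fun v => ‖ft (r v) (((t : ZMod p) - (t' : ZMod p)) * (y : ZMod p))‖ ^ 2) (hne y hy)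
    rw [← add_sum_erase _ _ ht']
    apply add_le_add
    · refine (cs2 t').trans ?_
      have e1 : ∀ (v : ZMod p) (y : ℕ), ft (r v) (((t' : ZMod p) - (t' : ZMod p)) * (y : ZMod p)) =
          ((∑ s, r v s : ℝ) : ℂ) := by
        intro v y
        unfold ft
        rw [sub_self, zero_mul]
        push_cast
        refine sum_congr rfl fun s _ => ?_
        rw [zero_mul, AddChar.map_zero_eq_one, mul_one]
      simp only [e1, Complex.norm_real, Real.norm_eq_abs, sq_abs]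
      rw [sum_const, nsmul_eq_mul]
      exact le_of_eq (by ring)
    · refine (sum_le_sum fun t _ => cs2 t).trans ?_
      rw [← mul_sum]
      apply mul_le_mul_of_nonneg_left _ (Nat.cast_nonneg _)
      have e2 : ∑ t ∈ (range T).erase t', ∑ y ∈ PY, ∑ v,
            ‖ft (r v) (((t : ZMod p) - (t' : ZMod p)) * (y : ZMod p))‖ ^ 2 =
          ∑ v, ∑ t ∈ (range T).erase t', ∑ y ∈ PY,
            ‖ft (r v) (((t : ZMod p) - (t' : ZMod p)) * (y : ZMod p))‖ ^ 2 := by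
        rw [sum_congr rfl fun t _ => sum_comm]
        exact sum_comm
      rw [e2, mul_sum, mul_sum]
      refine sum_le_sum fun v _ => ?_
      rw [← parseval, ← sum_product']
      exact sum_fib (((range T).erase t') ×ˢ PY)
        (fun q => ((q.1 : ZMod p) - (t' : ZMod p)) * (q.2 : ZMod p)) (fun n => ‖ft (r v) n‖ ^ 2)
        (fun _ => by positivity) m (mult T Y m hTY PY hPY hdiv t' (mem_range.mp ht'))
  refine (sum_le_sum h1).trans ?_
  rw [sum_const, card_range, nsmul_eq_mul]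

/-- **the second moment** -/
theorem specSM2 : SpecSM2 := by
  classical
  intro p _ r hr N Y0 Y1 m hY0 hY0N hY01 hp PY hPY hm hdiv
  have hpp : p.Prime := Fact.out
  have hp0 : (0 : ℝ) < p := by exact_mod_cast hpp.pos
  have hN0 : (0 : ℝ) < N := by exact_mod_cast (by omega : 0 < N)
  have hY00 : (0 : ℝ) < Y0 := by exact_mod_cast hY0
  have hY10 : (0 : ℝ) < Y1 := by exact_mod_cast (by omega : 0 < Y1)
  have hNY1 : 1 ≤ N * Y1 := Nat.mul_pos (by omega) (by omega)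
  have hYp : Y1 < p := by
    have : Y1 * 1 ≤ Y1 * N := Nat.mul_le_mul_left _ (by omega)
    nlinarith
  have hne : ∀ y ∈ PY, ((y : ℕ) : ZMod p) ≠ 0 := by
    intro y hy h
    rw [ZMod.natCast_eq_zero_iff] at h
    have h1 := Nat.le_of_dvd (hPY y hy).1.pos h
    have h2 := (hPY y hy).2.2
    omega
  set R2 : ℝ := ∑ v, ∑ s, r v s ^ 2 with hR2
  set R1 : ℝ := (#PY : ℝ) ^ 2 * ∑ v, (∑ s, r v s) ^ 2 with hR1
  have hR20 : 0 ≤ R2 := sum_nonneg fun v _ => sum_nonneg fun s _ => sq_nonneg _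
  have hR10 : 0 ≤ R1 := mul_nonneg (by positivity) (sum_nonneg fun v _ => sq_nonneg _)
  -- the parameter `T`
  set T : ℕ := p / (8 * (N * Y1)) with hT
  have hT1 : 1 ≤ T := (Nat.one_le_div_iff (by omega)).mpr hp
  have hT0 : (0 : ℝ) < T := by exact_mod_cast hT1
  have hTle : 8 * (N * Y1) * T ≤ p := Nat.mul_div_le _ _
  have hTlow : (p : ℝ) ≤ 16 * (N * Y1) * T := by
    have h1 : p < 8 * (N * Y1) * (T + 1) := Nat.lt_mul_div_succ _ (by omega)
    have h2 : (p : ℝ) < 8 * (N * Y1) * (T + 1) := by exact_mod_cast h1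
    have h3 : (1 : ℝ) ≤ T := by exact_mod_cast hT1
    have h4 : (0 : ℝ) < N * Y1 := by positivity
    nlinarith
  -- the weighted count
  set W : ℕ → ℕ → ZMod p → ZMod p → ℝ := fun y y' s s' =>
    ‖∑ t ∈ range T, (stdAddChar ((t : ZMod p) * (s * (y' : ZMod p) - s' * (y : ZMod p))) : ℂ)‖ ^ 2
    with hW
  have hQ : ∑ y ∈ PY, ∑ y' ∈ PY, ∑ w, ∑ s, ∑ s', r (w * (y : ZMod p)) s * r (w * (y' : ZMod p)) s' *
      W y y' s s' ≤ T * (R1 + #PY * (m * (p * R2))) := by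
    rw [hW, expand2 r PY hne]
    refine fourier_bound2 r T Y1 m ?_ PY hne (fun y hy => ⟨(hPY y hy).1, (hPY y hy).2.2⟩) hdiv
    have h1 : 2 * (T * Y1) < 8 * (N * Y1) * T := by
      have h2 : T * Y1 ≤ N * Y1 * T := by
        have : T * Y1 * 1 ≤ T * Y1 * N := Nat.mul_le_mul_left _ (by omega)
        nlinarith
      have h3 : 0 < T * Y1 := Nat.mul_pos hT1 (by omega)
      nlinarith
    omega
  -- expansion of the square
  have hexp : ∑ w : ZMod p, ∑ u : ZMod p,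
        (∑ y ∈ PY, ∑ n ∈ range N, r (w * (y : ZMod p)) (u * (y : ZMod p) - (n : ZMod p))) ^ 2 =
      ∑ y ∈ PY, ∑ y' ∈ PY, ∑ w : ZMod p, ∑ u : ZMod p,
        (∑ n ∈ range N, r (w * (y : ZMod p)) (u * (y : ZMod p) - (n : ZMod p))) *
        (∑ n' ∈ range N, r (w * (y' : ZMod p)) (u * (y' : ZMod p) - (n' : ZMod p))) := by
    have h1 : ∀ w u : ZMod p,
        (∑ y ∈ PY, ∑ n ∈ range N, r (w * (y : ZMod p)) (u * (y : ZMod p) - (n : ZMod p))) ^ 2 =
        ∑ y ∈ PY, ∑ y' ∈ PY,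
        (∑ n ∈ range N, r (w * (y : ZMod p)) (u * (y : ZMod p) - (n : ZMod p))) *
        (∑ n' ∈ range N, r (w * (y' : ZMod p)) (u * (y' : ZMod p) - (n' : ZMod p))) := by
      intro w u
      rw [sq, sum_mul_sum]
    simp only [h1]
    have h2 : ∀ (G : ZMod p → ZMod p → ℕ → ℕ → ℝ),
        ∑ w : ZMod p, ∑ u : ZMod p, ∑ y ∈ PY, ∑ y' ∈ PY, G w u y y' =
        ∑ y ∈ PY, ∑ y' ∈ PY, ∑ w : ZMod p, ∑ u : ZMod p, G w u y y' := by
      intro G
      calc _ = ∑ w : ZMod p, ∑ y ∈ PY, ∑ u : ZMod p, ∑ y' ∈ PY, G w u y y' :=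
            sum_congr rfl fun w _ => sum_comm
        _ = ∑ y ∈ PY, ∑ w : ZMod p, ∑ u : ZMod p, ∑ y' ∈ PY, G w u y y' := sum_comm
        _ = ∑ y ∈ PY, ∑ w : ZMod p, ∑ y' ∈ PY, ∑ u : ZMod p, G w u y y' :=
            sum_congr rfl fun y _ => sum_congr rfl fun w _ => sum_comm
        _ = _ := sum_congr rfl fun y _ => sum_comm
    exact h2 _
  have hterm : ∀ y ∈ PY, ∀ y' ∈ PY, ∑ w : ZMod p, ∑ u : ZMod p,
      (∑ n ∈ range N, r (w * (y : ZMod p)) (u * (y : ZMod p) - (n : ZMod p))) *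
        (∑ n' ∈ range N, r (w * (y' : ZMod p)) (u * (y' : ZMod p) - (n' : ZMod p))) ≤
      (if y = y' then (N : ℝ) ^ 2 * R2 else 0) +
        (2 * N / Y0 * (2 / (T : ℝ) ^ 2)) * ∑ w : ZMod p, ∑ s, ∑ s',
          r (w * (y : ZMod p)) s * r (w * (y' : ZMod p)) s' * W y y' s s' := by
    intro y hy y' hy'
    have hnn : 0 ≤ (2 * N / Y0 * (2 / (T : ℝ) ^ 2)) * ∑ w : ZMod p, ∑ s, ∑ s',
          r (w * (y : ZMod p)) s * r (w * (y' : ZMod p)) s' * W y y' s s' := by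
      refine mul_nonneg (by positivity) (sum_nonneg fun w _ => sum_nonneg fun s _ =>
        sum_nonneg fun s' _ => ?_)
      exact mul_nonneg (mul_nonneg (hr _ s) (hr _ s')) (by positivity)
    by_cases hyy : y = y'
    · subst hyy
      rw [if_pos rfl]
      have e : ∑ w : ZMod p, ∑ u : ZMod p,
          (∑ n ∈ range N, r (w * (y : ZMod p)) (u * (y : ZMod p) - (n : ZMod p))) *
          (∑ n' ∈ range N, r (w * (y : ZMod p)) (u * (y : ZMod p) - (n' : ZMod p))) ≤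
          ∑ w : ZMod p, (N : ℝ) ^ 2 * ∑ s, r (w * (y : ZMod p)) s ^ 2 := by
        refine sum_le_sum fun w _ => ?_
        refine le_trans (le_of_eq (sum_congr rfl fun u _ => (sq _).symm)) ?_
        exact diag (r (w * (y : ZMod p))) N (y : ZMod p) (hne y hy)
      rw [← mul_sum, sum_dil (fun v => ∑ s, r v s ^ 2) (hne y hy), ← hR2] at e
      linarith
    · rw [if_neg hyy, zero_add, mul_sum]
      refine sum_le_sum fun w _ => ?_
      rw [corr2 (r (w * (y : ZMod p))) (r (w * (y' : ZMod p))) N _ _ (hne y hy), mul_sum]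
      refine sum_le_sum fun s _ => ?_
      rw [mul_sum]
      refine sum_le_sum fun s' _ => ?_
      have hrr : 0 ≤ r (w * (y : ZMod p)) s * r (w * (y' : ZMod p)) s' := mul_nonneg (hr _ s) (hr _ s')
      rw [show 2 * (N : ℝ) / Y0 * (2 / (T : ℝ) ^ 2) *
          (r (w * (y : ZMod p)) s * r (w * (y' : ZMod p)) s' * W y y' s s') =
        r (w * (y : ZMod p)) s * r (w * (y' : ZMod p)) s' *
          (2 * N / Y0 * (2 / (T : ℝ) ^ 2) * W y y' s s') by ring]
      apply mul_le_mul_of_nonneg_left _ hrr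
      rcases ((range N ×ˢ range N).filter fun q =>
        (s + (q.1 : ZMod p)) * (y' : ZMod p) = (s' + (q.2 : ZMod p)) * (y : ZMod p)).eq_empty_or_nonempty
        with h0 | h0
      · rw [h0, card_empty, Nat.cast_zero]
        positivity
      · obtain ⟨c, hc1, hc2⟩ := small_of_cnt N Y1 y y' (hPY y hy).2.2 (hPY y' hy').2.2 s s' h0
        have h1 := cnt_le N Y1 (by omega) y y' (hPY y hy).1 (hPY y' hy').1 hyy (hPY y hy).2.2
          (hPY y' hy').2.2 s s'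
        have h2 : (#((range N ×ˢ range N).filter fun q =>
          (s + (q.1 : ZMod p)) * (y' : ZMod p) = (s' + (q.2 : ZMod p)) * (y : ZMod p)) : ℝ) ≤
            2 * N / Y0 := by
          have h3 : ((N / y + 1 : ℕ) : ℝ) ≤ 2 * N / Y0 := by
            push_cast
            have h4 : ((N / y : ℕ) : ℝ) ≤ N / y := Nat.cast_div_le
            have h5 : (Y0 : ℝ) ≤ y := by exact_mod_cast (hPY y hy).2.1
            have h6 : (0 : ℝ) < y := by exact_mod_cast (hPY y hy).1.pos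
            have h7 : (N : ℝ) / y ≤ N / Y0 := div_le_div_of_nonneg_left hN0.le hY00 h5
            have h8 : (1 : ℝ) ≤ N / Y0 := by
              rw [le_div_iff₀ hY00, one_mul]
              exact_mod_cast hY0N
            have h9 : 2 * (N : ℝ) / Y0 = N / Y0 + N / Y0 := by ring
            rw [h9]
            linarith
          exact le_trans (by exact_mod_cast h1) h3
        have h3 : (T : ℝ) ^ 2 / 2 ≤ W y y' s s' := by
          have h4 := fejer_low (p := p) T (N * Y1) (by linarith [hTle, mul_comm (8 * (N * Y1)) T])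
            c hc1
          rw [hc2] at h4
          rw [hW]
          exact h4
        have h4 : (1 : ℝ) ≤ 2 / (T : ℝ) ^ 2 * W y y' s s' := by
          rw [div_mul_eq_mul_div, le_div_iff₀ (by positivity)]
          linarith
        calc _ ≤ 2 * (N : ℝ) / Y0 * 1 := by rw [mul_one]; exact h2
          _ ≤ 2 * N / Y0 * (2 / (T : ℝ) ^ 2 * W y y' s s') :=
            mul_le_mul_of_nonneg_left h4 (by positivity)
          _ = _ := by ring
  rw [hexp]
  refine (sum_le_sum fun y hy => sum_le_sum fun y' hy' => hterm y hy y' hy').trans ?_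
  have hsum : ∑ y ∈ PY, ∑ y' ∈ PY, ((if y = y' then (N : ℝ) ^ 2 * R2 else 0) +
        (2 * N / Y0 * (2 / (T : ℝ) ^ 2)) * ∑ w : ZMod p, ∑ s, ∑ s',
          r (w * (y : ZMod p)) s * r (w * (y' : ZMod p)) s' * W y y' s s') =
      #PY * ((N : ℝ) ^ 2 * R2) + (2 * N / Y0 * (2 / (T : ℝ) ^ 2)) *
        ∑ y ∈ PY, ∑ y' ∈ PY, ∑ w : ZMod p, ∑ s, ∑ s',
          r (w * (y : ZMod p)) s * r (w * (y' : ZMod p)) s' * W y y' s s' := by
    simp only [sum_add_distrib, ← mul_sum]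
    congr 1
    rw [sum_congr rfl fun y hy => by rw [sum_ite_eq PY y, if_pos hy], sum_const, nsmul_eq_mul]
  rw [hsum]
  have h5 : (2 * N / Y0 * (2 / (T : ℝ) ^ 2)) *
        ∑ y ∈ PY, ∑ y' ∈ PY, ∑ w : ZMod p, ∑ s, ∑ s',
          r (w * (y : ZMod p)) s * r (w * (y' : ZMod p)) s' * W y y' s s' ≤
      (2 * N / Y0 * (2 / (T : ℝ) ^ 2)) * (T * (R1 + #PY * (m * (p * R2)))) :=
    mul_le_mul_of_nonneg_left hQ (by positivity)
  have h6 : (2 * N / Y0 * (2 / (T : ℝ) ^ 2)) * (T * (R1 + #PY * (m * (p * R2)))) ≤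
      64 * ((N : ℝ) ^ 2 * Y1 / (Y0 * p)) * (R1 + #PY * (m * (p * R2))) := by
    have h7 : (2 * N / Y0 * (2 / (T : ℝ) ^ 2)) * (T * (R1 + #PY * (m * (p * R2)))) =
        (4 * N / (Y0 * T)) * (R1 + #PY * (m * (p * R2))) := by
      field_simp
      ring
    rw [h7]
    apply mul_le_mul_of_nonneg_right _ (by positivity)
    rw [div_le_iff₀ (by positivity)]
    have h8 : 64 * ((N : ℝ) ^ 2 * Y1 / (Y0 * p)) * (Y0 * T) = 4 * N * ((16 * (N * Y1) * T) / p) := by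
      field_simp
      ring
    rw [h8]
    have h9 : (1 : ℝ) ≤ (16 * (N * Y1) * T) / p := by
      rw [le_div_iff₀ hp0, one_mul]
      exact hTlow
    have h10 : (0 : ℝ) ≤ 4 * N := by positivity
    nlinarith
  have h7 : (#PY : ℝ) * ((N : ℝ) ^ 2 * R2) ≤
      ((Y1 : ℝ) / Y0) * m * (N : ℝ) ^ 2 * #PY * R2 := by
    have h8 : (1 : ℝ) ≤ m := by exact_mod_cast hm
    have h9 : (1 : ℝ) ≤ (Y1 : ℝ) / Y0 := by
      rw [le_div_iff₀ hY00, one_mul]
      exact_mod_cast hY01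
    have h10 : (1 : ℝ) ≤ (Y1 : ℝ) / Y0 * m := by nlinarith
    have h11 : 0 ≤ (#PY : ℝ) * ((N : ℝ) ^ 2 * R2) := by positivity
    calc (#PY : ℝ) * ((N : ℝ) ^ 2 * R2) = 1 * ((#PY : ℝ) * ((N : ℝ) ^ 2 * R2)) := by ring
      _ ≤ ((Y1 : ℝ) / Y0 * m) * ((#PY : ℝ) * ((N : ℝ) ^ 2 * R2)) :=
        mul_le_mul_of_nonneg_right h10 h11
      _ = _ := by ring
  have h8 : 64 * ((N : ℝ) ^ 2 * Y1 / (Y0 * p)) * (R1 + #PY * (m * (p * R2))) =
      64 * ((N : ℝ) ^ 2 * Y1 / (Y0 * p)) * R1 +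
        64 * (((Y1 : ℝ) / Y0) * m * (N : ℝ) ^ 2 * #PY * R2) := by
    field_simp
  rw [h8] at h6
  linarith

end MPcb27.TW
end

section
/-!
# MP_cb27ba_nt, project TW: module SMP, the count for a family of pairs `(z i, z' i)`
-/
set_option autoImplicit false

open Finset

namespace MPcb27.TW

/-- pairs in a fibre -/
theorem card_pairs {κ β : Type*} [DecidableEq β] [Fintype β] (S : Finset κ) (g : κ → β) :
    #((S ×ˢ S).filter fun q => g q.1 = g q.2) = ∑ t : β, #(S.filter fun s => g s = t) ^ 2 := by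
  classical
  rw [card_eq_sum_card_fiberwise (f := fun q : κ × κ => g q.1) (t := (univ : Finset β))]
  · refine sum_congr rfl fun t _ => ?_
    rw [sq, ← card_product]
    congr 1
    ext q
    simp only [mem_filter, mem_product]
    constructor
    · rintro ⟨⟨⟨h1, h2⟩, h3⟩, h4⟩
      exact ⟨⟨h1, h4⟩, h2, h3.symm.trans h4⟩
    · rintro ⟨⟨h1, h4⟩, h2, h3⟩
      exact ⟨⟨⟨h1, h2⟩, h4.trans h3.symm⟩, h4⟩
  · intro q _
    exact mem_coe.mpr (mem_univ _)

/-- **SMP**, core form -/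
theorem smp_core (hSM : SpecSM2) (p : ℕ) [Fact p.Prime] (ι : Type) (S : Finset ι)
    (z z' : ι → ZMod p) (M Y0 Y1 c : ℕ) (Y : Finset ℕ)
    (hY : ∀ y ∈ Y, y.Prime ∧ Y0 ≤ y ∧ y ≤ Y1) (hY0 : 1 ≤ Y0) (hY0M : Y0 ≤ M) (hY01 : Y0 ≤ Y1)
    (hc : 1 ≤ c) (hMp : 8 * (M * Y1) ≤ p) (hpc : p ≤ Y0 ^ (c + 1)) :
    (#(((S ×ˢ range M ×ˢ Y) ×ˢ (S ×ˢ range M ×ˢ Y)).filter fun q =>
      (q.2.2.2 : ZMod p) * (z q.1.1 + (q.1.2.1 : ZMod p)) =
        (q.1.2.2 : ZMod p) * (z q.2.1 + (q.2.2.1 : ZMod p)) ∧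
      (q.2.2.2 : ZMod p) * (z' q.1.1 + (q.1.2.1 : ZMod p)) =
        (q.1.2.2 : ZMod p) * (z' q.2.1 + (q.2.2.1 : ZMod p))) : ℝ) ≤
      65 * ((Y1 : ℝ) / Y0) * c * (M : ℝ) ^ 2 * #Y *
        #((S ×ˢ S).filter fun q => z q.1 = z q.2 ∧ z' q.1 = z' q.2) +
      64 * ((M : ℝ) ^ 2 * Y1 / (Y0 * p)) * ((#Y : ℝ) ^ 2 *
        #((S ×ˢ S).filter fun q => z q.1 - z' q.1 = z q.2 - z' q.2)) := by
  classical
  have hpp : p.Prime := Fact.out
  have hYp : Y1 < p := by
    have : Y1 * 1 ≤ Y1 * M := Nat.mul_le_mul_left _ (by omega)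
    nlinarith
  have hne : ∀ y ∈ Y, ((y : ℕ) : ZMod p) ≠ 0 := by
    intro y hy h
    rw [ZMod.natCast_eq_zero_iff] at h
    have h1 := Nat.le_of_dvd (hY y hy).1.pos h
    have h2 := (hY y hy).2.2
    omega
  -- the function
  set r : ZMod p → ZMod p → ℝ := fun v s =>
    (#(S.filter fun i => (z i - z' i, z i) = (v, s)) : ℝ) with hr
  have hR2 : ∑ v, ∑ s, r v s ^ 2 =
      #((S ×ˢ S).filter fun q => z q.1 = z q.2 ∧ z' q.1 = z' q.2) := by
    have h1 : ((S ×ˢ S).filter fun q => z q.1 = z q.2 ∧ z' q.1 = z' q.2) =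
        (S ×ˢ S).filter fun q => (fun i => (z i - z' i, z i)) q.1 = (fun i => (z i - z' i, z i)) q.2 := by
      apply filter_congr
      intro q _
      simp only [Prod.mk.injEq]
      constructor
      · rintro ⟨h1, h2⟩
        exact ⟨by rw [h1, h2], h1⟩
      · rintro ⟨h1, h2⟩
        refine ⟨h2, ?_⟩
        rw [h2] at h1
        exact sub_right_injective h1
    have h2 := card_pairs S (fun i => (z i - z' i, z i))
    rw [Fintype.sum_prod_type] at h2
    rw [h1]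
    have h3 : ∑ v, ∑ s, r v s ^ 2 = ((∑ v, ∑ s,
        #(S.filter fun i => (z i - z' i, z i) = (v, s)) ^ 2 : ℕ) : ℝ) := by
      push_cast
      rfl
    rw [h3]
    congr 1
    exact h2.symm
  have hR1 : ∑ v, (∑ s, r v s) ^ 2 =
      #((S ×ˢ S).filter fun q => z q.1 - z' q.1 = z q.2 - z' q.2) := by
    have h2 := card_pairs S (fun i => z i - z' i)
    refine Eq.trans ?_ (congrArg (Nat.cast : ℕ → ℝ) h2.symm)
    push_cast
    refine sum_congr rfl fun v _ => ?_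
    congr 1
    rw [hr]
    simp only
    rw [card_eq_sum_card_fiberwise (s := S.filter fun i => z i - z' i = v) (f := z)
      (t := (univ : Finset (ZMod p))) (fun _ _ => mem_coe.mpr (mem_univ _))]
    push_cast
    refine sum_congr rfl fun s _ => ?_
    congr 2
    ext i
    simp only [mem_filter, Prod.mk.injEq]
    tauto
  -- the measure
  set S' := S ×ˢ range M ×ˢ Y with hS'
  set g : ι × ℕ × ℕ → ZMod p × ZMod p := fun q =>
    ((z q.1 - z' q.1) / (q.2.2 : ZMod p), (z q.1 + (q.2.1 : ZMod p)) / (q.2.2 : ZMod p)) with hg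
  have hnu : ∀ w u : ZMod p, ∑ y ∈ Y, ∑ n ∈ range M, r (w * (y : ZMod p)) (u * (y : ZMod p) - (n : ZMod p)) =
      (#(S'.filter fun q => g q = (w, u)) : ℝ) := by
    intro w u
    rw [hS', card_filter, sum_product]
    push_cast
    simp only [sum_product]
    have h1 : ∀ y ∈ Y, ∀ n ∈ range M, r (w * (y : ZMod p)) (u * (y : ZMod p) - (n : ZMod p)) =
        ∑ i ∈ S, if g (i, n, y) = (w, u) then (1 : ℝ) else 0 := by
      intro y hy n _
      rw [hr]
      simp only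
      rw [card_filter]
      push_cast
      refine sum_congr rfl fun i _ => ?_
      have h2 : ((z i - z' i, z i) : ZMod p × ZMod p) = (w * (y : ZMod p), u * (y : ZMod p) - (n : ZMod p)) ↔
          g (i, n, y) = (w, u) := by
        rw [hg]
        simp only [Prod.mk.injEq]
        rw [div_eq_iff (hne y hy), div_eq_iff (hne y hy), eq_sub_iff_add_eq]
      simp only [h2]
    rw [sum_congr rfl fun y hy => sum_congr rfl fun n hn => h1 y hy n hn]
    calc _ = ∑ y ∈ Y, ∑ i ∈ S, ∑ n ∈ range M, (if g (i, n, y) = (w, u) then (1 : ℝ) else 0) :=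
            sum_congr rfl fun y _ => sum_comm
      _ = ∑ i ∈ S, ∑ y ∈ Y, ∑ n ∈ range M, (if g (i, n, y) = (w, u) then (1 : ℝ) else 0) := sum_comm
      _ = _ := sum_congr rfl fun i _ => sum_comm
  have h0 : ((S' ×ˢ S').filter fun q =>
      (q.2.2.2 : ZMod p) * (z q.1.1 + (q.1.2.1 : ZMod p)) =
        (q.1.2.2 : ZMod p) * (z q.2.1 + (q.2.2.1 : ZMod p)) ∧
      (q.2.2.2 : ZMod p) * (z' q.1.1 + (q.1.2.1 : ZMod p)) =
        (q.1.2.2 : ZMod p) * (z' q.2.1 + (q.2.2.1 : ZMod p))) =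
      (S' ×ˢ S').filter fun q => g q.1 = g q.2 := by
    apply filter_congr
    intro q hq
    rw [hS', mem_product, mem_product, mem_product, mem_product, mem_product] at hq
    have a1 := hne _ hq.1.2.2
    have a2 := hne _ hq.2.2.2
    rw [hg]
    simp only [Prod.mk.injEq]
    rw [div_eq_div_iff a1 a2, div_eq_div_iff a1 a2]
    constructor
    · rintro ⟨h1, h2⟩
      exact ⟨by linear_combination h1 - h2, by linear_combination h1⟩
    · rintro ⟨h1, h2⟩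
      exact ⟨by linear_combination h2, by linear_combination h2 - h1⟩
  have h2 := card_pairs S' g
  rw [Fintype.sum_prod_type] at h2
  rw [h0]
  have hmain := hSM p r (fun v s => by rw [hr]; exact Nat.cast_nonneg _) M Y0 Y1 c hY0 hY0M hY01
    hMp Y hY hc (TG.few_primes Y0 c hY0 hpc Y (fun y hy => ⟨(hY y hy).1, (hY y hy).2.1⟩))
  rw [hR1, hR2] at hmain
  refine le_trans (le_of_eq ?_) hmain
  refine (congrArg (Nat.cast : ℕ → ℝ) h2).trans ?_
  push_cast
  refine sum_congr rfl fun w _ => sum_congr rfl fun u _ => ?_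
  rw [hnu]

/-- **SMP** -/
theorem specSMP : SpecSMP := by
  intro p _ ι S z z' M Y0 Y1 c Y hY hY0 hY0M hY01 hc hMp hpc
  have h := smp_core specSM2 p ι S z z' M Y0 Y1 c Y hY hY0 hY0M hY01 hc (by linarith) hpc
  unfold N2P E0P DP
  refine h.trans (add_le_add ?_ le_rfl)
  have h1 : (0 : ℝ) ≤ ((Y1 : ℝ) / Y0) * c * (M : ℝ) ^ 2 * #Y *
      (#((S ×ˢ S).filter fun q => z q.1 = z q.2 ∧ z' q.1 = z' q.2) : ℝ) := by positivity
  nlinarith

end MPcb27.TW
end
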