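import Pool.Agent.Lib.MP_cb27ba_nt.TW.Spec

/-!
# MP_cb27ba_nt, project TW: exact statements, part 3: THEOREM A (families of affine maps)

Idea of helper17. `Φ` a finite set of affine maps `x ↦ u x + v`, given as pairs `(u, v)`, `u ≠ 0`;
`C` and `B` ARBITRARY sets; every `a ∈ A` has at least `m` representations `a = u c + v`.
`χ (u c + v - b) conj χ (u c + v - b') = χ (c - (b - v)/u) conj χ (c - (b' - v)/u)`, the moment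
MOM2 over the pairs `((b - v)/u, (b' - v)/u)`.
-/

set_option autoImplicit false

namespace MPcb27.TW

open Finset
open scoped Pointwise
open MPcb27.TU

/-- number of pairs `(φ, b, b')`, `(φ₁, b₁, b₁')` with `φ⁻¹ b = φ₁⁻¹ b₁` and `φ⁻¹ b' = φ₁⁻¹ b₁'`:
the sum of `|φ⁻¹ B ∩ φ₁⁻¹ B|²` over `φ`, `φ₁` in `Φ`. -/
def NA {p : ℕ} (Φ : Finset (ZMod p × ZMod p)) (B : Finset (ZMod p)) : ℕ :=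
  #(((Φ ×ˢ B ×ˢ B) ×ˢ (Φ ×ˢ B ×ˢ B)).filter fun q =>
    q.2.1.1 * (q.1.2.1 - q.1.1.2) = q.1.1.1 * (q.2.2.1 - q.2.1.2) ∧
    q.2.1.1 * (q.1.2.2 - q.1.1.2) = q.1.1.1 * (q.2.2.2 - q.2.1.2))

/-- HOA: Hoelder for a family of affine maps. -/
def SpecHOA : Prop :=
  ∀ k : ℕ, 1 ≤ k → ∃ C₀ : ℝ, 0 ≤ C₀ ∧ ∀ (p : ℕ) [Fact p.Prime] (χ : MulChar (ZMod p) ℂ), χ ≠ 1 →
    ∀ (Φ : Finset (ZMod p × ZMod p)) (C B : Finset (ZMod p)) (ρ : ℝ), (∀ φ ∈ Φ, φ.1 ≠ 0) →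
      (p : ℝ) ≤ (#C : ℝ) ^ k → 0 ≤ ρ →
      C₀ * NA Φ B * p ≤ ρ ^ (2 * k) * ((#Φ : ℝ) * (#B : ℝ) ^ 2) ^ 2 →
      ∑ b ∈ B, ∑ b' ∈ B, ‖∑ φ ∈ Φ, ∑ c ∈ C,
          χ (φ.1 * c + φ.2 - b) * (starRingEnd ℂ) (χ (φ.1 * c + φ.2 - b'))‖ ≤
        (#B : ℝ) ^ 2 * (#Φ * #C * ρ)

/-- GRAMA: `m ∑_{a ∈ A} f a ≤ ∑_{φ, c} f (φ c)` for `f ≥ 0`. -/
def SpecGRAMA : Prop :=
  ∀ (p : ℕ) [Fact p.Prime] (χ : MulChar (ZMod p) ℂ) (Φ : Finset (ZMod p × ZMod p))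
    (C B : Finset (ZMod p)) (m : ℕ) (ρ : ℝ), 1 ≤ m → 0 ≤ ρ →
    (∑ b ∈ B, ∑ b' ∈ B, ‖∑ φ ∈ Φ, ∑ c ∈ C,
        χ (φ.1 * c + φ.2 - b) * (starRingEnd ℂ) (χ (φ.1 * c + φ.2 - b'))‖ ≤
      ρ ^ 4 * (#Φ * #C) * (#B : ℝ) ^ 2) →
    ∀ A : Finset (ZMod p),
      (∀ a ∈ A, m ≤ #((Φ ×ˢ C).filter fun q => q.1.1 * q.2 + q.1.2 = a)) →
      NB χ A B (ρ * Real.sqrt (((#Φ : ℝ) * #C / m) * #B))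

/-- THEOREM A: `A` covered by affine images of sets `C` of at least `p ^ δ` elements, `B`
arbitrary. -/
def FinalA : Prop :=
  ∀ δ : ℝ, 0 < δ → ∃ τ : ℝ, 0 < τ ∧ ∃ P : ℕ, ∀ (p : ℕ) [Fact p.Prime], P ≤ p →
    ∀ (B : Finset (ZMod p)) (F : Finset (Finset (ZMod p × ZMod p) × Finset (ZMod p) × ℕ)),
      (∀ q ∈ F, (∀ φ ∈ q.1, φ.1 ≠ 0) ∧ (p : ℝ) ^ δ ≤ #q.2.1 ∧ 1 ≤ q.2.2 ∧
        (p : ℝ) ^ (1 + δ) * NA q.1 B ≤ (#q.1 : ℝ) ^ 2 * (#B : ℝ) ^ 4) →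
      ∀ A : Finset (ZMod p),
        (∀ a ∈ A, ∃ q ∈ F, q.2.2 ≤ #((q.1 ×ˢ q.2.1).filter fun x => x.1.1 * x.2 + x.1.2 = a)) →
        ∀ χ : MulChar (ZMod p) ℂ, χ ≠ 1 →
          NB χ A B ((p : ℝ) ^ (-τ) *
            Real.sqrt ((∑ q ∈ F, (#q.1 : ℝ) * #q.2.1 / q.2.2) * #B))

end MPcb27.TW
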