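import Pool.Agent.Lib.MP_cb27ba_nt.TW.Spec
import Pool.Agent.Lib.MP_cb27ba_nt.TW.Spec2
import Pool.Agent.Lib.MP_cb27ba_nt.BD.Det
import Pool.Agent.Lib.MP_cb27ba_nt.TW.Spec3

section
/-!
# FINS1: one sumset against an arbitrary set
-/
set_option autoImplicit false

namespace MPcb27.TW

open Finset
open scoped Pointwise
open MPcb27.TU

theorem finalS1 (hH : SpecHOS) (hG : SpecGRAMS) : FinalS1 := by
  intro δ hδ
  obtain ⟨k, hk⟩ := exists_nat_ge (1 / δ)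
  have hk0 : (0 : ℝ) < k := lt_of_lt_of_le (by positivity) hk
  have hk1 : 1 ≤ k := by
    have : 0 < k := by exact_mod_cast hk0
    omega
  obtain ⟨C₀, hC₀, hH⟩ := hH k hk1
  refine ⟨δ / (16 * k), by positivity, ?_⟩
  have ev : ∀ᶠ x : ℝ in Filter.atTop, C₀ ≤ x ^ (δ / 2) :=
    (tendsto_rpow_atTop (by positivity)).eventually_ge_atTop C₀
  obtain ⟨P, hP⟩ := Filter.eventually_atTop.1 (tendsto_natCast_atTop_atTop.eventually ev)
  refine ⟨P, fun p _ hp D C B hC hE A hA χ hχ => ?_⟩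
  have hp1 : (1 : ℝ) < p := by exact_mod_cast (Fact.out : p.Prime).one_lt
  have hp0 : (0 : ℝ) < p := by linarith
  have hPp := hP p hp
  set ρ : ℝ := (p : ℝ) ^ (-(δ / (4 * k))) with hρ
  have hρ0 : 0 < ρ := Real.rpow_pos_of_pos hp0 _
  have h1 : (p : ℝ) ≤ (#C : ℝ) ^ k := by
    calc (p : ℝ) = (p : ℝ) ^ (1 : ℝ) := (Real.rpow_one _).symm
      _ ≤ (p : ℝ) ^ (δ * k) := by
        apply Real.rpow_le_rpow_of_exponent_le hp1.le
        rw [div_le_iff₀ hδ] at hk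
        linarith
      _ = ((p : ℝ) ^ δ) ^ k := by rw [Real.rpow_mul hp0.le, Real.rpow_natCast]
      _ ≤ (#C : ℝ) ^ k := pow_le_pow_left₀ (by positivity) hC k
  have h2 : ρ ^ (2 * k) = (p : ℝ) ^ (-(δ / 2)) := by
    rw [hρ, ← Real.rpow_natCast, ← Real.rpow_mul hp0.le]
    congr 1
    push_cast
    field_simp
    ring
  have h3 : C₀ * E3 D B * p ≤ ρ ^ (2 * k) * ((#D : ℝ) * (#B : ℝ) ^ 2) ^ 2 := by
    have e1 : (p : ℝ) ^ (1 + δ) = p * ((p : ℝ) ^ (δ / 2) * (p : ℝ) ^ (δ / 2)) := by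
      rw [Real.rpow_add hp0, Real.rpow_one, ← Real.rpow_add hp0]
      congr 2
      ring
    have e2 : (p : ℝ) ^ (-(δ / 2)) * (p : ℝ) ^ (δ / 2) = 1 := by
      rw [← Real.rpow_add hp0]
      simp
    have e3 : 0 < (p : ℝ) ^ (-(δ / 2)) := Real.rpow_pos_of_pos hp0 _
    have e4 : 0 ≤ (E3 D B : ℝ) := by positivity
    rw [h2]
    calc C₀ * E3 D B * p = C₀ * (E3 D B * p) := by ring
      _ ≤ (p : ℝ) ^ (δ / 2) * (E3 D B * p) := mul_le_mul_of_nonneg_right hPp (by positivity)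
      _ = ((p : ℝ) ^ (-(δ / 2)) * (p : ℝ) ^ (δ / 2)) * ((p : ℝ) ^ (δ / 2) * (E3 D B * p)) := by
          rw [e2, one_mul]
      _ = (p : ℝ) ^ (-(δ / 2)) * ((p : ℝ) ^ (1 + δ) * E3 D B) := by rw [e1]; ring
      _ ≤ (p : ℝ) ^ (-(δ / 2)) * ((#D : ℝ) ^ 2 * (#B : ℝ) ^ 4) := mul_le_mul_of_nonneg_left hE e3.le
      _ = (p : ℝ) ^ (-(δ / 2)) * ((#D : ℝ) * (#B : ℝ) ^ 2) ^ 2 := by ring
  have h4 := hH p χ hχ D C B ρ h1 hρ0.le h3
  refine hG p χ D C B _ (Real.rpow_pos_of_pos hp0 _).le ?_ A hA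
  refine h4.trans (le_of_eq ?_)
  have h5 : ((p : ℝ) ^ (-(δ / (16 * k)))) ^ 4 = ρ := by
    rw [hρ, ← Real.rpow_natCast, ← Real.rpow_mul hp0.le]
    congr 1
    push_cast
    field_simp
    ring
  rw [h5]
  ring

end MPcb27.TW
end

section
/-!
# MP_cb27ba_nt, project TW: the modules GRAM and GRAMS (helper69)
-/
set_option autoImplicit false

namespace MPcb27.TW

open Finset
open scoped Pointwise
open MPcb27.TU

namespace GRAMM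

/-- a Gram sum over a family has norm at most the number of members -/
theorem norm_le {p : ℕ} [Fact p.Prime] (χ : MulChar (ZMod p) ℂ) {T : Type} (s : Finset T)
    (f : T → ZMod p) (b b' : ZMod p) :
    ‖∑ t ∈ s, χ (f t - b) * (starRingEnd ℂ) (χ (f t - b'))‖ ≤ #s := by
  refine (norm_sum_le _ _).trans ?_
  have h : ∀ t ∈ s, ‖χ (f t - b) * (starRingEnd ℂ) (χ (f t - b'))‖ ≤ 1 := by
    intro t _
    rw [norm_mul, Complex.norm_conj]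
    exact mul_le_one₀ (DirichletCharacter.norm_le_one (n := p) χ _) (norm_nonneg _)
      (DirichletCharacter.norm_le_one (n := p) χ _)
  refine (Finset.sum_le_sum h).trans ?_
  simp

/-- the square sum as a Gram form -/
theorem gram_eq {p : ℕ} (χ : MulChar (ZMod p) ℂ) {T : Type} (s : Finset T) (f : T → ZMod p)
    (B : Finset (ZMod p)) (β : ZMod p → ℂ) :
    ((∑ t ∈ s, ‖∑ b ∈ B, β b * χ (f t - b)‖ ^ 2 : ℝ) : ℂ) =
      ∑ b ∈ B, ∑ b' ∈ B, β b * (starRingEnd ℂ) (β b') *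
        ∑ t ∈ s, χ (f t - b) * (starRingEnd ℂ) (χ (f t - b')) := by
  rw [Complex.ofReal_sum]
  have h1 : ∀ t ∈ s, ((‖∑ b ∈ B, β b * χ (f t - b)‖ ^ 2 : ℝ) : ℂ) =
      ∑ b ∈ B, ∑ b' ∈ B, β b * (starRingEnd ℂ) (β b') *
        (χ (f t - b) * (starRingEnd ℂ) (χ (f t - b'))) := by
    intro t _
    rw [← Complex.normSq_eq_norm_sq, ← Complex.mul_conj, map_sum, Finset.sum_mul_sum]
    refine Finset.sum_congr rfl fun b _ => Finset.sum_congr rfl fun b' _ => ?_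
    rw [map_mul]
    ring
  rw [Finset.sum_congr rfl h1, Finset.sum_comm]
  refine Finset.sum_congr rfl fun b _ => ?_
  rw [Finset.sum_comm]
  refine Finset.sum_congr rfl fun b' _ => ?_
  rw [Finset.mul_sum]

/-- the core inequality -/
theorem core {p : ℕ} [Fact p.Prime] (χ : MulChar (ZMod p) ℂ) {T : Type} (s : Finset T)
    (f : T → ZMod p) (B : Finset (ZMod p)) (ρ W : ℝ) (hW : (#s : ℝ) ≤ W)
    (h : ∑ b ∈ B, ∑ b' ∈ B, ‖∑ t ∈ s, χ (f t - b) * (starRingEnd ℂ) (χ (f t - b'))‖ ≤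
      ρ ^ 4 * W * (#B : ℝ) ^ 2) (β : ZMod p → ℂ) :
    ∑ t ∈ s, ‖∑ b ∈ B, β b * χ (f t - b)‖ ^ 2 ≤
      ρ ^ 2 * W * #B * ∑ b ∈ B, ‖β b‖ ^ 2 := by
  have hW0 : 0 ≤ W := le_trans (Nat.cast_nonneg _) hW
  have hB0 : (0 : ℝ) ≤ #B := Nat.cast_nonneg _
  have hβ0 : (0 : ℝ) ≤ ∑ b ∈ B, ‖β b‖ ^ 2 := Finset.sum_nonneg fun b _ => sq_nonneg _
  have hR0 : 0 ≤ ρ ^ 2 * W * #B * ∑ b ∈ B, ‖β b‖ ^ 2 :=
    mul_nonneg (mul_nonneg (mul_nonneg (sq_nonneg ρ) hW0) hB0) hβ0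
  set G : ZMod p → ZMod p → ℂ := fun b b' =>
    ∑ t ∈ s, χ (f t - b) * (starRingEnd ℂ) (χ (f t - b')) with hG
  -- first: bounded by the sum of absolute values
  have h1 : ∑ t ∈ s, ‖∑ b ∈ B, β b * χ (f t - b)‖ ^ 2 ≤
      ∑ q ∈ B ×ˢ B, (‖β q.1‖ * ‖β q.2‖) * ‖G q.1 q.2‖ := by
    have h2 : ∑ t ∈ s, ‖∑ b ∈ B, β b * χ (f t - b)‖ ^ 2 =
        ‖((∑ t ∈ s, ‖∑ b ∈ B, β b * χ (f t - b)‖ ^ 2 : ℝ) : ℂ)‖ := by
      rw [Complex.norm_real, Real.norm_of_nonneg]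
      exact Finset.sum_nonneg fun t _ => sq_nonneg _
    rw [h2, gram_eq, Finset.sum_product]
    refine (norm_sum_le _ _).trans (Finset.sum_le_sum fun b _ => ?_)
    refine (norm_sum_le _ _).trans (Finset.sum_le_sum fun b' _ => ?_)
    rw [norm_mul, norm_mul, Complex.norm_conj]
  -- Cauchy-Schwarz
  have h3 : (∑ q ∈ B ×ˢ B, (‖β q.1‖ * ‖β q.2‖) * ‖G q.1 q.2‖) ^ 2 ≤
      (∑ q ∈ B ×ˢ B, (‖β q.1‖ * ‖β q.2‖) ^ 2) * ∑ q ∈ B ×ˢ B, ‖G q.1 q.2‖ ^ 2 :=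
    Finset.sum_mul_sq_le_sq_mul_sq _ _ _
  have h4 : ∑ q ∈ B ×ˢ B, (‖β q.1‖ * ‖β q.2‖) ^ 2 = (∑ b ∈ B, ‖β b‖ ^ 2) ^ 2 := by
    rw [Finset.sum_product, sq (∑ b ∈ B, ‖β b‖ ^ 2), Finset.sum_mul_sum]
    refine Finset.sum_congr rfl fun b _ => Finset.sum_congr rfl fun b' _ => ?_
    ring
  have h5 : ∑ q ∈ B ×ˢ B, ‖G q.1 q.2‖ ^ 2 ≤ (ρ ^ 2 * W * #B) ^ 2 := by
    have h6 : ∀ q ∈ B ×ˢ B, ‖G q.1 q.2‖ ^ 2 ≤ W * ‖G q.1 q.2‖ := by
      intro q _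
      rw [sq]
      exact mul_le_mul_of_nonneg_right ((norm_le χ s f q.1 q.2).trans hW) (norm_nonneg _)
    refine (Finset.sum_le_sum h6).trans ?_
    rw [← Finset.mul_sum, Finset.sum_product]
    refine (mul_le_mul_of_nonneg_left h hW0).trans (le_of_eq ?_)
    ring
  have h7 : (∑ q ∈ B ×ˢ B, (‖β q.1‖ * ‖β q.2‖) * ‖G q.1 q.2‖) ^ 2 ≤
      (ρ ^ 2 * W * #B * ∑ b ∈ B, ‖β b‖ ^ 2) ^ 2 := by
    refine h3.trans ?_
    rw [h4]
    refine (mul_le_mul_of_nonneg_left h5 (sq_nonneg _)).trans (le_of_eq ?_)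
    ring
  exact h1.trans (le_of_sq_le_sq h7 hR0)

/-- the end: from the square sum to the norm -/
theorem fin {p : ℕ} (χ : MulChar (ZMod p) ℂ) (A B : Finset (ZMod p)) (ρ V : ℝ) (hρ : 0 ≤ ρ)
    (h : ∀ β : ZMod p → ℂ, ∑ a ∈ A, ‖∑ b ∈ B, β b * χ (a - b)‖ ^ 2 ≤
      ρ ^ 2 * V * #B * ∑ b ∈ B, ‖β b‖ ^ 2) :
    NB χ A B (ρ * Real.sqrt (V * #B)) := by
  intro α β
  have h1 : ‖∑ a ∈ A, ∑ b ∈ B, α a * β b * χ (a - b)‖ ≤
      ∑ a ∈ A, ‖α a‖ * ‖∑ b ∈ B, β b * χ (a - b)‖ := by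
    refine (norm_sum_le _ _).trans (Finset.sum_le_sum fun a _ => ?_)
    rw [← norm_mul, Finset.mul_sum]
    refine le_of_eq (congrArg _ (Finset.sum_congr rfl fun b _ => ?_))
    ring
  have h2 : ∑ a ∈ A, ‖α a‖ * ‖∑ b ∈ B, β b * χ (a - b)‖ ≤
      Real.sqrt (∑ a ∈ A, ‖α a‖ ^ 2) *
        Real.sqrt (∑ a ∈ A, ‖∑ b ∈ B, β b * χ (a - b)‖ ^ 2) :=
    Real.sum_mul_le_sqrt_mul_sqrt _ _ _
  have h3 : Real.sqrt (∑ a ∈ A, ‖∑ b ∈ B, β b * χ (a - b)‖ ^ 2) ≤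
      ρ * Real.sqrt (V * #B) * Real.sqrt (∑ b ∈ B, ‖β b‖ ^ 2) := by
    refine (Real.sqrt_le_sqrt (h β)).trans (le_of_eq ?_)
    have hβ0 : (0 : ℝ) ≤ ∑ b ∈ B, ‖β b‖ ^ 2 := Finset.sum_nonneg fun b _ => sq_nonneg _
    rw [Real.sqrt_mul' _ hβ0, mul_assoc (ρ ^ 2) V, Real.sqrt_mul (sq_nonneg ρ),
      Real.sqrt_sq hρ]
  refine h1.trans (h2.trans ?_)
  refine (mul_le_mul_of_nonneg_left h3 (Real.sqrt_nonneg _)).trans (le_of_eq ?_)
  ring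

end GRAMM

theorem specGRAM : SpecGRAM := by
  intro p _ χ ι I X w B ρ hρ hw hG A hA
  refine GRAMM.fin χ A B ρ (∑ i ∈ I, w i) hρ fun β => ?_
  classical
  have h1 : ∑ a ∈ A, ‖∑ b ∈ B, β b * χ (a - b)‖ ^ 2 ≤
      ∑ i ∈ I, ∑ a ∈ X i, ‖∑ b ∈ B, β b * χ (a - b)‖ ^ 2 := by
    have h3 : ∀ a ∈ A, ‖∑ b ∈ B, β b * χ (a - b)‖ ^ 2 ≤
        ∑ i ∈ I, if a ∈ X i then ‖∑ b ∈ B, β b * χ (a - b)‖ ^ 2 else 0 := by
      intro a ha
      obtain ⟨i, hi, hai⟩ := hA a ha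
      have h4 := Finset.single_le_sum (s := I)
        (f := fun i => if a ∈ X i then ‖∑ b ∈ B, β b * χ (a - b)‖ ^ 2 else 0)
        (fun j _ => by split_ifs <;> first | exact sq_nonneg _ | exact le_rfl) hi
      simpa [hai] using h4
    refine (Finset.sum_le_sum h3).trans ?_
    rw [Finset.sum_comm]
    refine Finset.sum_le_sum fun i _ => ?_
    rw [← Finset.sum_filter]
    refine Finset.sum_le_sum_of_subset_of_nonneg ?_ fun a _ _ => sq_nonneg _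
    intro a ha
    exact (Finset.mem_filter.1 ha).2
  refine h1.trans ?_
  have h2 : ∀ i ∈ I, ∑ a ∈ X i, ‖∑ b ∈ B, β b * χ (a - b)‖ ^ 2 ≤
      ρ ^ 2 * w i * #B * ∑ b ∈ B, ‖β b‖ ^ 2 := fun i hi =>
    GRAMM.core χ (X i) id B ρ (w i) (hw i hi) (hG i hi) β
  refine (Finset.sum_le_sum h2).trans (le_of_eq ?_)
  rw [← Finset.sum_mul, ← Finset.sum_mul, ← Finset.mul_sum]

theorem specGRAMS : SpecGRAMS := by
  intro p _ χ D C B ρ hρ hG A hA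
  refine GRAMM.fin χ A B ρ ((#D : ℝ) * #C) hρ fun β => ?_
  have h1 : ∑ a ∈ A, ‖∑ b ∈ B, β b * χ (a - b)‖ ^ 2 ≤
      ∑ q ∈ D ×ˢ C, ‖∑ b ∈ B, β b * χ (q.1 + q.2 - b)‖ ^ 2 := by
    have h2 : ∑ a ∈ A, ‖∑ b ∈ B, β b * χ (a - b)‖ ^ 2 ≤
        ∑ a ∈ (D ×ˢ C).image fun q => q.1 + q.2, ‖∑ b ∈ B, β b * χ (a - b)‖ ^ 2 := by
      refine Finset.sum_le_sum_of_subset_of_nonneg ?_ fun a _ _ => sq_nonneg _
      intro a ha
      obtain ⟨d, hd, c, hc, hdc⟩ := Finset.mem_add.1 (hA ha)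
      exact Finset.mem_image.2 ⟨(d, c), Finset.mem_product.2 ⟨hd, hc⟩, hdc⟩
    refine h2.trans ?_
    have h3 := Finset.sum_fiberwise_of_maps_to (s := D ×ˢ C)
      (t := (D ×ˢ C).image fun q : ZMod p × ZMod p => q.1 + q.2)
      (g := fun q : ZMod p × ZMod p => q.1 + q.2)
      (fun q hq => Finset.mem_image_of_mem _ hq)
      (fun q => ‖∑ b ∈ B, β b * χ (q.1 + q.2 - b)‖ ^ 2)
    rw [← h3]
    refine Finset.sum_le_sum fun a ha => ?_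
    obtain ⟨q, hq, hqa⟩ := Finset.mem_image.1 ha
    have hqm : q ∈ (D ×ˢ C).filter fun q : ZMod p × ZMod p => q.1 + q.2 = a :=
      Finset.mem_filter.2 ⟨hq, hqa⟩
    have h4 := Finset.single_le_sum (s := (D ×ˢ C).filter fun q : ZMod p × ZMod p => q.1 + q.2 = a)
      (f := fun q : ZMod p × ZMod p => ‖∑ b ∈ B, β b * χ (q.1 + q.2 - b)‖ ^ 2)
      (fun q _ => sq_nonneg _) hqm
    have h5 : ‖∑ b ∈ B, β b * χ (a - b)‖ ^ 2 = ‖∑ b ∈ B, β b * χ (q.1 + q.2 - b)‖ ^ 2 := by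
      rw [← hqa]
    rw [h5]
    exact h4
  refine h1.trans ?_
  refine GRAMM.core χ (D ×ˢ C) (fun q => q.1 + q.2) B ρ ((#D : ℝ) * #C) ?_ ?_ β
  · rw [Finset.card_product, Nat.cast_mul]
  · refine le_trans (le_of_eq ?_) hG
    refine Finset.sum_congr rfl fun b _ => Finset.sum_congr rfl fun b' _ => ?_
    rw [Finset.sum_product]

end MPcb27.TW
end

section
/-!
# MP_cb27ba_nt, project TW: the module GRAMG (helper50)
-/
set_option autoImplicit false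

namespace MPcb27.TW

open Finset
open scoped Pointwise
open MPcb27.TU

theorem specGRAMG : SpecGRAMG := by
  intro p _ χ X B g H ρ hH hρ hG
  refine GRAMM.fin χ X B ρ (#(X + ap 0 g H) : ℝ) hρ fun β => ?_
  have hH0 : (0 : ℝ) < H := by exact_mod_cast hH
  -- the core inequality for the family `(u, n) ↦ u - n g`
  have h1 := GRAMM.core χ ((X + ap 0 g H) ×ˢ range H)
    (fun q : ZMod p × ℕ => q.1 - (q.2 : ZMod p) * g) B ρ ((H : ℝ) * #(X + ap 0 g H))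
    (by rw [Finset.card_product, Finset.card_range, Nat.cast_mul, mul_comm]) (by
      refine le_trans ?_ hG
      have h2 : ∀ b ∈ B, ∀ b' ∈ B, ‖∑ t ∈ (X + ap 0 g H) ×ˢ range H,
          χ (t.1 - (t.2 : ZMod p) * g - b) *
            (starRingEnd ℂ) (χ (t.1 - (t.2 : ZMod p) * g - b'))‖ ≤
          ∑ u ∈ X + ap 0 g H, ‖∑ n ∈ range H, χ (u - (n : ZMod p) * g - b) *
            (starRingEnd ℂ) (χ (u - (n : ZMod p) * g - b'))‖ := by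
        intro b _ b' _
        rw [Finset.sum_product]
        exact norm_sum_le _ _
      refine (Finset.sum_le_sum fun b hb => Finset.sum_le_sum fun b' hb' =>
        h2 b hb b' hb').trans (le_of_eq ?_)
      rw [Finset.sum_comm]
      conv_rhs => rw [Finset.sum_comm]
      rw [Finset.sum_comm]
      refine Finset.sum_congr rfl fun b _ => ?_
      rw [Finset.sum_comm]) β
  -- each `x` is `u - n g` for every `n < H`
  have h3 : (H : ℝ) * ∑ x ∈ X, ‖∑ b ∈ B, β b * χ (x - b)‖ ^ 2 ≤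
      ∑ t ∈ (X + ap 0 g H) ×ˢ range H,
        ‖∑ b ∈ B, β b * χ (t.1 - (t.2 : ZMod p) * g - b)‖ ^ 2 := by
    rw [Finset.sum_product_right]
    have h4 : ∀ n ∈ range H, ∑ x ∈ X, ‖∑ b ∈ B, β b * χ (x - b)‖ ^ 2 ≤
        ∑ u ∈ X + ap 0 g H, ‖∑ b ∈ B, β b * χ (u - (n : ZMod p) * g - b)‖ ^ 2 := by
      intro n hn
      have h5 : ∑ x ∈ X, ‖∑ b ∈ B, β b * χ (x - b)‖ ^ 2 =
          ∑ u ∈ X.image (fun x => x + (n : ZMod p) * g),
            ‖∑ b ∈ B, β b * χ (u - (n : ZMod p) * g - b)‖ ^ 2 := by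
        rw [Finset.sum_image (fun x _ y _ hxy => by simpa using hxy)]
        refine Finset.sum_congr rfl fun x _ => ?_
        rw [add_sub_cancel_right]
      rw [h5]
      refine Finset.sum_le_sum_of_subset_of_nonneg ?_ fun u _ _ => sq_nonneg _
      intro u hu
      obtain ⟨x, hx, rfl⟩ := Finset.mem_image.1 hu
      refine Finset.add_mem_add hx ?_
      exact Finset.mem_image.2 ⟨n, hn, by simp⟩
    calc (H : ℝ) * ∑ x ∈ X, ‖∑ b ∈ B, β b * χ (x - b)‖ ^ 2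
        = ∑ _n ∈ range H, ∑ x ∈ X, ‖∑ b ∈ B, β b * χ (x - b)‖ ^ 2 := by
          rw [Finset.sum_const, Finset.card_range, nsmul_eq_mul]
      _ ≤ _ := Finset.sum_le_sum h4
  have h6 : (H : ℝ) * ∑ x ∈ X, ‖∑ b ∈ B, β b * χ (x - b)‖ ^ 2 ≤
      (H : ℝ) * (ρ ^ 2 * (#(X + ap 0 g H) : ℝ) * #B * ∑ b ∈ B, ‖β b‖ ^ 2) := by
    refine h3.trans (h1.trans (le_of_eq ?_))
    ring
  exact le_of_mul_le_mul_left h6 hH0

end MPcb27.TW
end

section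
/-!
# MP_cb27ba_nt, project TW: THEOREM A (families of affine maps): HOA, GRAMA, FINA
-/
set_option autoImplicit false

namespace MPcb27.TW

open Finset
open MPcb27.TU

/-- **HOA** -/
theorem specHOA (hM : SpecMOM2) : SpecHOA := by
  classical
  intro k hk
  obtain ⟨C₀, hC₀, hmom⟩ := hM k hk
  refine ⟨2 * C₀, by positivity, ?_⟩
  intro p _ χ hχ Φ C B ρ hΦ hC hρ hE
  have hp : (0 : ℝ) < p := by exact_mod_cast (Fact.out : p.Prime).pos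
  set S : Finset ((ZMod p × ZMod p) × ZMod p × ZMod p) := Φ ×ˢ B ×ˢ B with hS
  set g : (ZMod p × ZMod p) × ZMod p × ZMod p → ZMod p × ZMod p :=
    fun q => ((q.1.2 - q.2.1) / q.1.1, (q.1.2 - q.2.2) / q.1.1) with hg
  have hKK : ∀ q, 0 ≤ KK χ C q := fun q => norm_nonneg _
  -- the sum is at most the sum of the inner sums
  have h1 : ∑ b ∈ B, ∑ b' ∈ B, ‖∑ φ ∈ Φ, ∑ c ∈ C,
      χ (φ.1 * c + φ.2 - b) * (starRingEnd ℂ) (χ (φ.1 * c + φ.2 - b'))‖ ≤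
        ∑ q ∈ S, KK χ C (g q) := by
    have e : ∑ q ∈ S, KK χ C (g q) = ∑ b ∈ B, ∑ b' ∈ B, ∑ φ ∈ Φ, KK χ C (g (φ, b, b')) := by
      rw [hS, sum_product]
      simp only [sum_product]
      rw [sum_comm]
      exact sum_congr rfl fun b _ => sum_comm
    rw [e]
    refine sum_le_sum fun b _ => sum_le_sum fun b' _ => ?_
    refine (norm_sum_le _ _).trans (sum_le_sum fun φ hφ => ?_)
    have hu := hΦ φ hφ
    have h2 : ∑ c ∈ C, χ (φ.1 * c + φ.2 - b) * (starRingEnd ℂ) (χ (φ.1 * c + φ.2 - b')) =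
        (χ φ.1 * (starRingEnd ℂ) (χ φ.1)) *
          ∑ c ∈ C, χ ((φ.2 - b) / φ.1 + c) * (starRingEnd ℂ) (χ ((φ.2 - b') / φ.1 + c)) := by
      rw [mul_sum]
      refine sum_congr rfl fun c _ => ?_
      have e1 : φ.1 * c + φ.2 - b = φ.1 * ((φ.2 - b) / φ.1 + c) := by
        field_simp
        ring
      have e2 : φ.1 * c + φ.2 - b' = φ.1 * ((φ.2 - b') / φ.1 + c) := by
        field_simp
        ring
      rw [e1, e2, map_mul, map_mul, map_mul]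
      ring
    rw [h2, norm_mul]
    have h3 : ‖χ φ.1 * (starRingEnd ℂ) (χ φ.1)‖ ≤ 1 := by
      rw [norm_mul, Complex.norm_conj]
      exact mul_le_one₀ (DirichletCharacter.norm_le_one (n := p) χ _) (norm_nonneg _)
        (DirichletCharacter.norm_le_one (n := p) χ _)
    calc _ ≤ 1 * ‖∑ c ∈ C, χ ((φ.2 - b) / φ.1 + c) *
            (starRingEnd ℂ) (χ ((φ.2 - b') / φ.1 + c))‖ :=
          mul_le_mul_of_nonneg_right h3 (norm_nonneg _)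
      _ = KK χ C (g (φ, b, b')) := by rw [one_mul]; rfl
  -- Hoelder
  have h2 := Burg.holder S univ g (fun _ _ => mem_univ _) (KK χ C) hKK k hk
  have h3 : #((S ×ˢ S).filter fun q => g q.1 = g q.2) = NA Φ B := by
    unfold NA
    congr 1
    apply filter_congr
    intro q hq
    simp only [hS, mem_product] at hq
    have a1 := hΦ _ hq.1.1
    have a2 := hΦ _ hq.2.1
    simp only [hg, Prod.mk.injEq]
    rw [div_eq_div_iff a1 a2, div_eq_div_iff a1 a2]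
    constructor
    · rintro ⟨h1, h2⟩
      exact ⟨by linear_combination -h1, by linear_combination -h2⟩
    · rintro ⟨h1, h2⟩
      exact ⟨by linear_combination -h1, by linear_combination -h2⟩
  have h4 : (#S : ℝ) = (#Φ : ℝ) * (#B : ℝ) ^ 2 := by
    rw [hS, card_product, card_product]
    push_cast
    ring
  have h5 := hmom p χ hχ C
  have h6 : C₀ * ((#C : ℝ) ^ k * (p : ℝ) ^ 2 + (#C : ℝ) ^ (2 * k) * p) ≤
      2 * C₀ * p * (#C : ℝ) ^ (2 * k) := by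
    have : (#C : ℝ) ^ k * (p : ℝ) ^ 2 ≤ (#C : ℝ) ^ (2 * k) * p := by
      have e : (#C : ℝ) ^ (2 * k) * p = (#C : ℝ) ^ k * p * (#C : ℝ) ^ k := by ring
      rw [e, sq, ← mul_assoc]
      exact mul_le_mul_of_nonneg_left hC (by positivity)
    nlinarith [mul_le_mul_of_nonneg_left this hC₀]
  rw [h3, h4] at h2
  set V : ℝ := (#Φ : ℝ) * (#B : ℝ) ^ 2 with hV
  have hV0 : 0 ≤ V := by positivity
  have h7 : (∑ q ∈ S, KK χ C (g q)) ^ (2 * k) ≤ (V * #C * ρ) ^ (2 * k) := by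
    refine h2.trans ?_
    calc V ^ (2 * (k - 1)) * (NA Φ B : ℝ) * ∑ t : ZMod p × ZMod p, KK χ C t ^ (2 * k)
        ≤ V ^ (2 * (k - 1)) * (NA Φ B : ℝ) * (2 * C₀ * p * (#C : ℝ) ^ (2 * k)) :=
          mul_le_mul_of_nonneg_left (h5.trans h6) (by positivity)
      _ = V ^ (2 * (k - 1)) * (#C : ℝ) ^ (2 * k) * (2 * C₀ * NA Φ B * p) := by ring
      _ ≤ V ^ (2 * (k - 1)) * (#C : ℝ) ^ (2 * k) * (ρ ^ (2 * k) * V ^ 2) :=
          mul_le_mul_of_nonneg_left hE (by positivity)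
      _ = (V * #C * ρ) ^ (2 * k) := by
          obtain ⟨n, rfl⟩ : ∃ n, k = n + 1 := ⟨k - 1, by omega⟩
          rw [Nat.add_sub_cancel]
          ring
  have h8 : ∑ q ∈ S, KK χ C (g q) ≤ V * #C * ρ :=
    le_of_pow_le_pow_left₀ (by omega) (by positivity) h7
  refine h1.trans (h8.trans (le_of_eq ?_))
  rw [hV]
  ring

/-- GRAMA, on the level of square sums -/
theorem gramA_sq {p : ℕ} [Fact p.Prime] (χ : MulChar (ZMod p) ℂ) (Φ : Finset (ZMod p × ZMod p))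
    (C B : Finset (ZMod p)) (m : ℕ) (ρ : ℝ) (hm : 1 ≤ m)
    (hG : ∑ b ∈ B, ∑ b' ∈ B, ‖∑ φ ∈ Φ, ∑ c ∈ C,
        χ (φ.1 * c + φ.2 - b) * (starRingEnd ℂ) (χ (φ.1 * c + φ.2 - b'))‖ ≤
      ρ ^ 4 * (#Φ * #C) * (#B : ℝ) ^ 2) (A : Finset (ZMod p))
    (hA : ∀ a ∈ A, m ≤ #((Φ ×ˢ C).filter fun q => q.1.1 * q.2 + q.1.2 = a)) (β : ZMod p → ℂ) :
    ∑ a ∈ A, ‖∑ b ∈ B, β b * χ (a - b)‖ ^ 2 ≤
      ρ ^ 2 * ((#Φ : ℝ) * #C / m) * #B * ∑ b ∈ B, ‖β b‖ ^ 2 := by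
  classical
  have hm0 : (0 : ℝ) < m := by exact_mod_cast hm
  have h1 : (m : ℝ) * ∑ a ∈ A, ‖∑ b ∈ B, β b * χ (a - b)‖ ^ 2 ≤
      ∑ q ∈ Φ ×ˢ C, ‖∑ b ∈ B, β b * χ (q.1.1 * q.2 + q.1.2 - b)‖ ^ 2 := by
    have h2 : ∑ a ∈ A, ∑ q ∈ (Φ ×ˢ C).filter (fun q => q.1.1 * q.2 + q.1.2 = a),
        ‖∑ b ∈ B, β b * χ (q.1.1 * q.2 + q.1.2 - b)‖ ^ 2 ≤
        ∑ q ∈ Φ ×ˢ C, ‖∑ b ∈ B, β b * χ (q.1.1 * q.2 + q.1.2 - b)‖ ^ 2 := by
      rw [← sum_fiberwise (s := Φ ×ˢ C) (g := fun q => q.1.1 * q.2 + q.1.2)]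
      exact sum_le_sum_of_subset_of_nonneg (subset_univ _)
        (fun a _ _ => sum_nonneg fun q _ => sq_nonneg _)
    refine le_trans ?_ h2
    rw [mul_sum]
    refine sum_le_sum fun a ha => ?_
    have h3 : ∑ q ∈ (Φ ×ˢ C).filter (fun q => q.1.1 * q.2 + q.1.2 = a),
        ‖∑ b ∈ B, β b * χ (q.1.1 * q.2 + q.1.2 - b)‖ ^ 2 =
        #((Φ ×ˢ C).filter fun q => q.1.1 * q.2 + q.1.2 = a) *
          ‖∑ b ∈ B, β b * χ (a - b)‖ ^ 2 := by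
      rw [sum_congr rfl (fun q hq => by rw [(mem_filter.mp hq).2]), sum_const, nsmul_eq_mul]
    rw [h3]
    exact mul_le_mul_of_nonneg_right (by exact_mod_cast hA a ha) (sq_nonneg _)
  have h2 := GRAMM.core χ (Φ ×ˢ C) (fun q => q.1.1 * q.2 + q.1.2) B ρ ((#Φ : ℝ) * #C)
    (by rw [card_product, Nat.cast_mul])
    (by
      refine le_trans (le_of_eq ?_) hG
      refine sum_congr rfl fun b _ => sum_congr rfl fun b' _ => ?_
      rw [sum_product]) β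
  have h3 : (m : ℝ) * ∑ a ∈ A, ‖∑ b ∈ B, β b * χ (a - b)‖ ^ 2 ≤
      ρ ^ 2 * ((#Φ : ℝ) * #C) * #B * ∑ b ∈ B, ‖β b‖ ^ 2 := h1.trans h2
  have h4 : ρ ^ 2 * ((#Φ : ℝ) * #C / m) * #B * ∑ b ∈ B, ‖β b‖ ^ 2 =
      (ρ ^ 2 * ((#Φ : ℝ) * #C) * #B * ∑ b ∈ B, ‖β b‖ ^ 2) / m := by ring
  rw [h4, le_div_iff₀ hm0, mul_comm]
  exact h3

/-- **GRAMA** -/
theorem specGRAMA : SpecGRAMA := by
  intro p _ χ Φ C B m ρ hm hρ hG A hA
  exact GRAMM.fin χ A B ρ ((#Φ : ℝ) * #C / m) hρ fun β => gramA_sq χ Φ C B m ρ hm hG A hA β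

/-- **THEOREM A** -/
theorem finalA (hM : SpecMOM2) : FinalA := by
  classical
  intro δ hδ
  obtain ⟨k, hk⟩ := exists_nat_ge (1 / δ)
  have hk0 : (0 : ℝ) < k := lt_of_lt_of_le (by positivity) hk
  have hk1 : 1 ≤ k := by
    have : 0 < k := by exact_mod_cast hk0
    omega
  obtain ⟨C₀, hC₀, hH⟩ := specHOA hM k hk1
  refine ⟨δ / (16 * k), by positivity, ?_⟩
  have ev : ∀ᶠ x : ℝ in Filter.atTop, C₀ ≤ x ^ (δ / 2) :=
    (tendsto_rpow_atTop (by positivity)).eventually_ge_atTop C₀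
  obtain ⟨P, hP⟩ := Filter.eventually_atTop.1 (tendsto_natCast_atTop_atTop.eventually ev)
  refine ⟨P, fun p _ hp B F hF A hA χ hχ => ?_⟩
  have hp1 : (1 : ℝ) < p := by exact_mod_cast (Fact.out : p.Prime).one_lt
  have hp0 : (0 : ℝ) < p := by linarith
  have hPp := hP p hp
  set ρ : ℝ := (p : ℝ) ^ (-(δ / (4 * k))) with hρ
  have hρ0 : 0 < ρ := Real.rpow_pos_of_pos hp0 _
  have h2 : ρ ^ (2 * k) = (p : ℝ) ^ (-(δ / 2)) := by
    rw [hρ, ← Real.rpow_natCast, ← Real.rpow_mul hp0.le]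
    congr 1
    push_cast
    field_simp
    ring
  have h5 : ((p : ℝ) ^ (-(δ / (16 * k)))) ^ 4 = ρ := by
    rw [hρ, ← Real.rpow_natCast, ← Real.rpow_mul hp0.le]
    congr 1
    push_cast
    field_simp
    ring
  -- one member of the family
  have hone : ∀ q ∈ F, ∀ β : ZMod p → ℂ,
      ∑ a ∈ A.filter (fun a => q.2.2 ≤ #((q.1 ×ˢ q.2.1).filter fun x => x.1.1 * x.2 + x.1.2 = a)),
        ‖∑ b ∈ B, β b * χ (a - b)‖ ^ 2 ≤
      ((p : ℝ) ^ (-(δ / (16 * k)))) ^ 2 * ((#q.1 : ℝ) * #q.2.1 / q.2.2) * #B *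
        ∑ b ∈ B, ‖β b‖ ^ 2 := by
    rintro ⟨Φ, C, m⟩ hq β
    obtain ⟨hΦ, hC, hm, hE⟩ := hF _ hq
    simp only at hΦ hC hm hE ⊢
    have h1 : (p : ℝ) ≤ (#C : ℝ) ^ k := by
      calc (p : ℝ) = (p : ℝ) ^ (1 : ℝ) := (Real.rpow_one _).symm
        _ ≤ (p : ℝ) ^ (δ * k) := by
          apply Real.rpow_le_rpow_of_exponent_le hp1.le
          rw [div_le_iff₀ hδ] at hk
          linarith
        _ = ((p : ℝ) ^ δ) ^ k := by rw [Real.rpow_mul hp0.le, Real.rpow_natCast]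
        _ ≤ (#C : ℝ) ^ k := pow_le_pow_left₀ (by positivity) hC k
    have h3 : C₀ * NA Φ B * p ≤ ρ ^ (2 * k) * ((#Φ : ℝ) * (#B : ℝ) ^ 2) ^ 2 := by
      have e1 : (p : ℝ) ^ (1 + δ) = p * ((p : ℝ) ^ (δ / 2) * (p : ℝ) ^ (δ / 2)) := by
        rw [Real.rpow_add hp0, Real.rpow_one, ← Real.rpow_add hp0]
        congr 2
        ring
      have e2 : (p : ℝ) ^ (-(δ / 2)) * (p : ℝ) ^ (δ / 2) = 1 := by
        rw [← Real.rpow_add hp0]
        simp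
      have e3 : 0 < (p : ℝ) ^ (-(δ / 2)) := Real.rpow_pos_of_pos hp0 _
      have e4 : 0 ≤ (NA Φ B : ℝ) := by positivity
      rw [h2]
      calc C₀ * NA Φ B * p = C₀ * (NA Φ B * p) := by ring
        _ ≤ (p : ℝ) ^ (δ / 2) * (NA Φ B * p) := mul_le_mul_of_nonneg_right hPp (by positivity)
        _ = ((p : ℝ) ^ (-(δ / 2)) * (p : ℝ) ^ (δ / 2)) * ((p : ℝ) ^ (δ / 2) * (NA Φ B * p)) := by
            rw [e2, one_mul]
        _ = (p : ℝ) ^ (-(δ / 2)) * ((p : ℝ) ^ (1 + δ) * NA Φ B) := by rw [e1]; ring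
        _ ≤ (p : ℝ) ^ (-(δ / 2)) * ((#Φ : ℝ) ^ 2 * (#B : ℝ) ^ 4) :=
            mul_le_mul_of_nonneg_left hE e3.le
        _ = (p : ℝ) ^ (-(δ / 2)) * ((#Φ : ℝ) * (#B : ℝ) ^ 2) ^ 2 := by ring
    have h4 := hH p χ hχ Φ C B ρ hΦ h1 hρ0.le h3
    refine gramA_sq χ Φ C B m _ hm ?_ _ (fun a ha => (mem_filter.mp ha).2) β
    refine h4.trans (le_of_eq ?_)
    rw [h5]
    ring
  refine GRAMM.fin χ A B _ (∑ q ∈ F, (#q.1 : ℝ) * #q.2.1 / q.2.2)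
    (Real.rpow_pos_of_pos hp0 _).le fun β => ?_
  have h6 : ∑ a ∈ A, ‖∑ b ∈ B, β b * χ (a - b)‖ ^ 2 ≤
      ∑ q ∈ F, ∑ a ∈ A.filter
        (fun a => q.2.2 ≤ #((q.1 ×ˢ q.2.1).filter fun x => x.1.1 * x.2 + x.1.2 = a)),
        ‖∑ b ∈ B, β b * χ (a - b)‖ ^ 2 := by
    simp only [sum_filter]
    rw [sum_comm]
    refine sum_le_sum fun a ha => ?_
    obtain ⟨q, hq, hqa⟩ := hA a ha
    have h7 := single_le_sum (s := F)
      (f := fun q => if q.2.2 ≤ #((q.1 ×ˢ q.2.1).filter fun x => x.1.1 * x.2 + x.1.2 = a) then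
        ‖∑ b ∈ B, β b * χ (a - b)‖ ^ 2 else 0)
      (fun j _ => by split_ifs <;> first | exact sq_nonneg _ | exact le_rfl) hq
    simp only [if_pos hqa] at h7
    exact h7
  refine h6.trans ((sum_le_sum fun q hq => hone q hq β).trans (le_of_eq ?_))
  rw [← sum_mul, ← sum_mul, ← mul_sum]

end MPcb27.TW
end
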