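import Pool.Agent.Lib.MP_cb27ba_nt.TW.Spec2
import Pool.Agent.Lib.MP_cb27ba_nt.TU.FINUK
import Pool.Agent.Lib.MP_cb27ba_nt.TU.P1a

/-!
# MP_cb27ba_nt, project TW: WG1 and FinalWG, the one-sided theorem G
-/

set_option autoImplicit false

namespace MPcb27.TW

open Finset
open scoped Pointwise
open MPcb27.TU

namespace WG

theorem big (C c : ℝ) (hc : 0 < c) : ∃ P : ℕ, ∀ p : ℕ, P ≤ p → C ≤ (p : ℝ) ^ c := by
  have h := (tendsto_rpow_atTop hc).comp (tendsto_natCast_atTop_atTop (R := ℝ))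
  obtain ⟨P, hP⟩ := Filter.eventually_atTop.1 (h.eventually_ge_atTop C)
  exact ⟨P, fun p hp => hP p hp⟩

/-- the family -/
def zz {p : ℕ} [Fact p.Prime] (g : ZMod p) (q : ZMod p × ZMod p × ZMod p) : ZMod p :=
  (q.2.1 - q.1) / g

def zz' {p : ℕ} [Fact p.Prime] (g : ZMod p) (q : ZMod p × ZMod p × ZMod p) : ZMod p :=
  (q.2.2 - q.1) / g

theorem e0p_eq {p : ℕ} [Fact p.Prime] {g : ZMod p} (hg : g ≠ 0) (U B : Finset (ZMod p)) :
    E0P (U ×ˢ B ×ˢ B) (zz g) (zz' g) = E3 U B := by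
  rw [E0P, E3]
  congr 1
  refine filter_congr fun q _ => ?_
  simp only [zz, zz', div_left_inj' hg]
  constructor
  · rintro ⟨h1, h2⟩
    exact ⟨by linear_combination -h1, by linear_combination -h2⟩
  · rintro ⟨h1, h2⟩
    exact ⟨by linear_combination -h1, by linear_combination -h2⟩

theorem dp_le {p : ℕ} [Fact p.Prime] {g : ZMod p} (hg : g ≠ 0) (U B : Finset (ZMod p)) :
    DP (U ×ˢ B ×ˢ B) (zz g) (zz' g) ≤ #U ^ 2 * #B ^ 3 := by
  have h0 : #U ^ 2 * #B ^ 3 = #((U ×ˢ B ×ˢ B) ×ˢ (U ×ˢ B)) := by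
    rw [card_product, card_product, card_product, card_product]
    ring
  rw [DP, h0]
  refine card_le_card_of_injOn (fun q => (q.1, (q.2.1, q.2.2.1))) ?_ ?_
  · intro q hq
    simp only [coe_filter, mem_product, Set.mem_ofPred_eq] at hq
    simp only [coe_product, Set.mem_prod, mem_coe]
    exact ⟨⟨hq.1.1.1, hq.1.1.2.1, hq.1.1.2.2⟩, hq.1.2.1, hq.1.2.2.1⟩
  · intro q hq q' hq' h
    simp only [coe_filter, mem_product, Set.mem_ofPred_eq] at hq hq'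
    simp only [Prod.mk.injEq] at h
    obtain ⟨h1, h2, h3⟩ := h
    have e1 := hq.2
    have e2 := hq'.2
    simp only [zz, zz'] at e1 e2
    rw [div_sub_div_same, div_sub_div_same, div_left_inj' hg] at e1 e2
    have e3 : q.2.2.2 = q'.2.2.2 := by
      rw [h1] at e1
      have : q'.2.2.2 - q.2.2.2 = 0 := by linear_combination e2 - e1 - h3
      linear_combination -this
    exact Prod.ext h1 (Prod.ext h2 (Prod.ext h3 e3))

theorem e3_mono {p : ℕ} {U U' B : Finset (ZMod p)} (h : U' ⊆ U) : E3 U' B ≤ E3 U B := by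
  rw [E3, E3]
  refine card_le_card (filter_subset_filter _ ?_)
  exact product_subset_product (product_subset_product_left h) (product_subset_product_left h)

/-- scaling of the inner sum -/
theorem scale {p : ℕ} [Fact p.Prime] (χ : MulChar (ZMod p) ℂ) {g : ZMod p} (hg : g ≠ 0) (H : ℕ)
    (u b b' : ZMod p) :
    ‖∑ n ∈ range H, χ (u - (n : ZMod p) * g - b) *
      (starRingEnd ℂ) (χ (u - (n : ZMod p) * g - b'))‖ ≤
    ‖∑ n ∈ range H, χ (zz g (u, b, b') + (n : ZMod p)) *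
      (starRingEnd ℂ) (χ (zz' g (u, b, b') + (n : ZMod p)))‖ := by
  have h1 : ∀ (n : ℕ) (c : ZMod p), u - (n : ZMod p) * g - c = (-g) * ((c - u) / g + n) := by
    intro n c
    field_simp
    ring
  have h2 : ∑ n ∈ range H, χ (u - (n : ZMod p) * g - b) *
      (starRingEnd ℂ) (χ (u - (n : ZMod p) * g - b')) =
      (χ (-g) * (starRingEnd ℂ) (χ (-g))) * ∑ n ∈ range H, χ (zz g (u, b, b') + (n : ZMod p)) *
      (starRingEnd ℂ) (χ (zz' g (u, b, b') + (n : ZMod p))) := by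
    rw [mul_sum]
    refine sum_congr rfl fun n _ => ?_
    rw [h1, h1, map_mul, map_mul, map_mul]
    simp only [zz, zz']
    ring
  rw [h2, norm_mul, norm_mul, RCLike.norm_conj]
  have h3 : ‖χ (-g)‖ ≤ 1 := DirichletCharacter.norm_le_one χ _
  have h4 : ‖χ (-g)‖ * ‖χ (-g)‖ ≤ 1 := mul_le_one₀ h3 (norm_nonneg _) h3
  exact mul_le_of_le_one_left (norm_nonneg _) h4

theorem core (hF : SpecFIN0P) (hGr : SpecGRAMG) {δ : ℝ} (hδ : 0 < δ) (hδ4 : δ ≤ 1 / 4) :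
    ∃ τ : ℝ, 0 < τ ∧ ∃ P : ℕ, ∀ (p : ℕ) [Fact p.Prime], P ≤ p →
    ∀ (X B : Finset (ZMod p)) (g : ZMod p) (H : ℕ), g ≠ 0 → (p : ℝ) ^ δ ≤ #B →
      (p : ℝ) ^ δ ≤ H → (H : ℝ) ≤ (p : ℝ) ^ (1 / 2 - δ / 8) →
      (p : ℝ) ^ (1 + δ) * E3 (X + ap 0 g H) B ≤
        (#(X + ap 0 g H) : ℝ) ^ 2 * (#B : ℝ) ^ 4 * H →
      ∀ χ : MulChar (ZMod p) ℂ, χ ≠ 1 →
        NB χ X B ((p : ℝ) ^ (-τ) * Real.sqrt ((#(X + ap 0 g H) : ℝ) * #B)) := by
  obtain ⟨τ, hτ, P, hP⟩ := hF δ hδ hδ4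
  refine ⟨τ / 4, by positivity, P, ?_⟩
  intro p _ hp X B g H hg hB hH1 hH2 hE χ hχ
  have hpp : p.Prime := Fact.out
  have hp1 : (1 : ℝ) < p := by exact_mod_cast hpp.one_lt
  have hp0 : (0 : ℝ) < p := by linarith
  obtain ⟨U, hU⟩ : ∃ U : Finset (ZMod p), U = X + ap 0 g H := ⟨_, rfl⟩
  rw [← hU] at hE ⊢
  have hHn : 1 ≤ H := by
    have h1 : (0 : ℝ) < H := lt_of_lt_of_le (by positivity) hH1
    have : 0 < H := by exact_mod_cast h1
    exact this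
  have hS : (#(U ×ˢ B ×ˢ B) : ℝ) = #U * (#B : ℝ) ^ 2 := by
    rw [card_product, card_product]
    push_cast
    ring
  have hc1 : (p : ℝ) ^ (1 + δ) * E0P (U ×ˢ B ×ˢ B) (zz g) (zz' g) ≤
      (#(U ×ˢ B ×ˢ B) : ℝ) ^ 2 * H := by
    rw [e0p_eq hg, hS]
    refine hE.trans (le_of_eq (by ring))
  have hc2 : (p : ℝ) ^ δ * DP (U ×ˢ B ×ˢ B) (zz g) (zz' g) ≤ (#(U ×ˢ B ×ˢ B) : ℝ) ^ 2 := by
    have h1 : (DP (U ×ˢ B ×ˢ B) (zz g) (zz' g) : ℝ) ≤ (#U : ℝ) ^ 2 * (#B : ℝ) ^ 3 := by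
      exact_mod_cast dp_le hg U B
    calc (p : ℝ) ^ δ * DP (U ×ˢ B ×ˢ B) (zz g) (zz' g) ≤ #B * ((#U : ℝ) ^ 2 * (#B : ℝ) ^ 3) :=
          mul_le_mul hB h1 (Nat.cast_nonneg _) (Nat.cast_nonneg _)
      _ = _ := by rw [hS]; ring
  have hfin := hP p hp H hH1 hH2 _ (U ×ˢ B ×ˢ B) (zz g) (zz' g) hc1 hc2 χ hχ
  have hgr := hGr p χ X B g H ((p : ℝ) ^ (-(τ / 4))) hHn (by positivity) ?_
  · rw [← hU] at hgr
    exact hgr
  · rw [← hU]
    have e1 : ((p : ℝ) ^ (-(τ / 4))) ^ 4 = (p : ℝ) ^ (-τ) := by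
      rw [← Real.rpow_natCast, ← Real.rpow_mul hp0.le]
      congr 1
      push_cast
      ring
    rw [e1]
    calc ∑ u ∈ U, ∑ b ∈ B, ∑ b' ∈ B, ‖∑ n ∈ range H, χ (u - (n : ZMod p) * g - b) *
          (starRingEnd ℂ) (χ (u - (n : ZMod p) * g - b'))‖
        ≤ ∑ u ∈ U, ∑ b ∈ B, ∑ b' ∈ B, ‖∑ n ∈ range H, χ (zz g (u, b, b') + (n : ZMod p)) *
          (starRingEnd ℂ) (χ (zz' g (u, b, b') + (n : ZMod p)))‖ :=
          sum_le_sum fun u _ => sum_le_sum fun b _ => sum_le_sum fun b' _ => scale χ hg H u b b'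
      _ = ∑ i ∈ U ×ˢ B ×ˢ B, ‖∑ n ∈ range H, χ (zz g i + (n : ZMod p)) *
          (starRingEnd ℂ) (χ (zz' g i + (n : ZMod p)))‖ := by
          rw [sum_product]
          refine sum_congr rfl fun u _ => ?_
          rw [sum_product]
      _ ≤ (p : ℝ) ^ (-τ) * #(U ×ˢ B ×ˢ B) * H := hfin
      _ = (p : ℝ) ^ (-τ) * (H * #U) * (#B : ℝ) ^ 2 := by rw [hS]; ring

end WG

open WG in
theorem specWG1 (hF : SpecFIN0P) (hGr : SpecGRAMG) : SpecWG1 := by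
  intro δ hδ
  obtain ⟨ε, hε⟩ : ∃ ε : ℝ, ε = min δ (1 / 4) / 2 := ⟨_, rfl⟩
  have hε0 : 0 < ε := by rw [hε]; exact div_pos (lt_min hδ (by norm_num)) (by norm_num)
  have hε1 : ε ≤ δ / 2 := by
    rw [hε]; exact div_le_div_of_nonneg_right (min_le_left _ _) (by norm_num)
  have hε2 : ε ≤ 1 / 8 := by
    rw [hε]
    have := min_le_right δ (1 / 4)
    linarith
  obtain ⟨τ, hτ, P, hP⟩ := core hF hGr hε0 (by linarith)
  obtain ⟨Pc, hPc⟩ := big 64 (ε / 8) (by positivity)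
  refine ⟨τ, hτ, max P Pc + 2, ?_⟩
  intro p _ hp X B g n hB hL1 hL2 hE χ hχ
  have hpp : p.Prime := Fact.out
  have hp1 : (1 : ℝ) < p := by exact_mod_cast hpp.one_lt
  have hp0 : (0 : ℝ) < p := by linarith
  have h64 : (64 : ℝ) ≤ (p : ℝ) ^ (ε / 8) := hPc p (by omega)
  have hPp : P ≤ p := by omega
  have mono : ∀ {x y : ℝ}, x ≤ y → (p : ℝ) ^ x ≤ (p : ℝ) ^ y := fun h =>
    Real.rpow_le_rpow_of_exponent_le hp1.le h
  -- `g ≠ 0`, `#L = n`
  have hLcard : 1 < #(ap 0 g n) := by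
    have h1 : (64 : ℝ) ≤ #(ap 0 g n) := h64.trans ((mono (by linarith)).trans hL1)
    have : 64 ≤ #(ap 0 g n) := by exact_mod_cast h1
    omega
  have hg : g ≠ 0 := by
    intro h0
    have : #(ap 0 g n) ≤ 1 := by
      rw [card_le_one]
      intro a ha b hb
      simp only [ap, mem_image, mem_range, h0, mul_zero, add_zero] at ha hb
      obtain ⟨_, _, rfl⟩ := ha
      obtain ⟨_, _, rfl⟩ := hb
      rfl
    omega
  have hcap : ∀ k : ℕ, k ≤ p → #(ap 0 g k) = k := by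
    intro k hk
    rw [ap, card_image_of_injOn, card_range]
    intro a ha b hb hab
    simp only [coe_range, Set.mem_Iio] at ha hb
    have h2 : (a : ZMod p) = b := mul_right_cancel₀ hg (add_left_cancel hab)
    rw [ZMod.natCast_eq_natCast_iff'] at h2
    rwa [Nat.mod_eq_of_lt (by omega), Nat.mod_eq_of_lt (by omega)] at h2
  have hsqrt : (p : ℝ) ^ (1 / 2 : ℝ) < p := by
    calc (p : ℝ) ^ (1 / 2 : ℝ) < (p : ℝ) ^ (1 : ℝ) :=
          Real.rpow_lt_rpow_of_exponent_lt hp1 (by norm_num)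
      _ = p := Real.rpow_one _
  have hnp : n < p := by
    by_contra h
    push Not at h
    have h1 : #(ap 0 g p) ≤ #(ap 0 g n) := card_le_card (P1.ap_mono g h)
    rw [hcap p le_rfl] at h1
    have h2 : (p : ℝ) ≤ #(ap 0 g n) := by exact_mod_cast h1
    linarith
  have hLn : #(ap 0 g n) = n := hcap n hnp.le
  rw [hLn] at hL1 hL2 hE hLcard
  -- `H`
  obtain ⟨K, hK⟩ : ∃ K : ℕ, K = ⌊(p : ℝ) ^ (1 / 2 - ε / 8)⌋₊ := ⟨_, rfl⟩
  have hK1 : (K : ℝ) ≤ (p : ℝ) ^ (1 / 2 - ε / 8) := by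
    rw [hK]; exact Nat.floor_le (by positivity)
  have hK2 : (p : ℝ) ^ (1 / 2 - ε / 8) ≤ 2 * K := by
    have h1 := Nat.lt_floor_add_one ((p : ℝ) ^ (1 / 2 - ε / 8))
    rw [← hK] at h1
    have h2 : (64 : ℝ) ≤ (p : ℝ) ^ (1 / 2 - ε / 8) := h64.trans (mono (by linarith))
    linarith
  obtain ⟨H, hH⟩ : ∃ H : ℕ, H = min n K := ⟨_, rfl⟩
  have hHn : H ≤ n := by rw [hH]; exact min_le_left _ _
  have hHK : H ≤ K := by rw [hH]; exact min_le_right _ _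
  have hH1 : (p : ℝ) ^ ε ≤ H := by
    rw [hH]
    rcases min_choice n K with h | h <;> rw [h]
    · exact (mono (by linarith)).trans hL1
    · have h1 : 64 * (p : ℝ) ^ ε ≤ (p : ℝ) ^ (1 / 2 - ε / 8) := by
        calc 64 * (p : ℝ) ^ ε ≤ (p : ℝ) ^ (ε / 8) * (p : ℝ) ^ ε :=
              mul_le_mul_of_nonneg_right h64 (by positivity)
          _ = (p : ℝ) ^ (ε / 8 + ε) := by rw [Real.rpow_add hp0]
          _ ≤ _ := mono (by linarith)
      have : (0 : ℝ) < (p : ℝ) ^ ε := by positivity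
      linarith
  have hH2 : (H : ℝ) ≤ (p : ℝ) ^ (1 / 2 - ε / 8) := by
    have : (H : ℝ) ≤ K := by exact_mod_cast hHK
    exact this.trans hK1
  have hH0 : (0 : ℝ) < H := lt_of_lt_of_le (by positivity) hH1
  have hHpos : 0 < H := by exact_mod_cast hH0
  -- `n ≤ 2 p^(ε/8) H`
  have hnH : (n : ℝ) ≤ 2 * (p : ℝ) ^ (ε / 8) * H := by
    rw [hH]
    rcases min_choice n K with h | h <;> rw [h]
    · have : (0 : ℝ) ≤ n := Nat.cast_nonneg _
      nlinarith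
    · calc (n : ℝ) ≤ (p : ℝ) ^ (1 / 2 : ℝ) := hL2
        _ = (p : ℝ) ^ (ε / 8) * (p : ℝ) ^ (1 / 2 - ε / 8) := by
            rw [← Real.rpow_add hp0]
            congr 1
            ring
        _ ≤ (p : ℝ) ^ (ε / 8) * (2 * K) := mul_le_mul_of_nonneg_left hK2 (by positivity)
        _ = _ := by ring
  -- the two sumsets
  obtain ⟨U, hU⟩ : ∃ U : Finset (ZMod p), U = X + ap 0 g n := ⟨_, rfl⟩
  obtain ⟨V, hV⟩ : ∃ V : Finset (ZMod p), V = X + ap 0 g H := ⟨_, rfl⟩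
  have hVU : V ⊆ U := by
    rw [hU, hV]
    exact add_subset_add_left (P1.ap_mono g hHn)
  have hVU' : (#V : ℝ) ≤ #U := by exact_mod_cast card_le_card hVU
  have hUV : (#U : ℝ) ≤ 4 * (p : ℝ) ^ (ε / 8) * #V := by
    have h1 : ap 0 g n ⊆ ap 0 ((H : ZMod p) * g) (n / H + 1) + ap 0 g H := by
      refine P1.ap_split g hHpos ?_
      have h2 := Nat.div_add_mod n H
      have h3 := Nat.mod_lt n hHpos
      have h4 : (n / H + 1) * H = H * (n / H) + H := by ring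
      omega
    have h2 : #U ≤ (n / H + 1) * #V := by
      have h3 : U ⊆ ap 0 ((H : ZMod p) * g) (n / H + 1) + V := by
        rw [hU, hV]
        refine (add_subset_add_left h1).trans (subset_of_eq ?_)
        abel
      calc #U ≤ #(ap 0 ((H : ZMod p) * g) (n / H + 1) + V) := card_le_card h3
        _ ≤ #(ap 0 ((H : ZMod p) * g) (n / H + 1)) * #V := card_add_le
        _ ≤ (n / H + 1) * #V := Nat.mul_le_mul_right _ (P1.card_ap_le _ _ _)
    have h4 : ((n / H + 1 : ℕ) : ℝ) ≤ 4 * (p : ℝ) ^ (ε / 8) := by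
      have h5 : ((n / H : ℕ) : ℝ) ≤ n / H := Nat.cast_div_le
      have h6 : (n : ℝ) / H ≤ 2 * (p : ℝ) ^ (ε / 8) := by
        rw [div_le_iff₀ hH0]
        exact hnH
      push_cast
      linarith
    calc (#U : ℝ) ≤ ((n / H + 1 : ℕ) : ℝ) * #V := by exact_mod_cast h2
      _ ≤ _ := mul_le_mul_of_nonneg_right h4 (Nat.cast_nonneg _)
  rw [← hU] at hE ⊢
  have hEV : (p : ℝ) ^ (1 + ε) * E3 V B ≤ (#V : ℝ) ^ 2 * (#B : ℝ) ^ 4 * H := by
    have h1 : (E3 V B : ℝ) ≤ E3 U B := by exact_mod_cast e3_mono hVU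
    have h2 : (p : ℝ) ^ (1 + δ) * E3 V B ≤
        32 * (p : ℝ) ^ (3 * ε / 8) * ((#V : ℝ) ^ 2 * (#B : ℝ) ^ 4 * H) := by
      calc (p : ℝ) ^ (1 + δ) * E3 V B ≤ (p : ℝ) ^ (1 + δ) * E3 U B :=
            mul_le_mul_of_nonneg_left h1 (by positivity)
        _ ≤ (#U : ℝ) ^ 2 * (#B : ℝ) ^ 4 * n := hE
        _ ≤ (4 * (p : ℝ) ^ (ε / 8) * #V) ^ 2 * (#B : ℝ) ^ 4 * (2 * (p : ℝ) ^ (ε / 8) * H) := by
            refine mul_le_mul ?_ hnH (Nat.cast_nonneg _) (by positivity)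
            refine mul_le_mul_of_nonneg_right ?_ (by positivity)
            exact pow_le_pow_left₀ (Nat.cast_nonneg _) hUV 2
        _ = 32 * ((p : ℝ) ^ (ε / 8) * (p : ℝ) ^ (ε / 8) * (p : ℝ) ^ (ε / 8)) *
            ((#V : ℝ) ^ 2 * (#B : ℝ) ^ 4 * H) := by ring
        _ = _ := by
            rw [← Real.rpow_add hp0, ← Real.rpow_add hp0]
            have : ε / 8 + ε / 8 + ε / 8 = 3 * ε / 8 := by ring
            rw [this]
    have h3 : (p : ℝ) ^ (1 + ε) * (32 * (p : ℝ) ^ (3 * ε / 8)) ≤ (p : ℝ) ^ (1 + δ) := by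
      calc (p : ℝ) ^ (1 + ε) * (32 * (p : ℝ) ^ (3 * ε / 8))
          ≤ (p : ℝ) ^ (1 + ε) * ((p : ℝ) ^ (ε / 8) * (p : ℝ) ^ (3 * ε / 8)) := by
            refine mul_le_mul_of_nonneg_left ?_ (by positivity)
            exact mul_le_mul_of_nonneg_right (by linarith) (by positivity)
        _ = (p : ℝ) ^ (1 + ε + (ε / 8 + 3 * ε / 8)) := by
            rw [← Real.rpow_add hp0, ← Real.rpow_add hp0]
        _ ≤ _ := mono (by linarith)
    have h4 : (0 : ℝ) < 32 * (p : ℝ) ^ (3 * ε / 8) := by positivity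
    have h5 : (32 * (p : ℝ) ^ (3 * ε / 8)) * ((p : ℝ) ^ (1 + ε) * E3 V B) ≤
        (32 * (p : ℝ) ^ (3 * ε / 8)) * ((#V : ℝ) ^ 2 * (#B : ℝ) ^ 4 * H) := by
      calc (32 * (p : ℝ) ^ (3 * ε / 8)) * ((p : ℝ) ^ (1 + ε) * E3 V B)
          = ((p : ℝ) ^ (1 + ε) * (32 * (p : ℝ) ^ (3 * ε / 8))) * E3 V B := by ring
        _ ≤ (p : ℝ) ^ (1 + δ) * E3 V B := mul_le_mul_of_nonneg_right h3 (Nat.cast_nonneg _)
        _ ≤ _ := h2
    exact le_of_mul_le_mul_left h5 h4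
  rw [hV] at hEV
  have hBε : (p : ℝ) ^ ε ≤ #B := (mono (by linarith)).trans hB
  have hres := hP p hPp X B g H hg hBε hH1 hH2 hEV χ hχ
  refine nb_mono hres ?_
  rw [← hV]
  refine mul_le_mul_of_nonneg_left (Real.sqrt_le_sqrt ?_) (by positivity)
  exact mul_le_mul_of_nonneg_right hVU' (Nat.cast_nonneg _)

/-- the one-sided theorem G, for unions -/
theorem finalWG (h1 : SpecWG1) (hU : SpecUNI) : FinalWG := by
  intro δ hδ
  obtain ⟨τ, hτ, P, hP⟩ := h1 δ hδ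
  refine ⟨τ, hτ, P, ?_⟩
  intro p _ hp B F hB hF A hA χ hχ
  have h := hU p χ (Finset (ZMod p) × Finset (ZMod p)) Unit F univ (fun q => q.1) (fun _ => B)
    (fun q => #(q.1 + q.2)) (fun _ => #B) ((p : ℝ) ^ (-τ)) (by positivity)
    (fun _ _ => Nat.cast_nonneg _) (fun _ _ => Nat.cast_nonneg _) ?_ A B ?_
    (fun b hb => ⟨(), mem_univ _, hb⟩)
  · have e2 : (∑ i ∈ (univ : Finset Unit), (fun _ => (#B : ℝ)) i) = #B := by simp
    rw [e2] at h
    exact h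
  · intro q hq _ _
    obtain ⟨⟨g, n, hg⟩, h2, h3, h4⟩ := hF q hq
    have hq2 : q.2 = ap 0 g n := by
      rw [hg, ap]
      simp only [zero_add]
    rw [hq2] at h2 h3 h4 ⊢
    exact hP p hp q.1 B g n hB h2 h3 h4 χ hχ
  · intro a ha
    have := hA ha
    rw [mem_biUnion] at this
    exact this

end MPcb27.TW
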