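import Pool.Agent.Lib.MP_cb27ba_nt.TW.Spec
import Pool.Agent.Lib.MP_cb27ba_nt.BD.Det
import Pool.Agent.Lib.MP_cb27ba_nt.BD.All
import Pool.Agent.Lib.MP_cb27ba_nt.TG.FIN0b
import Pool.Agent.Lib.MP_cb27ba_nt.TU.FINUK
import Pool.Agent.Lib.MP_cb27ba_nt.TW.MOM2
import Pool.Agent.Lib.MP_cb27ba_nt.TW.SMP
import Pool.Agent.Lib.MP_cb27ba_nt.TW.HOP
import Pool.Agent.Lib.MP_cb27ba_nt.TW.FIN0P
import Pool.Agent.Lib.MP_cb27ba_nt.TW.TA
import Pool.Agent.Lib.MP_cb27ba_nt.TW.WG1
import Pool.Agent.Lib.MP_cb27ba_nt.TW.FIN0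
import Pool.Agent.Lib.MP_cb27ba_nt.TW.FINW

section
/-!
# MP_cb27ba_nt, project TW: module HOS (Hoelder for a sumset against an arbitrary set)
-/
set_option autoImplicit false

namespace MPcb27.TW

open Finset

theorem specHOS (hM : SpecMOM2) : SpecHOS := by
  intro k hk
  obtain ⟨C₀, hC₀, hmom⟩ := hM k hk
  refine ⟨2 * C₀, by positivity, ?_⟩
  intro p _ χ hχ D C B ρ hC hρ hE
  have hp : (0 : ℝ) < p := by exact_mod_cast (Fact.out : p.Prime).pos
  set S : Finset (ZMod p × ZMod p × ZMod p) := D ×ˢ B ×ˢ B with hS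
  set g : ZMod p × ZMod p × ZMod p → ZMod p × ZMod p :=
    fun q => (q.1 - q.2.1, q.1 - q.2.2) with hg
  have hKK : ∀ q, 0 ≤ KK χ C q := fun q => norm_nonneg _
  -- the sum is at most the sum of the inner sums
  have h1 : ∑ b ∈ B, ∑ b' ∈ B, ‖∑ d ∈ D, ∑ c ∈ C,
      χ (d + c - b) * (starRingEnd ℂ) (χ (d + c - b'))‖ ≤ ∑ q ∈ S, KK χ C (g q) := by
    have e : ∑ q ∈ S, KK χ C (g q) = ∑ b ∈ B, ∑ b' ∈ B, ∑ d ∈ D, KK χ C (g (d, b, b')) := by
      rw [hS, sum_product]
      simp only [sum_product]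
      rw [sum_comm]
      exact sum_congr rfl fun b _ => sum_comm
    rw [e]
    refine sum_le_sum fun b _ => sum_le_sum fun b' _ => ?_
    refine (norm_sum_le _ _).trans (sum_le_sum fun d _ => le_of_eq ?_)
    unfold KK
    congr 1
    refine sum_congr rfl fun c _ => ?_
    simp only [hg]
    congr 2
    · congr 1
      ring
    · congr 1
      ring
  -- Hoelder
  have h2 := Burg.holder S univ g (fun _ _ => mem_univ _) (KK χ C) hKK k hk
  have h3 : #((S ×ˢ S).filter fun q => g q.1 = g q.2) = E3 D B := by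
    unfold E3
    congr 1
    ext q
    simp only [mem_filter, hg, Prod.mk.injEq, hS]
  have h4 : (#S : ℝ) = (#D : ℝ) * (#B : ℝ) ^ 2 := by
    rw [hS, card_product, card_product]
    push_cast
    ring
  have h5 := hmom p χ hχ C
  have h6 : C₀ * ((#C : ℝ) ^ k * (p : ℝ) ^ 2 + (#C : ℝ) ^ (2 * k) * p) ≤
      2 * C₀ * p * (#C : ℝ) ^ (2 * k) := by
    have : (#C : ℝ) ^ k * (p : ℝ) ^ 2 ≤ (#C : ℝ) ^ (2 * k) * p := by
      have e : (#C : ℝ) ^ (2 * k) * p = (#C : ℝ) ^ k * p * (#C : ℝ) ^ k := by ring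
      rw [e, sq, ← mul_assoc]
      exact mul_le_mul_of_nonneg_left hC (by positivity)
    nlinarith [mul_le_mul_of_nonneg_left this hC₀]
  rw [h3, h4] at h2
  set V : ℝ := (#D : ℝ) * (#B : ℝ) ^ 2 with hV
  have hV0 : 0 ≤ V := by positivity
  have h7 : (∑ q ∈ S, KK χ C (g q)) ^ (2 * k) ≤ (V * #C * ρ) ^ (2 * k) := by
    refine h2.trans ?_
    calc V ^ (2 * (k - 1)) * (E3 D B : ℝ) * ∑ t : ZMod p × ZMod p, KK χ C t ^ (2 * k)
        ≤ V ^ (2 * (k - 1)) * (E3 D B : ℝ) * (2 * C₀ * p * (#C : ℝ) ^ (2 * k)) :=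
          mul_le_mul_of_nonneg_left (h5.trans h6) (by positivity)
      _ = V ^ (2 * (k - 1)) * (#C : ℝ) ^ (2 * k) * (2 * C₀ * E3 D B * p) := by ring
      _ ≤ V ^ (2 * (k - 1)) * (#C : ℝ) ^ (2 * k) * (ρ ^ (2 * k) * V ^ 2) :=
          mul_le_mul_of_nonneg_left hE (by positivity)
      _ = (V * #C * ρ) ^ (2 * k) := by
          obtain ⟨n, rfl⟩ : ∃ n, k = n + 1 := ⟨k - 1, by omega⟩
          rw [Nat.add_sub_cancel]
          ring
  have h8 : ∑ q ∈ S, KK χ C (g q) ≤ V * #C * ρ :=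
    le_of_pow_le_pow_left₀ (by omega) (by positivity) h7
  refine h1.trans (h8.trans (le_of_eq ?_))
  rw [hV]
  ring

end MPcb27.TW
end

section
/-!
# MP_cb27ba_nt, project TW: assembly of the one-sided theorems
-/
set_option autoImplicit false

namespace MPcb27.TW

theorem mom2 : SpecMOM2 := specMOM2 All.weil

/-- the one-sided theorem G for one pair `(X, L)` -/
theorem wg1 : SpecWG1 := specWG1 (specFIN0P specSMP TG.specPR (specHOP mom2)) specGRAMG

/-- THEOREM WG: the one-sided theorem G for unions -/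
theorem theoremWG : FinalWG := finalWG wg1 TU.specUNI

/-- THEOREM W: unions of progressions against an arbitrary set -/
theorem theoremW : FinalW := finalW (specFIN0 specCW (specHOW mom2) TG.specPR) specGRAM

/-- THEOREM S'': one sumset against an arbitrary set -/
theorem theoremS1 : FinalS1 := finalS1 (specHOS mom2) specGRAMS

/-- THEOREM A: affine families against an arbitrary set -/
theorem theoremA : FinalA := finalA mom2

end MPcb27.TW
end
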